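import Mathlib

/-!
# MP_640417_ag, Glob (four eigenvalues decide): definitions in coordinates

`F` is a complete ultrametric field of characteristic zero, `l` a prime with `‖l‖ < 1` (`F = ℚ_[l]`).
`MRep Γ F I`: a continuous symplectic representation of `Γ` on `I → F`: matrices `M γ`, an alternating
invertible matrix `J` with `(M γ)ᵀ J (M γ) = μ γ • J`.
-/

set_option autoImplicit false

namespace Pool.Agent.Lib.MP_640417_ag.Glob

open Filter Topology Matrix

/-- Continuous symplectic representations in coordinates. -/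
structure MRep (Γ : Type) [Group Γ] [TopologicalSpace Γ] (F : Type) [NontriviallyNormedField F]
    (I : Type) [Fintype I] [DecidableEq I] where
  /-- the matrices -/
  M : Γ →* Matrix I I F
  /-- the multiplier -/
  μ : Γ →* Fˣ
  /-- the form -/
  J : Matrix I I F
  cont : Continuous M
  alt : ∀ v : I → F, v ⬝ᵥ (J *ᵥ v) = 0
  det : J.det ≠ 0
  eq : ∀ γ, (M γ)ᵀ * J * M γ = (μ γ : F) • J

section

variable {F : Type} [NontriviallyNormedField F] {I : Type} [Fintype I] [DecidableEq I]

/-- All entries of `A` have norm at most `r`. -/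
def Sm (r : ℝ) (A : Matrix I I F) : Prop := ∀ i j, ‖A i j‖ ≤ r

/-- The symplectic Lie algebra. -/
def spJ (J : Matrix I I F) : Submodule F (Matrix I I F) where
  carrier := {X | Xᵀ * J + J * X = 0}
  zero_mem' := by
    show (0 : Matrix I I F)ᵀ * J + J * 0 = 0
    simp
  add_mem' := by
    intro X Y hX hY
    show (X + Y)ᵀ * J + J * (X + Y) = 0
    have hX' : Xᵀ * J + J * X = 0 := hX
    have hY' : Yᵀ * J + J * Y = 0 := hY
    rw [Matrix.transpose_add, Matrix.add_mul, Matrix.mul_add,
      show Xᵀ * J + Yᵀ * J + (J * X + J * Y) = (Xᵀ * J + J * X) + (Yᵀ * J + J * Y) by abel, hX',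
      hY', add_zero]
  smul_mem' := by
    intro s X hX
    show (s • X)ᵀ * J + J * (s • X) = 0
    have hX' : Xᵀ * J + J * X = 0 := hX
    rw [Matrix.transpose_smul, Matrix.smul_mul, Matrix.mul_smul, ← smul_add, hX', smul_zero]

theorem mem_spJ {J X : Matrix I I F} : X ∈ spJ J ↔ Xᵀ * J + J * X = 0 := Iff.rfl

/-- The symplectic group. -/
def SpJ (J : Matrix I I F) (S : Matrix I I F) : Prop := Sᵀ * J * S = J

variable {Γ : Type} [Group Γ] [TopologicalSpace Γ]

/-- Tangent vectors: limits of `(M (γ k) - 1) / l ^ k`. -/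
def MRep.Zt (ρ : MRep Γ F I) (l : ℕ) : Set (Matrix I I F) :=
  {A | ∃ γ : ℕ → Γ, Tendsto (fun k => ((l : F) ^ k)⁻¹ • (ρ.M (γ k) - 1)) atTop (𝓝 A)}

/-- The Lie algebra of the image: symplectic parts of combinations of tangent vectors. -/
def MRep.Hh (ρ : MRep Γ F I) (l : ℕ) : Submodule F (Matrix I I F) where
  carrier := {X | X ∈ spJ ρ.J ∧ ∃ s : F, X + s • (1 : Matrix I I F) ∈ Submodule.span F (ρ.Zt l)}
  zero_mem' := ⟨Submodule.zero_mem _, 0, by
    rw [zero_smul, add_zero]
    exact Submodule.zero_mem _⟩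
  add_mem' := by
    rintro X Y ⟨hX, s, hs⟩ ⟨hY, t, ht⟩
    refine ⟨Submodule.add_mem _ hX hY, s + t, ?_⟩
    rw [show X + Y + (s + t) • (1 : Matrix I I F) =
      (X + s • (1 : Matrix I I F)) + (Y + t • (1 : Matrix I I F)) by rw [add_smul]; abel]
    exact Submodule.add_mem _ hs ht
  smul_mem' := by
    rintro c X ⟨hX, s, hs⟩
    refine ⟨Submodule.smul_mem _ c hX, c * s, ?_⟩
    rw [show c • X + (c * s) • (1 : Matrix I I F) = c • (X + s • (1 : Matrix I I F)) by
      rw [smul_add, smul_smul]]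
    exact Submodule.smul_mem _ c hs

/-- `b` commutes with an open subgroup. -/
def MRep.InC (ρ : MRep Γ F I) (b : Matrix I I F) : Prop :=
  ∃ U : OpenSubgroup Γ, ∀ γ ∈ U, ρ.M γ * b = b * ρ.M γ

/-- Everything which commutes with an open subgroup is symmetric for the form. -/
def MRep.Symm (ρ : MRep Γ F I) : Prop := ∀ b : Matrix I I F, ρ.InC b → bᵀ * ρ.J = ρ.J * b

/-- Every stable subspace has a stable complement. -/
def MRep.Semi (ρ : MRep Γ F I) : Prop :=
  ∀ W : Submodule F (I → F), (∀ γ, ∀ y ∈ W, ρ.M γ *ᵥ y ∈ W) →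
    ∃ W' : Submodule F (I → F), (∀ γ, ∀ y ∈ W', ρ.M γ *ᵥ y ∈ W') ∧ IsCompl W W'

/-- the action on `V^n`, `V = I → F` -/
noncomputable def MRep.act (ρ : MRep Γ F I) (n : ℕ) (γ : Γ) :
    (Fin n → I → F) →ₗ[F] (Fin n → I → F) :=
  (Matrix.toLin' (ρ.M γ)).compLeft (Fin n)

end

/-! ### The polynomial function which detects nontrivial relations between four eigenvalues -/

section

variable {R : Type} [CommRing R] {I : Type} [Fintype I] [DecidableEq I]

/-- The fourth tensor power of a matrix. -/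
def k4 (g : Matrix I I R) : Matrix (I × I × I × I) (I × I × I × I) R :=
  Matrix.of fun x y => g x.1 y.1 * g x.2.1 y.2.1 * g x.2.2.1 y.2.2.1 * g x.2.2.2 y.2.2.2

/-- The derivation of the fourth tensor power induced by a matrix. -/
def d4 (X : Matrix I I R) : Matrix (I × I × I × I) (I × I × I × I) R :=
  Matrix.of fun x y =>
    X x.1 y.1 * (1 : Matrix I I R) x.2.1 y.2.1 * (1 : Matrix I I R) x.2.2.1 y.2.2.1 *
        (1 : Matrix I I R) x.2.2.2 y.2.2.2 +
      (1 : Matrix I I R) x.1 y.1 * X x.2.1 y.2.1 * (1 : Matrix I I R) x.2.2.1 y.2.2.1 *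
        (1 : Matrix I I R) x.2.2.2 y.2.2.2 +
      (1 : Matrix I I R) x.1 y.1 * (1 : Matrix I I R) x.2.1 y.2.1 * X x.2.2.1 y.2.2.1 *
        (1 : Matrix I I R) x.2.2.2 y.2.2.2 +
      (1 : Matrix I I R) x.1 y.1 * (1 : Matrix I I R) x.2.1 y.2.1 *
        (1 : Matrix I I R) x.2.2.1 y.2.2.1 * X x.2.2.2 y.2.2.2

/-- the number of trivial relations -/
def nt (I : Type) [Fintype I] : ℕ := 3 * Fintype.card I * (Fintype.card I - 1)

/-- not zero if the eigenvalues of `X` are different -/
noncomputable def f1 (X : Matrix I I R) : R :=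
  (Polynomial.aeval X (Polynomial.derivative X.charpoly)).det

/-- not zero if the sum of four eigenvalues is zero in at most `nt I` cases -/
noncomputable def f2 (X : Matrix I I R) : R := (d4 X).charpoly.coeff (nt I)

end

/-- The eigenvalues of `g` are different, and the product of four of them is `μ^2` up to a root of unity
only if two of them have the product `μ`. -/
def FourM {F : Type} [Field F] {I : Type} [Fintype I] [DecidableEq I] (g : Matrix I I F) (μ : F) :
    Prop :=
  g.charpoly.Separable ∧ ∀ a b u v : AlgebraicClosure F, Polynomial.aeval a g.charpoly = 0 →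
    Polynomial.aeval b g.charpoly = 0 → Polynomial.aeval u g.charpoly = 0 →
    Polynomial.aeval v g.charpoly = 0 → ∀ N : ℕ, 0 < N →
    (a * b * u * v) ^ N = algebraMap F (AlgebraicClosure F) μ ^ (2 * N) →
    a * b = algebraMap F (AlgebraicClosure F) μ ∨ a * u = algebraMap F (AlgebraicClosure F) μ ∨
      a * v = algebraMap F (AlgebraicClosure F) μ

end Pool.Agent.Lib.MP_640417_ag.Glob
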