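import Pool.Agent.Lib.MP_640417_ag.Four.Defs
import Pool.Agent.Lib.MP_640417_ag.Glob.Defs

/-!
# MP_640417_ag, Glob, module Coord (150 lines): coordinates

`M γ` = matrix of `T γ` in the basis `e`, `μ = χ⁻¹`, `J i j = form (e i) (e j)`.
* `exists_coord`: `form (∑ v i e i) (∑ w j e j) = v ⬝ᵥ J *ᵥ w`; continuity of the entries: `continuous_coeff` with the
  coordinate functionals; `det J ≠ 0`: a kernel vector of `J` would be orthogonal to everything (`form_nondeg`).
* `coord_symm`: `c = Matrix.toLin e e b`.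
* `coord_semi`: transport subspaces by `e.equivFun` (`Submodule.map`, `Submodule.comap`).
-/

set_option autoImplicit false

namespace Pool.Agent.Lib.MP_640417_ag.Glob

open Matrix Module Pool.Agent.Lib.MP_640417_ag Pool.Agent.Lib.MP_640417_ag.Frob
  Pool.Agent.Lib.MP_640417_ag.Four

variable {F : Type} [NontriviallyNormedField F] {I : Type} [Fintype I] [DecidableEq I]
  {Γ : Type} [Group Γ] [TopologicalSpace Γ] {V : Type} [AddCommGroup V] [Module F V]
  [FiniteDimensional F V]

theorem exists_coord (ρ : H1Rep Γ F V) (e : Basis I F V) :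
    ∃ R : MRep Γ F I, (∀ γ, R.M γ = LinearMap.toMatrix e e (ρ.T γ)) ∧ R.μ = ρ.χ⁻¹ ∧
      ∀ i j, R.J i j = ρ.form (e i) (e j) := by
  have hnd : ρ.form.Nondegenerate :=
    LinearMap.BilinForm.Nondegenerate.ofSeparatingLeft fun x hx => ρ.form_nondeg x hx
  refine ⟨{
    M := ((LinearMap.toMatrixAlgEquiv e : Module.End F V ≃ₐ[F] Matrix I I F) :
      Module.End F V →* Matrix I I F).comp ρ.T
    μ := ρ.χ⁻¹
    J := LinearMap.BilinForm.toMatrix e ρ.form
    cont := ?_
    alt := ?_
    det := (LinearMap.BilinForm.nondegenerate_iff_det_ne_zero e).mp hnd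
    eq := ?_ }, fun γ => rfl, rfl, fun i j => LinearMap.BilinForm.toMatrix_apply e ρ.form i j⟩
  · refine continuous_matrix fun i j => ?_
    have h := ρ.continuous_coeff (e.coord i) (e j)
    refine h.congr fun γ => ?_
    show e.repr (ρ.T γ (e j)) i = LinearMap.toMatrix e e (ρ.T γ) i j
    rw [LinearMap.toMatrix_apply]
  · intro v
    rw [LinearMap.BilinForm.dotProduct_toMatrix_mulVec]
    exact ρ.form_alt _
  · intro γ
    show (LinearMap.toMatrix e e (ρ.T γ))ᵀ * LinearMap.BilinForm.toMatrix e ρ.form *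
      LinearMap.toMatrix e e (ρ.T γ) = _
    rw [← LinearMap.BilinForm.toMatrix_comp]
    ext i j
    rw [LinearMap.BilinForm.toMatrix_apply, Matrix.smul_apply, LinearMap.BilinForm.toMatrix_apply]
    exact ρ.form_equivariant γ (e i) (e j)

theorem coord_symm (ρ : H1Rep Γ F V) (e : Basis I F V) (R : MRep Γ F I)
    (h1 : ∀ γ, R.M γ = LinearMap.toMatrix e e (ρ.T γ)) (h3 : ∀ i j, R.J i j = ρ.form (e i) (e j))
    (h : SymmetricCommutant ρ) : R.Symm := by
  rintro b ⟨U, hU⟩
  have hJ : R.J = LinearMap.BilinForm.toMatrix e ρ.form := by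
    ext i j
    rw [h3, LinearMap.BilinForm.toMatrix_apply]
  have hc : LinearMap.toMatrix e e (Matrix.toLin e e b) = b := LinearMap.toMatrix_toLin e e b
  have h4 := h (Matrix.toLin e e b) ⟨U, fun γ hγ => by
    apply (LinearMap.toMatrixAlgEquiv e).injective
    rw [map_mul, map_mul]
    show LinearMap.toMatrix e e (Matrix.toLin e e b) * LinearMap.toMatrix e e (ρ.T γ) =
      LinearMap.toMatrix e e (ρ.T γ) * LinearMap.toMatrix e e (Matrix.toLin e e b)
    rw [hc, ← h1, hU γ hγ]⟩
  have h5 : LinearMap.BilinForm.compLeft ρ.form (Matrix.toLin e e b) =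
      LinearMap.BilinForm.compRight ρ.form (Matrix.toLin e e b) :=
    LinearMap.ext fun x => LinearMap.ext fun y => h4 x y
  have h6 := congrArg (LinearMap.BilinForm.toMatrix e) h5
  rwa [LinearMap.BilinForm.toMatrix_compLeft, LinearMap.BilinForm.toMatrix_compRight, hc, ← hJ]
    at h6

theorem coord_semi (ρ : H1Rep Γ F V) (e : Basis I F V) (R : MRep Γ F I)
    (h1 : ∀ γ, R.M γ = LinearMap.toMatrix e e (ρ.T γ)) (h : Semisimple ρ) : R.Semi := by
  have hM : ∀ γ x, e.equivFun (ρ.T γ x) = R.M γ *ᵥ e.equivFun x := by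
    intro γ x
    rw [h1]
    exact (LinearMap.toMatrix_mulVec_repr e e (ρ.T γ) x).symm
  intro W hW
  obtain ⟨W', h2, h3⟩ := h (W.comap e.equivFun.toLinearMap) (by
    intro γ y hy
    show e.equivFun (ρ.T γ y) ∈ W
    rw [hM]
    exact hW γ _ hy)
  refine ⟨W'.map e.equivFun.toLinearMap, ?_, ?_⟩
  · rintro γ _ ⟨y, hy, rfl⟩
    exact ⟨ρ.T γ y, h2 γ y hy, hM γ y⟩
  · have h4 := (Submodule.orderIsoMapComap e.equivFun).isCompl h3
    have h5 : (W.comap e.equivFun.toLinearMap).map e.equivFun.toLinearMap = W :=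
      Submodule.map_comap_eq_of_surjective e.equivFun.surjective W
    have h6 : IsCompl ((W.comap e.equivFun.toLinearMap).map e.equivFun.toLinearMap)
        (W'.map e.equivFun.toLinearMap) := h4
    rwa [h5] at h6

end Pool.Agent.Lib.MP_640417_ag.Glob
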