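import Pool.Agent.Lib.MP_640417_ag.Four.Defs
import Pool.Agent.Lib.MP_640417_ag.Glob.Defs

/-!
# MP_640417_ag, Glob, module CoordX (150 lines): transport of Tate classes, good elements

* `coord_ex`: let `g = (e.equivFun).compLeft : (Fin 4 → V) ≃ (Fin 4 → I → F)`; it intertwines `(T γ).compLeft` and
  `R.act 4 γ`. Its inverse maps `x` to a Tate class (see `mainA_tate`, `mainA_mem`, `mainA_div` in
  `Four/Transport.lean`, private lemmas to be copied), which is in the divisor algebra by `NoExoticFour`; map it back.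
* `coord_good`: `(T γ).charpoly = (R.M γ).charpoly` (`LinearMap.charpoly_toMatrix`), a separable polynomial has simple
  roots (`Polynomial.rootMultiplicity_le_one_of_separable`; a root has positive multiplicity).
-/

set_option autoImplicit false

namespace Pool.Agent.Lib.MP_640417_ag.Glob

open Matrix Module Pool.Agent.Lib.MP_640417_ag Pool.Agent.Lib.MP_640417_ag.Frob
  Pool.Agent.Lib.MP_640417_ag.Four

section coordx

variable {Γ : Type} [Group Γ] [TopologicalSpace Γ] {F : Type} [Field F]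

private theorem coordx_mem {V W : Type} [AddCommGroup V] [Module F V] [AddCommGroup W] [Module F W]
    (g : V →ₗ[F] W) (m : ℕ) (x : ExteriorAlgebra F V) (hx : x ∈ ⋀[F]^m V) :
    ExteriorAlgebra.map g x ∈ ⋀[F]^m W := by
  have h : Submodule.map (ExteriorAlgebra.map g).toLinearMap (⋀[F]^m V) ≤ ⋀[F]^m W := by
    rw [Submodule.map_pow]
    have h1 : Submodule.map (ExteriorAlgebra.map g).toLinearMap (LinearMap.range
        (ExteriorAlgebra.ι F : V →ₗ[F] ExteriorAlgebra F V)) ≤ LinearMap.range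
        (ExteriorAlgebra.ι F : W →ₗ[F] ExteriorAlgebra F W) := by
      rintro _ ⟨_, ⟨v, rfl⟩, rfl⟩
      refine ⟨g v, ?_⟩
      simp
    exact pow_le_pow_left' h1 m
  exact h ⟨x, hx, rfl⟩

private theorem coordx_tate {V W : Type} [AddCommGroup V] [Module F V] [AddCommGroup W]
    [Module F W] (T : Γ → V →ₗ[F] V) (S : Γ → W →ₗ[F] W) (χ : Γ →* Fˣ) (g : V →ₗ[F] W)
    (hg : ∀ γ, g ∘ₗ T γ = S γ ∘ₗ g) (i : ℕ) (x : ExteriorAlgebra F V) (hx : TateClass T χ i x) :
    TateClass S χ i (ExteriorAlgebra.map g x) := by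
  obtain ⟨h1, U, hU⟩ := hx
  refine ⟨coordx_mem g _ x h1, U, fun γ hγ => ?_⟩
  have h2 := congrArg (ExteriorAlgebra.map g) (hU γ hγ)
  have h3 : ExteriorAlgebra.map (S γ) (ExteriorAlgebra.map g x) =
      ExteriorAlgebra.map g (ExteriorAlgebra.map (T γ) x) := by
    have e1 : (ExteriorAlgebra.map (S γ)).comp (ExteriorAlgebra.map g) =
        (ExteriorAlgebra.map g).comp (ExteriorAlgebra.map (T γ)) := by
      rw [ExteriorAlgebra.map_comp_map, ExteriorAlgebra.map_comp_map, hg]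
    exact congrArg (fun a => a x) e1
  rw [h3, ← map_smul]
  exact h2

private theorem coordx_div {V W : Type} [AddCommGroup V] [Module F V] [AddCommGroup W]
    [Module F W] (T : Γ → V →ₗ[F] V) (S : Γ → W →ₗ[F] W) (χ : Γ →* Fˣ) (g : V →ₗ[F] W)
    (hg : ∀ γ, g ∘ₗ T γ = S γ ∘ₗ g) (x : ExteriorAlgebra F V) (hx : x ∈ divisorAlg T χ) :
    ExteriorAlgebra.map g x ∈ divisorAlg S χ := by
  have h : (divisorAlg T χ).map (ExteriorAlgebra.map g) ≤ divisorAlg S χ := by
    unfold divisorAlg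
    rw [AlgHom.map_adjoin]
    refine Algebra.adjoin_mono ?_
    rintro _ ⟨y, hy, rfl⟩
    exact coordx_tate T S χ g hg 1 y hy
  exact h ⟨x, hx, rfl⟩

end coordx

variable {F : Type} [NontriviallyNormedField F] {I : Type} [Fintype I] [DecidableEq I]
  {Γ : Type} [Group Γ] [TopologicalSpace Γ] {V : Type} [AddCommGroup V] [Module F V]
  [FiniteDimensional F V]

theorem coord_ex (ρ : H1Rep Γ F V) (e : Basis I F V) (R : MRep Γ F I)
    (h1 : ∀ γ, R.M γ = LinearMap.toMatrix e e (ρ.T γ)) (h2 : R.μ = ρ.χ⁻¹) (h : NoExoticFour ρ)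
    (x : ExteriorAlgebra F (Fin 4 → I → F)) (hx : TateClass (R.act 4) R.μ⁻¹ 2 x) :
    x ∈ divisorAlg (R.act 4) R.μ⁻¹ := by
  have hμ : R.μ⁻¹ = ρ.χ := MonoidHom.ext fun γ => by
    rw [MonoidHom.inv_apply, h2, MonoidHom.inv_apply, inv_inv]
  rw [hμ] at hx ⊢
  have hM : ∀ γ y, e.equivFun (ρ.T γ y) = R.M γ *ᵥ e.equivFun y := by
    intro γ y
    rw [h1]
    exact (LinearMap.toMatrix_mulVec_repr e e (ρ.T γ) y).symm
  let g : (Fin 4 → V) →ₗ[F] (Fin 4 → I → F) := e.equivFun.toLinearMap.compLeft (Fin 4)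
  let g' : (Fin 4 → I → F) →ₗ[F] (Fin 4 → V) := e.equivFun.symm.toLinearMap.compLeft (Fin 4)
  have hgg : g ∘ₗ g' = LinearMap.id := by
    refine LinearMap.ext fun v => funext fun k => ?_
    exact e.equivFun.apply_symm_apply (v k)
  have hg : ∀ γ, g ∘ₗ (ρ.T γ).compLeft (Fin 4) = R.act 4 γ ∘ₗ g := by
    intro γ
    refine LinearMap.ext fun v => funext fun k => ?_
    exact hM γ (v k)
  have hg' : ∀ γ, g' ∘ₗ R.act 4 γ = (ρ.T γ).compLeft (Fin 4) ∘ₗ g' := by
    intro γ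
    refine LinearMap.ext fun v => funext fun k => ?_
    show e.equivFun.symm (R.M γ *ᵥ (v k)) = ρ.T γ (e.equivFun.symm (v k))
    rw [LinearEquiv.symm_apply_eq, hM, LinearEquiv.apply_symm_apply]
  have h3 : TateClass (fun γ => (ρ.T γ).compLeft (Fin 4)) ρ.χ 2 (ExteriorAlgebra.map g' x) :=
    coordx_tate (R.act 4) (fun γ => (ρ.T γ).compLeft (Fin 4)) ρ.χ g' hg' 2 x hx
  have h4 : ExteriorAlgebra.map g' x ∈ divisorAlg (fun γ => (ρ.T γ).compLeft (Fin 4)) ρ.χ := by
    by_contra hcon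
    exact h _ ⟨h3, hcon⟩
  have h5 := coordx_div (fun γ => (ρ.T γ).compLeft (Fin 4)) (R.act 4) ρ.χ g hg _ h4
  have h6 : ExteriorAlgebra.map g (ExteriorAlgebra.map g' x) = x := by
    have e1 : (ExteriorAlgebra.map g).comp (ExteriorAlgebra.map g') = AlgHom.id F _ := by
      rw [ExteriorAlgebra.map_comp_map, hgg, ExteriorAlgebra.map_id]
    exact congrArg (fun a => a x) e1
  rwa [h6] at h5

theorem coord_good (ρ : H1Rep Γ F V) (e : Basis I F V) (R : MRep Γ F I)
    (h1 : ∀ γ, R.M γ = LinearMap.toMatrix e e (ρ.T γ)) (h2 : R.μ = ρ.χ⁻¹) (γ : Γ)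
    (h : FourM (R.M γ) (R.μ γ : F)) : GoodElt ρ γ := by
  have hμ : (R.μ γ : F) = ((ρ.χ γ)⁻¹ : Fˣ).val := by
    rw [h2, MonoidHom.inv_apply]
  have hc : (R.M γ).charpoly = (ρ.T γ).charpoly := by
    rw [h1]
    exact LinearMap.charpoly_toMatrix (ρ.T γ) e
  obtain ⟨hs, hr⟩ := h
  rw [hμ] at hr
  rw [hc] at hs hr
  intro z hz
  refine ⟨?_, fun z₂ z₃ z₄ w2 w3 w4 N hN hp => hr z z₂ z₃ z₄ hz w2 w3 w4 N hN hp⟩
  refine le_antisymm (Polynomial.rootMultiplicity_le_one_of_separable hs.map z) ?_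
  refine (Polynomial.rootMultiplicity_pos ?_).mpr ?_
  · exact (Polynomial.map_ne_zero_iff (algebraMap F (AlgebraicClosure F)).injective).mpr
      (LinearMap.charpoly_monic (ρ.T γ)).ne_zero
  · rw [Polynomial.IsRoot, Polynomial.eval_map_algebraMap]
    exact hz

end Pool.Agent.Lib.MP_640417_ag.Glob
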