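import Pool.Agent.Lib.MP_640417_ag.Glob.Cnt

/-!
# MP_640417_ag, Glob, module Five (130 lines): sums of four signed powers of five

`zz : Fin m ⊕ Fin m → K`, `zz (inl i) = 5^i`, `zz (inr i) = -5^i`; `sw` exchanges `inl i` and `inr i`.
* `zz_inj`: work in the integers (`K` has characteristic zero).
* `zz_zero`: the sum of four values is zero if and only if the four arguments form two exchanged pairs. Collect the
  coefficient `c i ∈ {-4, .., 4}` of every power: `∑ c i 5^i = 0` in the integers implies `c i = 0` for all `i`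
  (smallest index with `c i ≠ 0`: `5 ∣ c i`). So the first argument `x` needs a partner `sw x` among the other three, and
  the remaining two cancel: their values have sum zero, so one is `sw` of the other (`zz_inj`).
  (Alternative: order the four exponents; if the largest absolute value `5^i` occurs with coefficient `c ≠ 0` the rest is
  at most `3 * 5^(i-1) < 5^i`.)
* `card_zz`: `T0` and `card_T0`, transported by `σ`.
-/

set_option autoImplicit false

namespace Pool.Agent.Lib.MP_640417_ag.Glob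

open Matrix

variable {K : Type} [Field K] [CharZero K]

/-- signed powers of five -/
def zz (K : Type) [Field K] {m : ℕ} : Fin m ⊕ Fin m → K :=
  Sum.elim (fun i => (5 : K) ^ (i : ℕ)) (fun i => -(5 : K) ^ (i : ℕ))

theorem zz_swap {m : ℕ} (x : Fin m ⊕ Fin m) : zz K x.swap = -zz K x := by
  cases x with
  | inl i => rfl
  | inr i =>
    show (5 : K) ^ (i : ℕ) = - -(5 : K) ^ (i : ℕ)
    rw [neg_neg]

/-- the integer version -/
private def zi {m : ℕ} : Fin m ⊕ Fin m → ℤ :=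
  Sum.elim (fun i => (5 : ℤ) ^ (i : ℕ)) (fun i => -(5 : ℤ) ^ (i : ℕ))

/-- the exponent -/
private def ze {m : ℕ} : Fin m ⊕ Fin m → ℕ := Sum.elim (fun i => (i : ℕ)) (fun i => (i : ℕ))

omit [CharZero K] in
private theorem zi_cast {m : ℕ} (x : Fin m ⊕ Fin m) : ((zi x : ℤ) : K) = zz K x := by
  cases x with
  | inl i =>
    show (((5 : ℤ) ^ (i : ℕ) : ℤ) : K) = (5 : K) ^ (i : ℕ)
    push_cast
    rfl
  | inr i =>
    show ((-(5 : ℤ) ^ (i : ℕ) : ℤ) : K) = -(5 : K) ^ (i : ℕ)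
    push_cast
    rfl

private theorem five_inj {i j : ℕ} (h : (5 : ℤ) ^ i = 5 ^ j) : i = j := by
  have h1 : (5 : ℕ) ^ i = 5 ^ j := by exact_mod_cast h
  exact Nat.pow_right_injective (le_refl _ |>.trans (by norm_num : 2 ≤ 5)) h1

private theorem zi_inj {m : ℕ} {x y : Fin m ⊕ Fin m} (h : zi x = zi y) : x = y := by
  cases x with
  | inl i =>
    cases y with
    | inl j =>
      have h1 : (5 : ℤ) ^ (i : ℕ) = 5 ^ (j : ℕ) := h
      rw [Fin.ext (five_inj h1)]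
    | inr j =>
      have h1 : (5 : ℤ) ^ (i : ℕ) = -5 ^ (j : ℕ) := h
      have h2 : (0 : ℤ) < 5 ^ (i : ℕ) := by positivity
      have h3 : (0 : ℤ) < 5 ^ (j : ℕ) := by positivity
      omega
  | inr i =>
    cases y with
    | inl j =>
      have h1 : -(5 : ℤ) ^ (i : ℕ) = 5 ^ (j : ℕ) := h
      have h2 : (0 : ℤ) < 5 ^ (i : ℕ) := by positivity
      have h3 : (0 : ℤ) < 5 ^ (j : ℕ) := by positivity
      omega
    | inr j =>
      have h1 : -(5 : ℤ) ^ (i : ℕ) = -5 ^ (j : ℕ) := h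
      rw [Fin.ext (five_inj (neg_injective h1))]

private theorem zi_swap {m : ℕ} (x : Fin m ⊕ Fin m) : zi x.swap = -zi x := by
  cases x with
  | inl i => rfl
  | inr i =>
    show (5 : ℤ) ^ (i : ℕ) = - -(5 : ℤ) ^ (i : ℕ)
    rw [neg_neg]

private theorem pow_lt_five {i j : ℕ} (h : j < i) : 5 * (5 : ℤ) ^ j ≤ 5 ^ i := by
  rw [← pow_succ']
  exact pow_le_pow_right₀ (by norm_num) h

private theorem zi_low {m : ℕ} (i : Fin m) (x : Fin m ⊕ Fin m) (h : ze x ≤ (i : ℕ))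
    (hx : x ≠ Sum.inr i) : -(5 : ℤ) ^ (i : ℕ) ≤ 5 * zi x := by
  have h2 : (0 : ℤ) < 5 ^ (i : ℕ) := by positivity
  cases x with
  | inl j =>
    have h3 : (0 : ℤ) < 5 ^ (j : ℕ) := by positivity
    show -(5 : ℤ) ^ (i : ℕ) ≤ 5 * 5 ^ (j : ℕ)
    omega
  | inr j =>
    have h1 : (j : ℕ) ≤ i := h
    have h3 : (j : ℕ) ≠ i := fun e => hx (by rw [Fin.ext e])
    have h4 := pow_lt_five (lt_of_le_of_ne h1 h3)
    show -(5 : ℤ) ^ (i : ℕ) ≤ 5 * -5 ^ (j : ℕ)
    omega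

private theorem zi_upp {m : ℕ} (i : Fin m) (x : Fin m ⊕ Fin m) (h : ze x ≤ (i : ℕ))
    (hx : x ≠ Sum.inl i) : 5 * zi x ≤ (5 : ℤ) ^ (i : ℕ) := by
  have h2 : (0 : ℤ) < 5 ^ (i : ℕ) := by positivity
  cases x with
  | inr j =>
    have h3 : (0 : ℤ) < 5 ^ (j : ℕ) := by positivity
    show 5 * -(5 : ℤ) ^ (j : ℕ) ≤ 5 ^ (i : ℕ)
    omega
  | inl j =>
    have h1 : (j : ℕ) ≤ i := h
    have h3 : (j : ℕ) ≠ i := fun e => hx (by rw [Fin.ext e])
    have h4 := pow_lt_five (lt_of_le_of_ne h1 h3)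
    show 5 * (5 : ℤ) ^ (j : ℕ) ≤ 5 ^ (i : ℕ)
    omega

private theorem zi_max {m : ℕ} {a b u v : Fin m ⊕ Fin m} (h : zi a + zi b + zi u + zi v = 0)
    (hb : ze b ≤ ze a) (hu : ze u ≤ ze a) (hv : ze v ≤ ze a) :
    b = a.swap ∨ u = a.swap ∨ v = a.swap := by
  by_contra hcon
  push Not at hcon
  obtain ⟨nb, nu, nv⟩ := hcon
  cases a with
  | inl i =>
    have h1 := zi_low i b hb nb
    have h2 := zi_low i u hu nu
    have h3 := zi_low i v hv nv
    have h4 : zi (Sum.inl i : Fin m ⊕ Fin m) = (5 : ℤ) ^ (i : ℕ) := rfl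
    have h5 : (0 : ℤ) < 5 ^ (i : ℕ) := by positivity
    rw [h4] at h
    omega
  | inr i =>
    have h1 := zi_upp i b hb nb
    have h2 := zi_upp i u hu nu
    have h3 := zi_upp i v hv nv
    have h4 : zi (Sum.inr i : Fin m ⊕ Fin m) = -(5 : ℤ) ^ (i : ℕ) := rfl
    have h5 : (0 : ℤ) < 5 ^ (i : ℕ) := by positivity
    rw [h4] at h
    omega

private theorem zi_pair {m : ℕ} {u v : Fin m ⊕ Fin m} (h : zi u + zi v = 0) : v = u.swap := by
  apply zi_inj
  rw [zi_swap]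
  omega

private theorem zi_max' {m : ℕ} {a b u v : Fin m ⊕ Fin m} (h : zi a + zi b + zi u + zi v = 0)
    (hb : ze b ≤ ze a) (hu : ze u ≤ ze a) (hv : ze v ≤ ze a) :
    (b = a.swap ∧ v = u.swap) ∨ (u = a.swap ∧ v = b.swap) ∨ (v = a.swap ∧ u = b.swap) := by
  rcases zi_max h hb hu hv with e | e | e
  · refine Or.inl ⟨e, zi_pair ?_⟩
    rw [e, zi_swap] at h
    omega
  · refine Or.inr (Or.inl ⟨e, zi_pair ?_⟩)
    rw [e, zi_swap] at h
    omega
  · refine Or.inr (Or.inr ⟨e, zi_pair ?_⟩)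
    rw [e, zi_swap] at h
    omega

private theorem swap_iff {m : ℕ} {x y : Fin m ⊕ Fin m} : y = x.swap ↔ x = y.swap := by
  constructor
  · rintro rfl
    rw [Sum.swap_swap]
  · rintro rfl
    rw [Sum.swap_swap]

private theorem zi_zero {m : ℕ} (a b u v : Fin m ⊕ Fin m) :
    zi a + zi b + zi u + zi v = 0 ↔ (b = a.swap ∧ v = u.swap) ∨ (u = a.swap ∧ v = b.swap) ∨
      (v = a.swap ∧ u = b.swap) := by
  constructor
  · intro h
    by_cases ha : ze b ≤ ze a ∧ ze u ≤ ze a ∧ ze v ≤ ze a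
    · exact zi_max' h ha.1 ha.2.1 ha.2.2
    by_cases hb : ze a ≤ ze b ∧ ze u ≤ ze b ∧ ze v ≤ ze b
    · rcases zi_max' (a := b) (b := a) (u := u) (v := v) (by omega) hb.1 hb.2.1 hb.2.2 with
        ⟨e, f⟩ | ⟨e, f⟩ | ⟨e, f⟩
      · exact Or.inl ⟨swap_iff.1 e, f⟩
      · exact Or.inr (Or.inr ⟨f, e⟩)
      · exact Or.inr (Or.inl ⟨f, e⟩)
    by_cases hu : ze a ≤ ze u ∧ ze b ≤ ze u ∧ ze v ≤ ze u
    · rcases zi_max' (a := u) (b := a) (u := b) (v := v) (by omega) hu.1 hu.2.1 hu.2.2 with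
        ⟨e, f⟩ | ⟨e, f⟩ | ⟨e, f⟩
      · exact Or.inr (Or.inl ⟨swap_iff.1 e, f⟩)
      · exact Or.inr (Or.inr ⟨f, swap_iff.1 e⟩)
      · exact Or.inl ⟨f, e⟩
    · rcases zi_max' (a := v) (b := a) (u := b) (v := u) (by omega) (by omega) (by omega)
        (by omega) with ⟨e, f⟩ | ⟨e, f⟩ | ⟨e, f⟩
      · exact Or.inr (Or.inr ⟨swap_iff.1 e, f⟩)
      · exact Or.inr (Or.inl ⟨f, swap_iff.1 e⟩)
      · exact Or.inl ⟨f, swap_iff.1 e⟩
  · rintro (⟨rfl, rfl⟩ | ⟨rfl, rfl⟩ | ⟨rfl, rfl⟩)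
    · rw [zi_swap, zi_swap]
      ring
    · rw [zi_swap, zi_swap]
      ring
    · rw [zi_swap, zi_swap]
      ring

theorem zz_inj {m : ℕ} : Function.Injective (zz K : Fin m ⊕ Fin m → K) := by
  intro x y h
  rw [← zi_cast, ← zi_cast] at h
  exact zi_inj (Int.cast_injective h)

theorem zz_zero {m : ℕ} (a b u v : Fin m ⊕ Fin m) :
    zz K a + zz K b + zz K u + zz K v = 0 ↔ (b = a.swap ∧ v = u.swap) ∨ (u = a.swap ∧ v = b.swap) ∨
      (v = a.swap ∧ u = b.swap) := by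
  rw [← zi_zero, ← zi_cast, ← zi_cast, ← zi_cast, ← zi_cast]
  constructor
  · intro h
    exact_mod_cast h
  · intro h
    exact_mod_cast h

theorem card_zz {I : Type} [Fintype I] [DecidableEq I] [DecidableEq K] {m : ℕ}
    (σ : I ≃ Fin m ⊕ Fin m) :
    (Finset.univ.filter fun x : I × I × I × I => zz K (σ x.1) + zz K (σ x.2.1) +
      zz K (σ x.2.2.1) + zz K (σ x.2.2.2) = 0).card = nt I := by
  rw [← card_T0 (fun i => σ.symm (σ i).swap) (fun i => by
      rw [Equiv.apply_symm_apply, Sum.swap_swap, Equiv.symm_apply_apply]) (fun i h => by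
      rw [Equiv.symm_apply_eq] at h
      cases hi : σ i with
      | inl j =>
        rw [hi] at h
        exact Sum.inr_ne_inl h
      | inr j =>
        rw [hi] at h
        exact Sum.inl_ne_inr h)]
  congr 1
  ext x
  unfold T0
  rw [Finset.mem_filter, Finset.mem_filter, zz_zero]
  simp only [Equiv.eq_symm_apply]

end Pool.Agent.Lib.MP_640417_ag.Glob
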