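import Pool.Agent.Lib.MP_640417_ag.Four.Spec2
import Pool.Agent.Lib.MP_640417_ag.Glob.Defs

/-!
# MP_640417_ag, Glob, module Joint (200 lines): symplectic bases of joint eigenvectors

`S` is a set of commuting diagonalizable matrices over an algebraically closed field `K`, symmetric for the form `J`.
For `χ : S → K` let `V χ` be the joint eigenspace. By Mathlib (`Module.End.iSup_iInf_maxGenEigenspace_eq_top_of_...` and
`Module.End.independent_iInf_maxGenEigenspace_of_forall_mapsTo`; the generalized eigenspaces are eigenspaces by `hd`) the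
nonzero `V χ` are finitely many and `K^I` is their direct sum. Let `B` be the finite set of these `χ` and `p χ` the
projection onto `V χ` along the others. `V χ` and `V χ'` are orthogonal for `χ ≠ χ'`
(`χ(b) (x,y) = (b x, y) = (x, b y) = χ'(b) (x,y)`), so `p χ` is self-adjoint. Apply `SDarboux` with `st = id`, to the
form `x, y ↦ x ⬝ᵥ J *ᵥ y`: `e_i`, `f_i` (`i < m`) span `K^I` and are linearly independent (the Gram matrix is
invertible), so `card I = 2 m`; choose `σ : I ≃ Fin m ⊕ Fin m`, the columns of `P` are `e`, `f`. As `p (b i) (e i) = e i`,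
`e i ∈ V (b i)`, `f i ∈ V (b i)`, every `b ∈ S` multiplies both with the same scalar.
-/

set_option autoImplicit false

namespace Pool.Agent.Lib.MP_640417_ag.Glob

open Matrix Module

/-- the Gram matrix of a symplectic basis -/
def om (K : Type) [Field K] {m : ℕ} : Fin m ⊕ Fin m → Fin m ⊕ Fin m → K
  | Sum.inl i, Sum.inr j => if i = j then 1 else 0
  | Sum.inr i, Sum.inl j => if i = j then -1 else 0
  | _, _ => 0

/-- projections of a finite orthogonal decomposition -/
theorem joint_proj {K V : Type} [Field K] [AddCommGroup V] [Module K V]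
    (form : LinearMap.BilinForm K V) {B : Type} [Fintype B] [DecidableEq B]
    (E : B → Submodule K V) (hind : iSupIndep E) (htop : ⨆ b, E b = ⊤)
    (horth : ∀ a b, a ≠ b → ∀ x ∈ E a, ∀ y ∈ E b, form x y = 0) :
    ∃ p : B → Module.End K V, (∀ b x, p b x ∈ E b) ∧ ∑ b, p b = 1 ∧ (∀ b, p b * p b = p b) ∧
      (∀ b b', b ≠ b' → p b * p b' = 0) ∧ ∀ b x y, form (p b x) y = form x (p b y) := by
  classical
  have hcompl : ∀ b, IsCompl (E b) (⨆ (b' : B) (_ : b' ≠ b), E b') := by
    intro b
    refine ⟨hind b, ?_⟩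
    rw [codisjoint_iff, eq_top_iff, ← htop]
    refine iSup_le fun b' => ?_
    by_cases hb : b' = b
    · subst hb
      exact le_sup_left
    · exact le_trans (le_iSup₂ (f := fun (b' : B) (_ : b' ≠ b) => E b') b' hb) le_sup_right
  let p : B → Module.End K V := fun b => (E b).subtype ∘ₗ Submodule.projectionOnto _ _ (hcompl b)
  have h1 : ∀ b x, p b x ∈ E b := fun b x => Subtype.prop _
  have h2 : ∀ b, ∀ x ∈ E b, p b x = x := by
    intro b x hx
    show ((Submodule.projectionOnto _ _ (hcompl b) x : E b) : V) = x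
    rw [Submodule.projectionOnto_apply_left (hcompl b) ⟨x, hx⟩]
  have h3 : ∀ b b', b ≠ b' → ∀ x ∈ E b', p b x = 0 := by
    intro b b' hb x hx
    show ((Submodule.projectionOnto _ _ (hcompl b) x : E b) : V) = 0
    have h4 : x ∈ ⨆ (b'' : B) (_ : b'' ≠ b), E b'' :=
      (le_iSup₂ (f := fun (b' : B) (_ : b' ≠ b) => E b') b' hb.symm) hx
    rw [(Submodule.projectionOnto_apply_eq_zero_iff (hcompl b)).mpr h4]
    rfl
  have hext : ∀ (W : Type) [AddCommGroup W] [Module K W] (g g' : V →ₗ[K] W),
      (∀ b, ∀ x ∈ E b, g x = g' x) → g = g' := by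
    intro W _ _ g g' h
    have h4 : (⊤ : Submodule K V) ≤ LinearMap.eqLocus g g' := by
      rw [← htop]
      exact iSup_le fun b x hx => h b x hx
    exact LinearMap.ext fun x => h4 (Submodule.mem_top : x ∈ (⊤ : Submodule K V))
  refine ⟨p, h1, ?_, ?_, ?_, ?_⟩
  · refine hext V _ _ fun b x hx => ?_
    rw [LinearMap.sum_apply, Finset.sum_eq_single b]
    · exact h2 b x hx
    · intro b' _ hb'
      exact h3 b' b hb' x hx
    · intro h
      exact absurd (Finset.mem_univ b) h
  · intro b
    exact LinearMap.ext fun x => h2 b _ (h1 b x)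
  · intro b b' hb
    exact LinearMap.ext fun x => h3 b b' hb _ (h1 b' x)
  · intro b
    have h4 : form ∘ₗ p b = (form.flip ∘ₗ p b).flip := by
      refine hext _ _ _ fun a x hx => ?_
      refine hext _ _ _ fun c y hy => ?_
      show form (p b x) y = form x (p b y)
      by_cases hab : b = a
      · subst hab
        rw [h2 b x hx]
        by_cases hbc : b = c
        · subst hbc
          rw [h2 b y hy]
        · rw [h3 b c hbc y hy, map_zero]
          exact horth b c hbc x hx y hy
      · rw [h3 b a hab x hx, map_zero, LinearMap.zero_apply]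
        by_cases hbc : b = c
        · subst hbc
          rw [h2 b y hy]
          exact (horth a b (Ne.symm hab) x hx y hy).symm
        · rw [h3 b c hbc y hy, map_zero]
    intro x y
    exact LinearMap.congr_fun (LinearMap.congr_fun h4 x) y

theorem om_swap {K : Type} [Field K] {m : ℕ} (a b : Fin m ⊕ Fin m) (h : b ≠ a.swap) :
    om K a b = 0 := by
  rcases a with i | i <;> rcases b with j | j
  · rfl
  · show (if i = j then (1 : K) else 0) = 0
    rw [if_neg]
    rintro rfl
    exact h rfl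
  · show (if i = j then (-1 : K) else 0) = 0
    rw [if_neg]
    rintro rfl
    exact h rfl
  · rfl

theorem om_ne {K : Type} [Field K] {m : ℕ} (a : Fin m ⊕ Fin m) : om K a a.swap ≠ 0 := by
  rcases a with i | i
  · show (if i = i then (1 : K) else 0) ≠ 0
    rw [if_pos rfl]
    exact one_ne_zero
  · show (if i = i then (-1 : K) else 0) ≠ 0
    rw [if_pos rfl]
    exact neg_ne_zero.mpr one_ne_zero

theorem eq_of_indep {K V : Type} [Field K] [AddCommGroup V] [Module K V] {ι : Type}
    {a b : ι → Submodule K V} (hle : ∀ t, a t ≤ b t) (hb : iSupIndep b) (ha : ⨆ t, a t = ⊤)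
    (t : ι) : b t ≤ a t := by
  have h1 : a t ⊔ ⨆ (j : ι) (_ : j ≠ t), a j = ⊤ := by
    rw [eq_top_iff, ← ha]
    refine iSup_le fun j => ?_
    by_cases hj : j = t
    · subst hj
      exact le_sup_left
    · exact le_trans (le_iSup₂ (f := fun (j : ι) (_ : j ≠ t) => a j) j hj) le_sup_right
  have h2 : (⨆ (j : ι) (_ : j ≠ t), a j) ⊓ b t = ⊥ := by
    rw [inf_comm]
    exact ((hb t).mono_right (iSup₂_mono fun j _ => hle j)).eq_bot
  have h3 : (a t ⊔ ⨆ (j : ι) (_ : j ≠ t), a j) ⊓ b t = a t ⊔ (⨆ (j : ι) (_ : j ≠ t), a j) ⊓ b t :=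
    sup_inf_assoc_of_le _ (hle t)
  rw [h1, h2, top_inf_eq, sup_bot_eq] at h3
  exact h3.le

theorem exists_basis (hD : Pool.Agent.Lib.MP_640417_ag.Four.SDarboux) {K : Type} [Field K]
    [IsAlgClosed K] [CharZero K] {I : Type} [Fintype I] [DecidableEq I] (J : Matrix I I K)
    (hJ : ∀ v : I → K, v ⬝ᵥ (J *ᵥ v) = 0) (hdet : J.det ≠ 0) (S : Set (Matrix I I K))
    (hc : ∀ a ∈ S, ∀ b ∈ S, a * b = b * a) (hs : ∀ b ∈ S, bᵀ * J = J * b)
    (hd : ∀ b ∈ S, ⨆ t : K, Module.End.eigenspace (Matrix.toLin' b) t = ⊤) :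
    ∃ (m : ℕ) (σ : I ≃ Fin m ⊕ Fin m) (P : Matrix I I K), P.det ≠ 0 ∧
      (∀ i j, (Pᵀ * J * P) i j = om K (σ i) (σ j)) ∧
      ∀ b ∈ S, ∃ w : Fin m → K, b * P = P * Matrix.diagonal fun i => Sum.elim w w (σ i) := by
  classical
  let f : S → Module.End K (I → K) := fun s => Matrix.toLin' s.1
  have hcomm : ∀ s t : S, Commute (f s) (f t) := by
    intro s t
    have h1 : Matrix.toLin' (s.1 * t.1) = Matrix.toLin' (t.1 * s.1) := by
      rw [hc s.1 s.2 t.1 t.2]
    rw [Matrix.toLin'_mul, Matrix.toLin'_mul] at h1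
    exact h1
  let form : LinearMap.BilinForm K (I → K) := Matrix.toBilin' J
  have hform : ∀ x y : I → K, form x y = x ⬝ᵥ J *ᵥ y := fun x y => Matrix.toBilin'_apply' J x y
  have hsym : ∀ s : S, ∀ x y, form (f s x) y = form x (f s y) := by
    intro s x y
    rw [hform, hform]
    show (s.1 *ᵥ x) ⬝ᵥ J *ᵥ y = x ⬝ᵥ J *ᵥ (s.1 *ᵥ y)
    rw [Matrix.mulVec_mulVec, ← hs s.1 s.2, ← Matrix.mulVec_mulVec,
      Matrix.dotProduct_mulVec x (s.1)ᵀ, Matrix.vecMul_transpose]
  -- joint eigenspaces
  let E : (S → K) → Submodule K (I → K) := fun χ => ⨅ s, (f s).maxGenEigenspace (χ s)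
  have hmaps : ∀ i j φ, Set.MapsTo (f i) ((f j).maxGenEigenspace φ) ((f j).maxGenEigenspace φ) :=
    fun i j φ => Module.End.mapsTo_maxGenEigenspace_of_comm (hcomm j i) φ
  have hind : iSupIndep E := Module.End.independent_iInf_maxGenEigenspace_of_forall_mapsTo f hmaps
  have htopm : ∀ s, ⨆ t, (f s).maxGenEigenspace t = ⊤ := by
    intro s
    rw [eq_top_iff, ← hd s.1 s.2]
    exact iSup_mono fun t => Module.End.eigenspace_le_maxGenEigenspace
  have htop : ⨆ χ, E χ = ⊤ :=
    Module.End.iSup_iInf_maxGenEigenspace_eq_top_of_forall_mapsTo f hmaps htopm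
  have heig : ∀ χ, ∀ x ∈ E χ, ∀ s : S, f s x = χ s • x := by
    intro χ x hx s
    have h1 : x ∈ (f s).maxGenEigenspace (χ s) := (Submodule.mem_iInf _).mp hx s
    have h2 : (f s).maxGenEigenspace (χ s) ≤ (f s).eigenspace (χ s) :=
      eq_of_indep (a := fun t => (f s).eigenspace t) (b := fun t => (f s).maxGenEigenspace t)
        (fun t => Module.End.eigenspace_le_maxGenEigenspace)
        (Module.End.independent_maxGenEigenspace (f s)) (hd s.1 s.2) (χ s)
    exact Module.End.mem_eigenspace_iff.mp (h2 h1)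
  have hfin : Finite {χ : S → K // E χ ≠ ⊥} := WellFoundedGT.finite_ne_bot_of_iSupIndep hind
  have : Fintype {χ : S → K // E χ ≠ ⊥} := Fintype.ofFinite _
  have htop' : ⨆ b : {χ : S → K // E χ ≠ ⊥}, E b.1 = ⊤ := by
    rw [eq_top_iff, ← htop]
    refine iSup_le fun χ => ?_
    by_cases hχ : E χ = ⊥
    · rw [hχ]
      exact bot_le
    · exact le_iSup (fun b : {χ : S → K // E χ ≠ ⊥} => E b.1) ⟨χ, hχ⟩
  obtain ⟨p, hp1, hp2, hp3, hp4, hp5⟩ := joint_proj form (fun b : {χ : S → K // E χ ≠ ⊥} => E b.1)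
    (hind.comp Subtype.val_injective) htop' (by
      intro a b hab x hx y hy
      obtain ⟨s, hs'⟩ : ∃ s, a.1 s ≠ b.1 s := by
        by_contra hcon
        push Not at hcon
        exact hab (Subtype.ext (funext hcon))
      have h1 := hsym s x y
      rw [heig a.1 x hx s, heig b.1 y hy s, map_smul, map_smul, LinearMap.smul_apply, smul_eq_mul,
        smul_eq_mul, ← sub_eq_zero, ← sub_mul] at h1
      exact (mul_eq_zero.mp h1).resolve_left (sub_ne_zero.mpr hs'))
  have halt : ∀ x, form x x = 0 := fun x => by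
    rw [hform]
    exact hJ x
  have hnd : ∀ x, (∀ y, form x y = 0) → x = 0 := by
    intro x hx
    exact (Matrix.nondegenerate_of_det_ne_zero hdet).eq_zero_of_ortho fun y => by
      rw [← hform]
      exact hx y
  obtain ⟨m, e, ff, b, g1, g2, g3, g4, g5, g6⟩ := hD K (I → K) form halt hnd
    {χ : S → K // E χ ≠ ⊥} id p (fun _ => rfl) hp2 hp3 hp4 hp5
  let v : Fin m ⊕ Fin m → (I → K) := Sum.elim e ff
  have hskew : ∀ x y, form x y = - form y x := by
    intro x y
    have h1 := halt (x + y)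
    simp only [map_add, LinearMap.add_apply, halt x, halt y, zero_add, add_zero] at h1
    rw [eq_neg_iff_add_eq_zero, add_comm]
    exact h1
  have hgram : ∀ a c, form (v a) (v c) = om K a c := by
    rintro (i | i) (j | j)
    · exact g4 i j
    · exact g3 i j
    · show form (ff i) (e j) = if i = j then -1 else 0
      rw [hskew, g3 j i]
      by_cases h : i = j
      · rw [if_pos h, if_pos h.symm]
      · rw [if_neg h, if_neg (Ne.symm h), neg_zero]
    · exact g5 i j
  have hv : ∀ a, v a ∈ E (Sum.elim b b a).1 := by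
    rintro (i | i)
    · show e i ∈ E (b i).1
      rw [← g1 i]
      exact hp1 _ _
    · show ff i ∈ E (b i).1
      rw [← g2 i]
      exact hp1 _ _
  have hli : LinearIndependent K v := by
    rw [Fintype.linearIndependent_iff]
    intro c hc' a
    have h1 : form (∑ i, c i • v i) (v a.swap) = 0 := by
      rw [hc', map_zero, LinearMap.zero_apply]
    rw [map_sum, LinearMap.sum_apply, Finset.sum_eq_single a] at h1
    · rw [map_smul, LinearMap.smul_apply, hgram, smul_eq_mul] at h1
      exact (mul_eq_zero.mp h1).resolve_right (om_ne a)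
    · intro a' _ ha'
      rw [map_smul, LinearMap.smul_apply, hgram, om_swap a' a.swap, smul_zero]
      intro h
      exact ha' (Sum.swap_rightInverse.injective h).symm
    · intro h
      exact absurd (Finset.mem_univ a) h
  have hsp : ⊤ ≤ Submodule.span K (Set.range v) := by
    rw [← g6]
    refine Submodule.span_mono ?_
    rintro x (⟨i, rfl⟩ | ⟨i, rfl⟩)
    · exact ⟨Sum.inl i, rfl⟩
    · exact ⟨Sum.inr i, rfl⟩
  let bs : Basis (Fin m ⊕ Fin m) K (I → K) := Basis.mk hli hsp
  have hcard : Fintype.card I = Fintype.card (Fin m ⊕ Fin m) := by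
    rw [← Module.finrank_eq_card_basis bs, Module.finrank_fintype_fun_eq_card]
  let σ : I ≃ Fin m ⊕ Fin m := Fintype.equivOfCardEq hcard
  refine ⟨m, σ, Matrix.of fun i j => v (σ j) i, ?_, ?_, ?_⟩
  · have h1 : LinearIndependent K (Matrix.of fun i j => v (σ j) i).col :=
      hli.comp σ σ.injective
    have h2 := Matrix.linearIndependent_cols_iff_isUnit.mp h1
    exact ((Matrix.isUnit_iff_isUnit_det _).mp h2).ne_zero
  · intro i j
    rw [← hgram, hform, Matrix.mul_assoc]
    rfl
  · intro c hcS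
    refine ⟨fun i => (b i).1 ⟨c, hcS⟩, ?_⟩
    ext i j
    rw [Matrix.mul_diagonal]
    have h1 := congrFun (heig _ _ (hv (σ j)) ⟨c, hcS⟩) i
    have h2 : (c * Matrix.of fun i j => v (σ j) i) i j = (f ⟨c, hcS⟩ (v (σ j))) i := rfl
    rw [h2, h1, Pi.smul_apply, smul_eq_mul, mul_comm]
    have h3 : (Sum.elim b b (σ j)).1 ⟨c, hcS⟩ =
        Sum.elim (fun i => (b i).1 ⟨c, hcS⟩) (fun i => (b i).1 ⟨c, hcS⟩) (σ j) := by
      rcases σ j with k | k <;> rfl
    rw [h3]
    rfl

end Pool.Agent.Lib.MP_640417_ag.Glob
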