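import Pool.Agent.Lib.MP_640417_ag.Glob.Emb

/-!
# MP_640417_ag, Glob, module Class (120 lines): the tensor of an endomorphism of the matrices

`tQ J Q i j u v = (Q (J⁻¹ E_vu) J⁻¹) i j`. Let `Sᵀ J S = μ J`, `S S' = 1 = S' S`. Then `J⁻¹ Sᵀ = μ S' J⁻¹` (from
`Sᵀ J = μ J S'`, i.e. `J⁻¹ Sᵀ J = μ S'`), and `∑_(u' v') S u u' S v v' (J⁻¹ E_v'u') = J⁻¹ Sᵀ E_vu S =
μ S' (J⁻¹ E_vu) S` (entry `(x, y)` of `Sᵀ E_vu S` is `S v x S u y`). So
`act4 S (tQ J Q) i j u v = (S Q(μ S' Y S) J⁻¹ Sᵀ) i j = μ^2 (S Q(S' Y S) S' J⁻¹) i j` with `Y = J⁻¹ E_vu`.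
`act4_tQ` follows if `Q (S' Y S) = S' Q(Y) S`. Conversely `comm_of_act4` (`μ = 1`): cancel `J⁻¹`; the matrices
`J⁻¹ E_vu` span all matrices.
-/

set_option autoImplicit false

namespace Pool.Agent.Lib.MP_640417_ag.Glob

open Matrix

variable {F : Type} [Field F] {I : Type} [Fintype I] [DecidableEq I]

/-- the tensor of an endomorphism of the matrices -/
noncomputable def tQ (J : Matrix I I F) (Q : Matrix I I F →ₗ[F] Matrix I I F) :
    I → I → I → I → F :=
  fun i j u v => (Q (J⁻¹ * Matrix.single v u (1 : F)) * J⁻¹) i j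

private theorem single_expand (S : Matrix I I F) (u v : I) :
    ∑ v', ∑ u', (S v v' * S u u') • Matrix.single v' u' (1 : F) =
      Sᵀ * Matrix.single v u (1 : F) * S := by
  ext a b
  have h1 : (Sᵀ * Matrix.single v u (1 : F) * S) a b = S v a * S u b := by
    rw [Matrix.mul_apply, Finset.sum_eq_single u]
    · rw [Matrix.mul_apply, Finset.sum_eq_single v]
      · simp
      · intro c _ hc
        simp [Matrix.single, Ne.symm hc]
      · intro h
        exact absurd (Finset.mem_univ _) h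
    · intro c _ hc
      rw [Matrix.mul_apply, Finset.sum_eq_zero, zero_mul]
      intro d _
      simp [Matrix.single, Ne.symm hc]
    · intro h
      exact absurd (Finset.mem_univ _) h
  rw [h1, Matrix.sum_apply, Finset.sum_eq_single a]
  · rw [Matrix.sum_apply, Finset.sum_eq_single b]
    · simp
    · intro c _ hc
      simp [Matrix.single, hc]
    · intro h
      exact absurd (Finset.mem_univ _) h
  · intro c _ hc
    rw [Matrix.sum_apply, Finset.sum_eq_zero]
    intro d _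
    simp [Matrix.single, hc]
  · intro h
    exact absurd (Finset.mem_univ _) h

/-- the action on the tensor of an endomorphism -/
private theorem act4_eq (J : Matrix I I F) (Q : Matrix I I F →ₗ[F] Matrix I I F)
    (S : Matrix I I F) (i j u v : I) : act4 S (tQ J Q) i j u v =
      (S * (Q (J⁻¹ * (Sᵀ * Matrix.single v u (1 : F) * S)) * J⁻¹) * Sᵀ) i j := by
  rw [← single_expand]
  have h1 : Q (J⁻¹ * ∑ v', ∑ u', (S v v' * S u u') • Matrix.single v' u' (1 : F)) * J⁻¹ =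
      ∑ v', ∑ u', (S v v' * S u u') • (Q (J⁻¹ * Matrix.single v' u' (1 : F)) * J⁻¹) := by
    simp only [Finset.mul_sum, map_sum, Matrix.mul_smul, map_smul, Finset.sum_mul,
      Matrix.smul_mul]
  rw [h1]
  unfold act4
  rw [Matrix.mul_apply]
  have h2 : ∀ j' : I, (S * ∑ v', ∑ u', (S v v' * S u u') •
      (Q (J⁻¹ * Matrix.single v' u' (1 : F)) * J⁻¹)) i j' * Sᵀ j' j =
      ∑ i', ∑ u', ∑ v', S i i' * S j j' * S u u' * S v v' * tQ J Q i' j' u' v' := by
    intro j'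
    rw [Matrix.mul_apply, Finset.sum_mul]
    refine Finset.sum_congr rfl fun i' _ => ?_
    rw [Matrix.sum_apply, Finset.mul_sum, Finset.sum_mul, Finset.sum_comm]
    refine Finset.sum_congr rfl fun v' _ => ?_
    rw [Matrix.sum_apply, Finset.mul_sum, Finset.sum_mul]
    refine Finset.sum_congr rfl fun u' _ => ?_
    rw [Matrix.smul_apply, Matrix.transpose_apply, smul_eq_mul]
    unfold tQ
    ring
  rw [Finset.sum_congr rfl fun j' _ => h2 j', Finset.sum_comm]

private theorem J_inv {J S S' : Matrix I I F} (hJ : J.det ≠ 0) {μ : F} (h1 : S * S' = 1)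
    (hS : Sᵀ * J * S = μ • J) : J⁻¹ * Sᵀ = μ • (S' * J⁻¹) := by
  have hu : IsUnit J.det := isUnit_iff_ne_zero.mpr hJ
  have h2 : Sᵀ * J = μ • (J * S') := by
    calc Sᵀ * J = Sᵀ * J * (S * S') := by rw [h1, Matrix.mul_one]
      _ = (Sᵀ * J * S) * S' := by rw [Matrix.mul_assoc (Sᵀ * J) S S']
      _ = μ • (J * S') := by rw [hS, Matrix.smul_mul]
  calc J⁻¹ * Sᵀ = J⁻¹ * (Sᵀ * J) * J⁻¹ := by
        rw [Matrix.mul_assoc, Matrix.mul_assoc, Matrix.mul_nonsing_inv _ hu, Matrix.mul_one]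
    _ = μ • (S' * J⁻¹) := by
        rw [h2, Matrix.mul_smul, Matrix.smul_mul, ← Matrix.mul_assoc,
          Matrix.nonsing_inv_mul _ hu, Matrix.one_mul]

theorem act4_tQ (J : Matrix I I F) (hJ : J.det ≠ 0) (Q : Matrix I I F →ₗ[F] Matrix I I F)
    (S S' : Matrix I I F) (μ : F) (h1 : S * S' = 1) (h2 : S' * S = 1) (hS : Sᵀ * J * S = μ • J)
    (hQ : ∀ Y, Q (S' * Y * S) = S' * Q Y * S) :
    act4 S (tQ J Q) = fun i j u v => μ ^ 2 * tQ J Q i j u v := by
  have h3 := J_inv hJ h1 hS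
  funext i j u v
  rw [act4_eq]
  have h4 : J⁻¹ * (Sᵀ * Matrix.single v u (1 : F) * S) =
      μ • (S' * (J⁻¹ * Matrix.single v u (1 : F)) * S) := by
    rw [← Matrix.mul_assoc, ← Matrix.mul_assoc, h3]
    simp only [Matrix.smul_mul, Matrix.mul_assoc]
  rw [h4, map_smul, hQ]
  have h5 : S * (μ • (S' * Q (J⁻¹ * Matrix.single v u (1 : F)) * S) * J⁻¹) * Sᵀ =
      μ ^ 2 • (Q (J⁻¹ * Matrix.single v u (1 : F)) * J⁻¹) := by
    set Y := Q (J⁻¹ * Matrix.single v u (1 : F))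
    calc S * (μ • (S' * Y * S) * J⁻¹) * Sᵀ = μ • ((S * S') * Y * S * (J⁻¹ * Sᵀ)) := by
          simp only [Matrix.smul_mul, Matrix.mul_smul, Matrix.mul_assoc]
      _ = μ • (Y * S * (μ • (S' * J⁻¹))) := by rw [h1, Matrix.one_mul, h3]
      _ = μ ^ 2 • (Y * (S * S') * J⁻¹) := by
          simp only [Matrix.mul_smul, smul_smul, Matrix.mul_assoc, sq]
      _ = μ ^ 2 • (Y * J⁻¹) := by rw [h1, Matrix.mul_one]
  rw [h5, Matrix.smul_apply, smul_eq_mul]
  rfl

theorem comm_of_act4 (J : Matrix I I F) (hJ : J.det ≠ 0) (Q : Matrix I I F →ₗ[F] Matrix I I F)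
    (S S' : Matrix I I F) (h1 : S * S' = 1) (h2 : S' * S = 1) (hS : Sᵀ * J * S = J)
    (h : act4 S (tQ J Q) = tQ J Q) (Y : Matrix I I F) : Q (S' * Y * S) = S' * Q Y * S := by
  have hu : IsUnit J.det := isUnit_iff_ne_zero.mpr hJ
  have h3 := J_inv (μ := 1) hJ h1 (by rw [hS, one_smul])
  rw [one_smul] at h3
  -- the case of the matrices `J⁻¹ E_vu`
  have h4 : ∀ v u : I, Q (S' * (J⁻¹ * Matrix.single v u (1 : F)) * S) =
      S' * Q (J⁻¹ * Matrix.single v u (1 : F)) * S := by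
    intro v u
    have e1 : S * (Q (J⁻¹ * (Sᵀ * Matrix.single v u (1 : F) * S)) * J⁻¹) * Sᵀ =
        Q (J⁻¹ * Matrix.single v u (1 : F)) * J⁻¹ := by
      ext i j
      rw [← act4_eq, h]
      rfl
    have e2 : J⁻¹ * (Sᵀ * Matrix.single v u (1 : F) * S) =
        S' * (J⁻¹ * Matrix.single v u (1 : F)) * S := by
      rw [← Matrix.mul_assoc, ← Matrix.mul_assoc, h3]
      simp only [Matrix.mul_assoc]
    rw [e2] at e1
    set Z := Q (S' * (J⁻¹ * Matrix.single v u (1 : F)) * S)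
    set Y := Q (J⁻¹ * Matrix.single v u (1 : F))
    have e3 : S * Z * S' * J⁻¹ = Y * J⁻¹ := by
      calc S * Z * S' * J⁻¹ = S * Z * (J⁻¹ * Sᵀ) := by rw [h3, Matrix.mul_assoc (S * Z)]
        _ = S * (Z * J⁻¹) * Sᵀ := by simp only [Matrix.mul_assoc]
        _ = Y * J⁻¹ := e1
    have e4 : S * Z * S' = Y := by
      have := congrArg (· * J) e3
      simp only [Matrix.mul_assoc, Matrix.nonsing_inv_mul _ hu, Matrix.mul_one] at this
      rw [← this]
      simp only [Matrix.mul_assoc]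
    calc Z = (S' * S) * Z * (S' * S) := by rw [h2, Matrix.one_mul, Matrix.mul_one]
      _ = S' * (S * Z * S') * S := by simp only [Matrix.mul_assoc]
      _ = S' * Y * S := by rw [e4]
  have h5 : Y = ∑ v, ∑ u, ((J * Y) v u) • (J⁻¹ * Matrix.single v u (1 : F)) := by
    have e1 : J * Y = ∑ v, ∑ u, ((J * Y) v u) • Matrix.single v u (1 : F) := by
      conv_lhs => rw [Matrix.matrix_eq_sum_single (J * Y)]
      simp only [Matrix.smul_single, smul_eq_mul, mul_one]
    have e2 : Y = J⁻¹ * (J * Y) := by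
      rw [← Matrix.mul_assoc, Matrix.nonsing_inv_mul _ hu, Matrix.one_mul]
    conv_lhs => rw [e2, e1]
    simp only [Finset.mul_sum, Matrix.mul_smul]
  rw [h5]
  simp only [Finset.mul_sum, Finset.sum_mul, Matrix.mul_smul, Matrix.smul_mul, map_sum, map_smul,
    h4]

end Pool.Agent.Lib.MP_640417_ag.Glob
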