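import Mathlib

/-!
# MP_640417_ag, Glob, module Proj (80 lines): the orthogonal projection

`H` a subspace of the matrices on which the trace form is nondegenerate. For every `Y` there is a unique
`p Y ∈ H` with `tr ((p Y) X) = tr (Y X)` for all `X ∈ H` (the map `H → Dual H`, `X ↦ tr (X ·)`, is injective, so
bijective). `p` is linear, `p X = X` on `H`. If `H` is stable under `Y ↦ g Y g'` with `g g' = 1` for both `g` and
its inverse `g'`: `tr (g (p Y) g' X) = tr ((p Y) (g' X g)) = tr (Y g' X g) = tr (g Y g' X)`, so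
`p (g Y g') = g (p Y) g'` by uniqueness.
-/

set_option autoImplicit false

namespace Pool.Agent.Lib.MP_640417_ag.Glob

open Matrix

variable {F : Type} [Field F] {I : Type} [Fintype I] [DecidableEq I]

/-- `Y ↦ tr (Y ·)` on `H` -/
private def trMap (H : Submodule F (Matrix I I F)) :
    Matrix I I F →ₗ[F] (H →ₗ[F] F) where
  toFun Y :=
    { toFun := fun X => (Y * (X : Matrix I I F)).trace
      map_add' := by
        intro A B
        rw [Submodule.coe_add, Matrix.mul_add, Matrix.trace_add]
      map_smul' := by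
        intro c A
        rw [Submodule.coe_smul, Matrix.mul_smul, Matrix.trace_smul]
        rfl }
  map_add' := by
    intro A B
    ext X
    show ((A + B) * (X : Matrix I I F)).trace = (A * (X : Matrix I I F)).trace +
      (B * (X : Matrix I I F)).trace
    rw [Matrix.add_mul, Matrix.trace_add]
  map_smul' := by
    intro c A
    ext X
    show ((c • A) * (X : Matrix I I F)).trace = c • (A * (X : Matrix I I F)).trace
    rw [Matrix.smul_mul, Matrix.trace_smul]

theorem exists_proj (H : Submodule F (Matrix I I F))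
    (hH : ∀ X ∈ H, (∀ Y ∈ H, (X * Y).trace = 0) → X = 0) :
    ∃ p : Matrix I I F →ₗ[F] Matrix I I F, (∀ Y, p Y ∈ H) ∧ (∀ X ∈ H, p X = X) ∧
      (∀ Y, ∀ X ∈ H, (p Y * X).trace = (Y * X).trace) ∧
      ∀ g g' : Matrix I I F, g * g' = 1 → g' * g = 1 → (∀ X ∈ H, g * X * g' ∈ H) →
        (∀ X ∈ H, g' * X * g ∈ H) → ∀ Y, p (g * Y * g') = g * p Y * g' := by
  have hinj : Function.Injective ((trMap H).comp H.subtype) := by
    rw [injective_iff_map_eq_zero]
    intro X hX
    apply Subtype.ext
    apply hH X.1 X.2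
    intro Y hY
    exact LinearMap.congr_fun hX ⟨Y, hY⟩
  have hfr : Module.finrank F H = Module.finrank F (H →ₗ[F] F) :=
    (Subspace.dual_finrank_eq (K := F) (V := H)).symm
  let e : H ≃ₗ[F] (H →ₗ[F] F) :=
    LinearEquiv.ofBijective ((trMap H).comp H.subtype)
      ⟨hinj, (LinearMap.injective_iff_surjective_of_finrank_eq_finrank hfr).mp hinj⟩
  let p : Matrix I I F →ₗ[F] Matrix I I F :=
    H.subtype.comp ((e.symm : (H →ₗ[F] F) →ₗ[F] H).comp (trMap H))
  have hpH : ∀ Y, p Y ∈ H := fun Y => (e.symm (trMap H Y)).2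
  have hptr : ∀ Y, ∀ X ∈ H, (p Y * X).trace = (Y * X).trace := by
    intro Y X hX
    have h1 : e (e.symm (trMap H Y)) = trMap H Y := e.apply_symm_apply _
    exact LinearMap.congr_fun h1 ⟨X, hX⟩
  have huniq : ∀ A B : Matrix I I F, A ∈ H → B ∈ H →
      (∀ X ∈ H, (A * X).trace = (B * X).trace) → A = B := by
    intro A B hA hB hAB
    apply sub_eq_zero.mp
    apply hH _ (Submodule.sub_mem _ hA hB)
    intro Y hY
    rw [Matrix.sub_mul, Matrix.trace_sub, hAB Y hY, sub_self]
  refine ⟨p, hpH, ?_, hptr, ?_⟩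
  · intro X hX
    exact huniq _ _ (hpH X) hX (hptr X)
  · intro g g' hgg hg'g hst hst' Y
    apply huniq _ _ (hpH _) (hst _ (hpH Y))
    intro X hX
    rw [hptr _ X hX]
    have h1 : ∀ Z : Matrix I I F, (g * Z * g' * X).trace = (Z * (g' * X * g)).trace := by
      intro Z
      rw [Matrix.mul_assoc, Matrix.mul_assoc, Matrix.trace_mul_comm]
      simp only [Matrix.mul_assoc]
    rw [h1, h1, hptr Y _ (hst' X hX)]

end Pool.Agent.Lib.MP_640417_ag.Glob
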