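import Pool.Agent.Lib.MP_640417_ag.Glob.Defs

/-!
# MP_640417_ag, Glob, module KFour (120 lines): the fourth tensor power

* `k4_mul`: sums of products over `I × I × I × I` (`Fintype.sum_prod_type`, `Finset.sum_mul_sum`); `k4_pow` by induction.
* `d4_mul_k4`: `d4 (X) k4 (P) = k4 (P) d4 (Y)` if `X P = P Y` (each of the four summands is a `k4`-like product of four
  matrices; a general lemma about the products of `of fun x y => a x.1 y.1 * b x.2.1 y.2.1 * ..` is useful).
-/

set_option autoImplicit false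

namespace Pool.Agent.Lib.MP_640417_ag.Glob

open Matrix Polynomial

section

variable {R : Type} [CommRing R] {I : Type} [Fintype I] [DecidableEq I]

/-- the tensor product of four matrices -/
private def q4 (a b c d : Matrix I I R) : Matrix (I × I × I × I) (I × I × I × I) R :=
  Matrix.of fun x y => a x.1 y.1 * b x.2.1 y.2.1 * c x.2.2.1 y.2.2.1 * d x.2.2.2 y.2.2.2

private theorem q4_mul (a b c d a' b' c' d' : Matrix I I R) :
    q4 a b c d * q4 a' b' c' d' = q4 (a * a') (b * b') (c * c') (d * d') := by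
  ext x y
  rw [Matrix.mul_apply, Fintype.sum_prod_type]
  simp_rw [Fintype.sum_prod_type]
  have key : ∀ i j k : I, ∑ l, q4 a b c d x (i, j, k, l) * q4 a' b' c' d' (i, j, k, l) y =
      (a x.1 i * a' i y.1) * (b x.2.1 j * b' j y.2.1) * (c x.2.2.1 k * c' k y.2.2.1) *
        ∑ l, d x.2.2.2 l * d' l y.2.2.2 := by
    intro i j k
    rw [Finset.mul_sum]
    apply Finset.sum_congr rfl
    intro l _
    show (a x.1 i * b x.2.1 j * c x.2.2.1 k * d x.2.2.2 l) *
      (a' i y.1 * b' j y.2.1 * c' k y.2.2.1 * d' l y.2.2.2) = _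
    ring
  simp_rw [key, ← Finset.sum_mul, ← Finset.mul_sum, ← Finset.sum_mul]
  show _ = (a * a') x.1 y.1 * (b * b') x.2.1 y.2.1 * (c * c') x.2.2.1 y.2.2.1 *
    (d * d') x.2.2.2 y.2.2.2
  rw [Matrix.mul_apply, Matrix.mul_apply, Matrix.mul_apply, Matrix.mul_apply,
    Finset.sum_mul_sum Finset.univ Finset.univ (fun j => a x.1 j * a' j y.1)
      (fun j => b x.2.1 j * b' j y.2.1)]

private theorem k4_eq (a : Matrix I I R) : k4 a = q4 a a a a := rfl

private theorem d4_eq (X : Matrix I I R) :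
    d4 X = q4 X 1 1 1 + q4 1 X 1 1 + q4 1 1 X 1 + q4 1 1 1 X := rfl

theorem k4_mul (a b : Matrix I I R) : k4 (a * b) = k4 a * k4 b := by
  rw [k4_eq, k4_eq, k4_eq, q4_mul]

private theorem q4_diag (z₁ z₂ z₃ z₄ : I → R) :
    q4 (Matrix.diagonal z₁) (Matrix.diagonal z₂) (Matrix.diagonal z₃) (Matrix.diagonal z₄) =
      Matrix.diagonal fun x => z₁ x.1 * z₂ x.2.1 * z₃ x.2.2.1 * z₄ x.2.2.2 := by
  ext ⟨x1, x2, x3, x4⟩ ⟨y1, y2, y3, y4⟩
  show Matrix.diagonal z₁ x1 y1 * Matrix.diagonal z₂ x2 y2 * Matrix.diagonal z₃ x3 y3 *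
    Matrix.diagonal z₄ x4 y4 = _
  by_cases h1 : x1 = y1
  · by_cases h2 : x2 = y2
    · by_cases h3 : x3 = y3
      · by_cases h4 : x4 = y4
        · subst h1 h2 h3 h4
          simp
        · rw [Matrix.diagonal_apply_ne _ h4, mul_zero, Matrix.diagonal_apply_ne]
          intro he
          exact h4 (by simpa using (congrArg (fun w => w.2.2.2) he))
      · rw [Matrix.diagonal_apply_ne _ h3, mul_zero, zero_mul, Matrix.diagonal_apply_ne]
        intro he
        exact h3 (by simpa using (congrArg (fun w => w.2.2.1) he))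
    · rw [Matrix.diagonal_apply_ne _ h2, mul_zero, zero_mul, zero_mul, Matrix.diagonal_apply_ne]
      intro he
      exact h2 (by simpa using (congrArg (fun w => w.2.1) he))
  · rw [Matrix.diagonal_apply_ne _ h1, zero_mul, zero_mul, zero_mul, Matrix.diagonal_apply_ne]
    intro he
    exact h1 (by simpa using (congrArg (fun w => w.1) he))

private theorem one_diag : (1 : Matrix I I R) = Matrix.diagonal fun _ => 1 := by
  rw [Matrix.diagonal_one]

theorem k4_one : k4 (1 : Matrix I I R) = 1 := by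
  rw [k4_eq, one_diag, q4_diag]
  ext x y
  by_cases h : x = y
  · subst h
    simp
  · rw [Matrix.diagonal_apply_ne _ h, Matrix.one_apply_ne h]

theorem k4_pow (a : Matrix I I R) (n : ℕ) : k4 (a ^ n) = k4 a ^ n := by
  induction n with
  | zero => rw [pow_zero, pow_zero, k4_one]
  | succ n ih => rw [pow_succ, pow_succ, k4_mul, ih]

theorem k4_diag (z : I → R) :
    k4 (Matrix.diagonal z) = Matrix.diagonal fun x => z x.1 * z x.2.1 * z x.2.2.1 * z x.2.2.2 := by
  rw [k4_eq, q4_diag]

theorem d4_diag (z : I → R) :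
    d4 (Matrix.diagonal z) = Matrix.diagonal fun x => z x.1 + z x.2.1 + z x.2.2.1 + z x.2.2.2 := by
  rw [d4_eq, one_diag, q4_diag, q4_diag, q4_diag, q4_diag, Matrix.diagonal_add,
    Matrix.diagonal_add, Matrix.diagonal_add]
  congr 1
  funext x
  ring

theorem d4_add (a b : Matrix I I R) : d4 (a + b) = d4 a + d4 b := by
  ext x y
  simp only [d4, Matrix.of_apply, Matrix.add_apply]
  ring

theorem d4_smul (c : R) (a : Matrix I I R) : d4 (c • a) = c • d4 a := by
  ext x y
  simp only [d4, Matrix.of_apply, Matrix.smul_apply, smul_eq_mul]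
  ring

theorem d4_one : d4 (1 : Matrix I I R) = (4 : R) • (1 : Matrix (I × I × I × I) (I × I × I × I) R) := by
  rw [one_diag, d4_diag]
  ext x y
  by_cases h : x = y
  · subst h
    rw [Matrix.diagonal_apply_eq, Matrix.smul_apply, Matrix.one_apply_eq, smul_eq_mul]
    norm_num
  · rw [Matrix.diagonal_apply_ne _ h, Matrix.smul_apply, Matrix.one_apply_ne h, smul_zero]

theorem d4_mul_k4 {X P Y : Matrix I I R} (h : X * P = P * Y) : d4 X * k4 P = k4 P * d4 Y := by
  rw [d4_eq, d4_eq, k4_eq]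
  simp only [Matrix.add_mul, Matrix.mul_add, q4_mul, Matrix.one_mul, Matrix.mul_one, h]

end

end Pool.Agent.Lib.MP_640417_ag.Glob
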