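import Pool.Agent.Lib.MP_640417_ag.Glob.Root
import Pool.Agent.Lib.MP_640417_ag.Glob.KFour

/-!
# MP_640417_ag, Glob, module Lim (180 lines): limits of powers near 1

Everything is a sequence indexed by `j`; `k j → ∞`, `c j = l^(k j)`.
* `lim_pow`: `a j - 1 = l^(k j) B j`, `B j → A`, so the entries of `B j` are bounded by some `b`, those of `a j - 1` by
  `r j = ‖l‖^(k j) b`; for large `j` `r j ≤ ‖l‖`, and by `pow_uniform`
  `‖(N l^k)⁻¹ (a^N - 1) - B‖ ≤ (r j)^2 / (‖l‖ ‖l‖^(k j)) = ‖l‖^(k j) b^2 / ‖l‖ → 0`.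
* `lim_k4`: entries: `x y z w - x' y' z' w'` with `x', .. ∈ {0, 1}` the entries of `1`:
  `= (x - x') y z w + x' (y - y') z w + x' y' (z - z') w + x' y' z' (w - w')`, divide by `c j`.
* `lim_mult`: entry by entry (some entry of `J` is not zero since `I` is nonempty and `det J ≠ 0`):
  with `b = 1 + c B`, `bᵀ J b = m J`: `c⁻¹ (m - 1) J = Bᵀ J + J B + c Bᵀ J B → Aᵀ J + J A = t J`.
* `lim_inv_sq`: `c⁻¹ (m^(-2) - 1) = - m^(-2) (m + 1) c⁻¹ (m - 1) → - 2 t`, as `m → 1`.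
* `lim_E`: `c⁻¹ (m^(-2) k4 b - 1) = m^(-2) c⁻¹ (k4 b - 1) + c⁻¹ (m^(-2) - 1)`, limit `d4 A - 2 t`, and
  `d4 (A - (t/2)) = d4 A - 2 t` (`d4_one`, `d4_smul`, `d4_add`).
-/

set_option autoImplicit false

namespace Pool.Agent.Lib.MP_640417_ag.Glob

open Filter Topology Matrix

variable {F : Type} [NontriviallyNormedField F] [IsUltrametricDist F] [CharZero F] {I : Type}
  [Fintype I] [DecidableEq I]

omit [IsUltrametricDist F] [CharZero F] in
private theorem tend_entry {κ : Type} {f : ℕ → Matrix κ κ F} {A : Matrix κ κ F}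
    (h : Tendsto f atTop (𝓝 A)) (x y : κ) : Tendsto (fun j => f j x y) atTop (𝓝 (A x y)) := by
  have h1 := (tendsto_pi_nhds.mp h) x
  exact (tendsto_pi_nhds.mp h1) y

omit [IsUltrametricDist F] [CharZero F] in
private theorem tend_matrix {κ : Type} {f : ℕ → Matrix κ κ F} {A : Matrix κ κ F}
    (h : ∀ x y, Tendsto (fun j => f j x y) atTop (𝓝 (A x y))) : Tendsto f atTop (𝓝 A) :=
  tendsto_pi_nhds.mpr fun x => tendsto_pi_nhds.mpr fun y => h x y

omit [IsUltrametricDist F] [CharZero F] [DecidableEq I] in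
private theorem eventually_Sm {f : ℕ → Matrix I I F} {A : Matrix I I F}
    (h : Tendsto f atTop (𝓝 A)) : ∃ b : ℝ, 0 ≤ b ∧ ∀ᶠ j in atTop, Sm b (f j) := by
  refine ⟨∑ x, ∑ y, (‖A x y‖ + 1), Finset.sum_nonneg fun x _ => Finset.sum_nonneg fun y _ =>
    by positivity, ?_⟩
  unfold Sm
  rw [eventually_all]
  intro x
  rw [eventually_all]
  intro y
  have h1 := (tend_entry h x y).norm
  filter_upwards [h1.eventually_lt_const (lt_add_one _)] with j hj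
  refine hj.le.trans ?_
  have h2 : ‖A x y‖ + 1 ≤ ∑ y, (‖A x y‖ + 1) :=
    Finset.single_le_sum (f := fun y => ‖A x y‖ + 1) (fun z _ => by positivity) (Finset.mem_univ y)
  have h3 : ∑ y, (‖A x y‖ + 1) ≤ ∑ x, ∑ y, (‖A x y‖ + 1) :=
    Finset.single_le_sum (f := fun x => ∑ y, (‖A x y‖ + 1))
      (fun z _ => Finset.sum_nonneg fun _ _ => by positivity) (Finset.mem_univ x)
  exact h2.trans h3

theorem lim_pow (l : ℕ) [Fact l.Prime] (hl : ‖(l : F)‖ < 1) (a : ℕ → Matrix I I F) (k N : ℕ → ℕ)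
    (hk : Tendsto k atTop atTop) (hN : ∀ j, 0 < N j) (A : Matrix I I F)
    (h : Tendsto (fun j => ((l : F) ^ k j)⁻¹ • (a j - 1)) atTop (𝓝 A)) :
    Tendsto (fun j => ((N j : F) * (l : F) ^ k j)⁻¹ • (a j ^ N j - 1)) atTop (𝓝 A) := by
  have hl0 : (l : F) ≠ 0 := Nat.cast_ne_zero.mpr (Fact.out (p := l.Prime)).ne_zero
  have hln : 0 < ‖(l : F)‖ := norm_pos_iff.mpr hl0
  obtain ⟨b, hb0, hb⟩ := eventually_Sm h
  have hpow : Tendsto (fun j => ‖(l : F)‖ ^ k j) atTop (𝓝 0) :=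
    (tendsto_pow_atTop_nhds_zero_of_lt_one (norm_nonneg _) hl).comp hk
  have hr : Tendsto (fun j => ‖(l : F)‖ ^ k j * b) atTop (𝓝 0) := by
    have := hpow.mul_const b
    rwa [zero_mul] at this
  have hev : ∀ᶠ j in atTop, ‖(l : F)‖ ^ k j * b < ‖(l : F)‖ := hr.eventually_lt_const hln
  apply tend_matrix
  intro x y
  have h1 : Tendsto (fun j => (((N j : F) * (l : F) ^ k j)⁻¹ • (a j ^ N j - 1)) x y -
      (((l : F) ^ k j)⁻¹ • (a j - 1)) x y) atTop (𝓝 0) := by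
    have h2 : Tendsto (fun j => ‖(l : F)‖ ^ k j * (b ^ 2 / ‖(l : F)‖)) atTop (𝓝 0) := by
      have := hpow.mul_const (b ^ 2 / ‖(l : F)‖)
      rwa [zero_mul] at this
    refine squeeze_zero_norm' ?_ h2
    filter_upwards [hb, hev] with j hj1 hj2
    have hlk : (l : F) ^ k j ≠ 0 := pow_ne_zero _ hl0
    have hNj : (N j : F) ≠ 0 := Nat.cast_ne_zero.mpr (hN j).ne'
    have h3 : a j - 1 = (l : F) ^ k j • (((l : F) ^ k j)⁻¹ • (a j - 1)) := by
      rw [smul_smul, mul_inv_cancel₀ hlk, one_smul]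
    have h4 : Sm (‖(l : F)‖ ^ k j * b) (a j - 1) := by
      rw [h3]
      have := Sm_smul ((l : F) ^ k j) hj1
      rwa [norm_pow] at this
    have h5 := pow_uniform l hl (by positivity) hj2.le h4 (N j) (hN j)
    have h6 := Sm_smul ((l : F) ^ k j)⁻¹ h5 x y
    have h7 : (((N j : F) * (l : F) ^ k j)⁻¹ • (a j ^ N j - 1)) x y -
        (((l : F) ^ k j)⁻¹ • (a j - 1)) x y =
        (((l : F) ^ k j)⁻¹ • ((N j : F)⁻¹ • (a j ^ N j - 1) - (a j - 1))) x y := by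
      simp only [Matrix.smul_apply, Matrix.sub_apply, smul_eq_mul, _root_.mul_inv_rev]
      ring
    rw [h7]
    refine h6.trans (le_of_eq ?_)
    rw [norm_inv, norm_pow]
    have h8 : ‖(l : F)‖ ^ k j ≠ 0 := by positivity
    field_simp
  have h2 := h1.add (tend_entry h x y)
  rw [zero_add] at h2
  refine h2.congr fun j => ?_
  rw [sub_add_cancel]

omit [IsUltrametricDist F] [CharZero F] in
private theorem b_tendsto {κ : Type} [Fintype κ] [DecidableEq κ] (b : ℕ → Matrix κ κ F) (c : ℕ → F)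
    (hc : Tendsto c atTop (𝓝 0)) (hc0 : ∀ j, c j ≠ 0) (A : Matrix κ κ F)
    (h : Tendsto (fun j => (c j)⁻¹ • (b j - 1)) atTop (𝓝 A)) : Tendsto b atTop (𝓝 1) := by
  have h1 := (hc.smul h).add_const 1
  rw [zero_smul, zero_add] at h1
  refine h1.congr fun j => ?_
  rw [smul_smul, mul_inv_cancel₀ (hc0 j), one_smul, sub_add_cancel]

theorem lim_k4 (b : ℕ → Matrix I I F) (c : ℕ → F) (hc : Tendsto c atTop (𝓝 0))
    (hc0 : ∀ j, c j ≠ 0) (A : Matrix I I F)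
    (h : Tendsto (fun j => (c j)⁻¹ • (b j - 1)) atTop (𝓝 A)) :
    Tendsto (fun j => (c j)⁻¹ • (k4 (b j) - 1)) atTop (𝓝 (d4 A)) := by
  have hb := b_tendsto b c hc hc0 A h
  apply tend_matrix
  intro x y
  have hB : ∀ u v : I, Tendsto (fun j => b j u v) atTop (𝓝 ((1 : Matrix I I F) u v)) :=
    fun u v => tend_entry hb u v
  have hD : ∀ u v : I, Tendsto (fun j => (c j)⁻¹ * (b j u v - (1 : Matrix I I F) u v)) atTop
      (𝓝 (A u v)) := fun u v => tend_entry h u v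
  have h1 : Tendsto (fun j =>
      (c j)⁻¹ * (b j x.1 y.1 - (1 : Matrix I I F) x.1 y.1) * b j x.2.1 y.2.1 *
        b j x.2.2.1 y.2.2.1 * b j x.2.2.2 y.2.2.2 +
      (1 : Matrix I I F) x.1 y.1 * ((c j)⁻¹ * (b j x.2.1 y.2.1 - (1 : Matrix I I F) x.2.1 y.2.1)) *
        b j x.2.2.1 y.2.2.1 * b j x.2.2.2 y.2.2.2 +
      (1 : Matrix I I F) x.1 y.1 * (1 : Matrix I I F) x.2.1 y.2.1 *
        ((c j)⁻¹ * (b j x.2.2.1 y.2.2.1 - (1 : Matrix I I F) x.2.2.1 y.2.2.1)) *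
        b j x.2.2.2 y.2.2.2 +
      (1 : Matrix I I F) x.1 y.1 * (1 : Matrix I I F) x.2.1 y.2.1 *
        (1 : Matrix I I F) x.2.2.1 y.2.2.1 *
        ((c j)⁻¹ * (b j x.2.2.2 y.2.2.2 - (1 : Matrix I I F) x.2.2.2 y.2.2.2))) atTop
      (𝓝 (d4 A x y)) := by
    have e1 := (((hD x.1 y.1).mul (hB x.2.1 y.2.1)).mul (hB x.2.2.1 y.2.2.1)).mul
      (hB x.2.2.2 y.2.2.2)
    have e2 := (((hD x.2.1 y.2.1).const_mul ((1 : Matrix I I F) x.1 y.1)).mul
      (hB x.2.2.1 y.2.2.1)).mul (hB x.2.2.2 y.2.2.2)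
    have e3 := ((hD x.2.2.1 y.2.2.1).const_mul ((1 : Matrix I I F) x.1 y.1 *
      (1 : Matrix I I F) x.2.1 y.2.1)).mul (hB x.2.2.2 y.2.2.2)
    have e4 := (hD x.2.2.2 y.2.2.2).const_mul ((1 : Matrix I I F) x.1 y.1 *
      (1 : Matrix I I F) x.2.1 y.2.1 * (1 : Matrix I I F) x.2.2.1 y.2.2.1)
    exact ((e1.add e2).add e3).add e4
  refine h1.congr fun j => ?_
  have h2 : ((c j)⁻¹ • (k4 (b j) - 1)) x y = (c j)⁻¹ * (k4 (b j) x y - k4 (1 : Matrix I I F) x y) := by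
    rw [k4_one]
    rfl
  rw [h2]
  unfold k4
  simp only [Matrix.of_apply]
  ring

theorem lim_mult [Nonempty I] (J : Matrix I I F) (hJ : J.det ≠ 0) (b : ℕ → Matrix I I F)
    (c m : ℕ → F) (hc : Tendsto c atTop (𝓝 0)) (hc0 : ∀ j, c j ≠ 0)
    (hb : ∀ j, (b j)ᵀ * J * b j = m j • J) (A : Matrix I I F) (t : F)
    (hA : Aᵀ * J + J * A = t • J)
    (h : Tendsto (fun j => (c j)⁻¹ • (b j - 1)) atTop (𝓝 A)) :
    Tendsto (fun j => (c j)⁻¹ * (m j - 1)) atTop (𝓝 t) := by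
  obtain ⟨x, y, hxy⟩ : ∃ x y, J x y ≠ 0 := by
    by_contra hno
    push Not at hno
    apply hJ
    have : J = 0 := by
      ext x y
      exact hno x y
    rw [this, Matrix.det_zero]
  obtain ⟨D, hDdef⟩ : ∃ D : ℕ → Matrix I I F, D = fun j => (c j)⁻¹ • (b j - 1) := ⟨_, rfl⟩
  rw [← hDdef] at h
  have hbD : ∀ j, b j = 1 + c j • D j := by
    intro j
    rw [hDdef]
    show b j = 1 + c j • ((c j)⁻¹ • (b j - 1))
    rw [smul_smul, mul_inv_cancel₀ (hc0 j), one_smul, add_sub_cancel]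
  clear hDdef
  have hcT : Continuous fun X : Matrix I I F => Xᵀ := continuous_id.matrix_transpose
  have hT : Tendsto (fun j => (D j)ᵀ) atTop (𝓝 Aᵀ) := (hcT.tendsto A).comp h
  have h1 : Tendsto (fun j => (D j)ᵀ * J + J * D j + c j • ((D j)ᵀ * J * D j)) atTop
      (𝓝 (Aᵀ * J + J * A + (0 : F) • (Aᵀ * J * A))) := by
    have e1 := hT.mul_const J
    have e2 := h.const_mul J
    exact (e1.add e2).add (hc.smul (e1.mul h))
  rw [zero_smul, add_zero, hA] at h1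
  have h2 := tend_entry h1 x y
  have h3 : ∀ j, ((D j)ᵀ * J + J * D j + c j • ((D j)ᵀ * J * D j)) x y =
      (c j)⁻¹ * (m j - 1) * J x y := by
    intro j
    have h4 : c j • ((D j)ᵀ * J + J * D j + c j • ((D j)ᵀ * J * D j)) = (m j - 1) • J := by
      rw [sub_smul, one_smul, ← hb j, hbD j, Matrix.transpose_add, Matrix.transpose_one,
        Matrix.transpose_smul]
      simp only [Matrix.add_mul, Matrix.mul_add, Matrix.one_mul, Matrix.mul_one, Matrix.smul_mul,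
        Matrix.mul_smul, smul_add]
      abel
    have h5 : (D j)ᵀ * J + J * D j + c j • ((D j)ᵀ * J * D j) = (c j)⁻¹ • ((m j - 1) • J) := by
      rw [← h4, smul_smul, inv_mul_cancel₀ (hc0 j), one_smul]
    rw [h5, Matrix.smul_apply, Matrix.smul_apply, smul_eq_mul, smul_eq_mul]
    ring
  have h4 := (h2.congr h3).mul_const (J x y)⁻¹
  rw [Matrix.smul_apply, smul_eq_mul, mul_assoc, mul_inv_cancel₀ hxy, mul_one] at h4
  refine h4.congr fun j => ?_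
  rw [mul_assoc, mul_inv_cancel₀ hxy, mul_one]

omit [IsUltrametricDist F] [CharZero F] in
private theorem m_tendsto (c m : ℕ → F) (hc : Tendsto c atTop (𝓝 0)) (hc0 : ∀ j, c j ≠ 0)
    (t : F) (h : Tendsto (fun j => (c j)⁻¹ * (m j - 1)) atTop (𝓝 t)) :
    Tendsto m atTop (𝓝 1) := by
  have h1 := (hc.mul h).add_const 1
  rw [zero_mul, zero_add] at h1
  refine h1.congr fun j => ?_
  rw [← mul_assoc, mul_inv_cancel₀ (hc0 j), one_mul, sub_add_cancel]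

theorem lim_inv_sq (c m : ℕ → F) (hc : Tendsto c atTop (𝓝 0)) (hc0 : ∀ j, c j ≠ 0)
    (hm : ∀ j, m j ≠ 0) (t : F) (h : Tendsto (fun j => (c j)⁻¹ * (m j - 1)) atTop (𝓝 t)) :
    Tendsto (fun j => (c j)⁻¹ * ((m j ^ 2)⁻¹ - 1)) atTop (𝓝 (-2 * t)) := by
  have hm1 := m_tendsto c m hc hc0 t h
  have h1 : Tendsto (fun j => -((m j ^ 2)⁻¹ * (m j + 1)) * ((c j)⁻¹ * (m j - 1))) atTop
      (𝓝 (-((1 ^ 2)⁻¹ * (1 + 1)) * t)) := by
    refine Tendsto.mul ?_ h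
    refine Tendsto.neg ?_
    refine Tendsto.mul ?_ (hm1.add_const 1)
    exact (hm1.pow 2).inv₀ (by norm_num)
  have h2 : -((1 ^ 2)⁻¹ * (1 + 1)) * t = -2 * t := by norm_num
  rw [h2] at h1
  refine h1.congr fun j => ?_
  have h3 := hm j
  have h4 := hc0 j
  field_simp
  ring

theorem lim_E [Nonempty I] (J : Matrix I I F) (hJ : J.det ≠ 0) (b : ℕ → Matrix I I F)
    (c m : ℕ → F) (hc : Tendsto c atTop (𝓝 0)) (hc0 : ∀ j, c j ≠ 0) (hm : ∀ j, m j ≠ 0)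
    (hb : ∀ j, (b j)ᵀ * J * b j = m j • J) (A : Matrix I I F) (t : F)
    (hA : Aᵀ * J + J * A = t • J)
    (h : Tendsto (fun j => (c j)⁻¹ • (b j - 1)) atTop (𝓝 A)) :
    Tendsto (fun j => (c j)⁻¹ • ((m j ^ 2)⁻¹ • k4 (b j) - 1)) atTop
      (𝓝 (d4 (A - (t / 2) • (1 : Matrix I I F)))) := by
  have h1 := lim_mult J hJ b c m hc hc0 hb A t hA h
  have h2 := lim_inv_sq c m hc hc0 hm t h1
  have h3 := lim_k4 b c hc hc0 A h
  have hm1 := m_tendsto c m hc hc0 t h1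
  have h4 : Tendsto (fun j => (m j ^ 2)⁻¹ • ((c j)⁻¹ • (k4 (b j) - 1)) +
      ((c j)⁻¹ * ((m j ^ 2)⁻¹ - 1)) • (1 : Matrix (I × I × I × I) (I × I × I × I) F)) atTop
      (𝓝 (((1 : F) ^ 2)⁻¹ • d4 A +
        (-2 * t) • (1 : Matrix (I × I × I × I) (I × I × I × I) F))) := by
    refine Tendsto.add ?_ (h2.smul_const _)
    exact ((hm1.pow 2).inv₀ (by norm_num)).smul h3
  have h5 : d4 (A - (t / 2) • (1 : Matrix I I F)) = ((1 : F) ^ 2)⁻¹ • d4 A +
        (-2 * t) • (1 : Matrix (I × I × I × I) (I × I × I × I) F) := by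
    rw [sub_eq_add_neg, ← neg_smul, d4_add, d4_smul, d4_one, smul_smul, one_pow, inv_one, one_smul]
    congr 2
    ring
  rw [h5]
  refine h4.congr fun j => ?_
  ext x y
  simp only [Matrix.smul_apply, Matrix.sub_apply, Matrix.add_apply, smul_eq_mul]
  ring

end Pool.Agent.Lib.MP_640417_ag.Glob
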