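import Pool.Agent.Lib.MP_640417_ag.Glob.Tan

/-!
# MP_640417_ag, Glob, module TanH (120 lines): the Lie algebra `Hh`

* `Zt_Hh`: `s = c / 2`, `Zt_mult`.
* `Hh_ad`: `(M γ) X (M γ)⁻¹ ∈ spJ J`: from `M γᵀ J M γ = μ J`; `span Zt` is stable under conjugation (`Zt_ad`).
* `Hh_lie`: `[X, Y] = [X + s, Y]`; `X + s ∈ span Zt`, so by `Zt_lie` for `W = Hh` (stable by `Hh_ad`; linear
  combinations) `[X + s, Y] ∈ Hh`; `Hh_lie_span`: the same for `W = span Zt` and `Y + t ∈ span Zt`.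
* `Hh_vec`: `Zt_vec` for linear combinations.
-/

set_option autoImplicit false

namespace Pool.Agent.Lib.MP_640417_ag.Glob

open Filter Topology Matrix

variable {F : Type} [NontriviallyNormedField F] [IsUltrametricDist F] [CompleteSpace F] [CharZero F]
  {I : Type} [Fintype I] [DecidableEq I] {Γ : Type} [Group Γ] [TopologicalSpace Γ]
  (ρ : MRep Γ F I) (l : ℕ) (hl : ‖(l : F)‖ < 1) (hl0 : (l : F) ≠ 0)

include hl hl0 in
theorem Zt_Hh {A : Matrix I I F} (hA : A ∈ ρ.Zt l) :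
    ∃ s : F, A - s • (1 : Matrix I I F) ∈ ρ.Hh l := by
  obtain ⟨c, hc⟩ := Zt_mult ρ l hl hl0 hA
  refine ⟨c / 2, ?_, c / 2, ?_⟩
  · rw [mem_spJ, Matrix.transpose_sub, Matrix.transpose_smul, Matrix.transpose_one, sub_mul,
      mul_sub, Matrix.smul_mul, Matrix.mul_smul, one_mul, mul_one,
      show Aᵀ * ρ.J - (c / 2) • ρ.J + (ρ.J * A - (c / 2) • ρ.J) =
        (Aᵀ * ρ.J + ρ.J * A) - ((c / 2) • ρ.J + (c / 2) • ρ.J) by abel, hc, ← add_smul,
      add_halves, sub_self]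
  · rw [sub_add_cancel]
    exact Submodule.subset_span hA

/-- the span of the tangent vectors is stable under conjugation -/
private theorem span_ad (γ : Γ) {X : Matrix I I F} (hX : X ∈ Submodule.span F (ρ.Zt l)) :
    ρ.M γ * X * ρ.M γ⁻¹ ∈ Submodule.span F (ρ.Zt l) := by
  induction hX using Submodule.span_induction with
  | mem x hx => exact Submodule.subset_span (Zt_ad ρ l γ hx)
  | zero => simp
  | add x y _ _ hx hy =>
    rw [mul_add, add_mul]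
    exact Submodule.add_mem _ hx hy
  | smul a x _ hx =>
    rw [Matrix.mul_smul, Matrix.smul_mul]
    exact Submodule.smul_mem _ a hx

theorem Hh_ad (γ : Γ) {X : Matrix I I F} (hX : X ∈ ρ.Hh l) : ρ.M γ * X * ρ.M γ⁻¹ ∈ ρ.Hh l := by
  obtain ⟨h1, s, hs⟩ := hX
  refine ⟨?_, s, ?_⟩
  · rw [mem_spJ] at h1 ⊢
    have e := ρ.eq γ
    have e1 : (ρ.M γ)ᵀ * ρ.J = (ρ.μ γ : F) • (ρ.J * ρ.M γ⁻¹) := by
      calc (ρ.M γ)ᵀ * ρ.J = (ρ.M γ)ᵀ * ρ.J * (ρ.M γ * ρ.M γ⁻¹) := by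
            rw [M_mul_inv, mul_one]
        _ = ((ρ.M γ)ᵀ * ρ.J * ρ.M γ) * ρ.M γ⁻¹ := by simp only [mul_assoc]
        _ = _ := by rw [e, Matrix.smul_mul]
    have e2 : ρ.J * ρ.M γ = (ρ.μ γ : F) • ((ρ.M γ⁻¹)ᵀ * ρ.J) := by
      have e3 : (ρ.M γ⁻¹)ᵀ * (ρ.M γ)ᵀ = 1 := by
        rw [← Matrix.transpose_mul, M_mul_inv, Matrix.transpose_one]
      calc ρ.J * ρ.M γ = ((ρ.M γ⁻¹)ᵀ * (ρ.M γ)ᵀ) * (ρ.J * ρ.M γ) := by rw [e3, one_mul]
        _ = (ρ.M γ⁻¹)ᵀ * ((ρ.M γ)ᵀ * ρ.J * ρ.M γ) := by simp only [mul_assoc]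
        _ = _ := by rw [e, Matrix.mul_smul]
    have e4 : (ρ.M γ * X * ρ.M γ⁻¹)ᵀ * ρ.J =
        (ρ.μ γ : F) • ((ρ.M γ⁻¹)ᵀ * (Xᵀ * ρ.J) * ρ.M γ⁻¹) := by
      rw [Matrix.transpose_mul, Matrix.transpose_mul, mul_assoc, mul_assoc, e1,
        Matrix.mul_smul, Matrix.mul_smul]
      simp only [mul_assoc]
    have e5 : ρ.J * (ρ.M γ * X * ρ.M γ⁻¹) =
        (ρ.μ γ : F) • ((ρ.M γ⁻¹)ᵀ * (ρ.J * X) * ρ.M γ⁻¹) := by
      rw [← mul_assoc, ← mul_assoc, e2, Matrix.smul_mul, Matrix.smul_mul]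
      simp only [mul_assoc]
    rw [e4, e5, ← smul_add, ← add_mul, ← mul_add, h1, mul_zero, zero_mul, smul_zero]
  · have h2 := span_ad ρ l γ hs
    rw [mul_add, add_mul, Matrix.mul_smul, Matrix.smul_mul, mul_one, M_mul_inv] at h2
    exact h2

/-- brackets with elements of the span -/
private theorem span_lie (hl : ‖(l : F)‖ < 1) (hl0 : (l : F) ≠ 0)
    (W : Submodule F (Matrix I I F)) (hW : ∀ γ, ∀ B ∈ W, ρ.M γ * B * ρ.M γ⁻¹ ∈ W)
    {A : Matrix I I F} (hA : A ∈ Submodule.span F (ρ.Zt l)) {B : Matrix I I F} (hB : B ∈ W) :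
    A * B - B * A ∈ W := by
  induction hA using Submodule.span_induction with
  | mem x hx => exact Zt_lie ρ l hl hl0 hx W hW hB
  | zero => simp
  | add x y _ _ hx hy =>
    rw [add_mul, mul_add, add_sub_add_comm]
    exact Submodule.add_mem _ hx hy
  | smul a x _ hx =>
    rw [Matrix.mul_smul, Matrix.smul_mul, ← smul_sub]
    exact Submodule.smul_mem _ a hx

private theorem lie_shift (X Y : Matrix I I F) (s t : F) :
    (X + s • (1 : Matrix I I F)) * (Y + t • (1 : Matrix I I F)) -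
      (Y + t • (1 : Matrix I I F)) * (X + s • (1 : Matrix I I F)) = X * Y - Y * X := by
  simp only [add_mul, mul_add, Matrix.smul_mul, Matrix.mul_smul, one_mul, mul_one, smul_smul,
    mul_comm t s]
  abel

include hl hl0 in
theorem Hh_lie {X Y : Matrix I I F} (hX : X ∈ ρ.Hh l) (hY : Y ∈ ρ.Hh l) :
    X * Y - Y * X ∈ ρ.Hh l := by
  obtain ⟨_, s, hs⟩ := hX
  have h := span_lie ρ l hl hl0 (ρ.Hh l) (fun γ B hB => Hh_ad ρ l γ hB) hs hY
  have h2 := lie_shift X Y s 0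
  rw [zero_smul, add_zero] at h2
  rwa [h2] at h

include hl hl0 in
theorem Hh_lie_span {X Y : Matrix I I F} (hX : X ∈ ρ.Hh l) (hY : Y ∈ ρ.Hh l) :
    X * Y - Y * X ∈ Submodule.span F (ρ.Zt l) := by
  obtain ⟨_, s, hs⟩ := hX
  obtain ⟨_, t, ht⟩ := hY
  have h := span_lie ρ l hl hl0 (Submodule.span F (ρ.Zt l))
    (fun γ B hB => span_ad ρ l γ hB) hs ht
  rwa [lie_shift X Y s t] at h

/-- stable subspaces are stable under the Lie algebra -/
theorem Hh_vec {X : Matrix I I F} (hX : X ∈ ρ.Hh l) (W : Submodule F (I → F))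
    (hW : ∀ γ, ∀ y ∈ W, ρ.M γ *ᵥ y ∈ W) {y : I → F} (hy : y ∈ W) : X *ᵥ y ∈ W := by
  obtain ⟨_, s, hs⟩ := hX
  have h1 : ∀ A ∈ Submodule.span F (ρ.Zt l), A *ᵥ y ∈ W := by
    intro A hA
    induction hA using Submodule.span_induction with
    | mem x hx => exact Zt_vec ρ l hx W hW hy
    | zero => simp
    | add x z _ _ hx hz =>
      rw [Matrix.add_mulVec]
      exact Submodule.add_mem _ hx hz
    | smul a x _ hx =>
      rw [Matrix.smul_mulVec]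
      exact Submodule.smul_mem _ a hx
  have h2 := h1 _ hs
  rw [Matrix.add_mulVec, Matrix.smul_mulVec, Matrix.one_mulVec] at h2
  have h3 := Submodule.sub_mem _ h2 (Submodule.smul_mem _ s hy)
  rwa [add_sub_cancel_right] at h3

end Pool.Agent.Lib.MP_640417_ag.Glob
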