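import Pool.Agent.Lib.MP_640417_ag.Glob.Norm

/-!
# MP_640417_ag, Glob, module Log (150 lines): the logarithm of a matrix near 1

* `step`: induction on `n`: `a^(n+1) - 1 - (n+1)(a-1) = a (a^n - 1 - n (a-1)) + n (a-1)^2`, and all
  entries of `a = 1 + (a - 1)` have norm `≤ 1`, `‖n‖ ≤ 1`.
* `iter`: induction on `k` with `step` for `a^(l^k)` and `n = l`:
  `a^(l^(k+1)) - 1 = l (a^(l^k) - 1) + (an element with entries ≤ (‖l‖^k r)^2)`, and
  `(‖l‖^k r)^2 ≤ ‖l‖^(k+1) r` because `r ≤ ‖l‖^2`.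
* `exists_log`: the entries of `y_k = l^(-k) (a^(l^k) - 1)` form a Cauchy sequence:
  `‖y_(k+1) - y_k‖ ≤ ‖l‖^(-(k+1)) (‖l‖^k r)^2 ≤ ‖l‖^k` (`cauchySeq_of_le_geometric`,
  `tendsto_pi_nhds` twice).
* `inj_comm`: let `c_k = a^(l^k) b - b a^(l^k)`, `N_k` the maximal norm of its entries. With
  `x = a^(l^k)`, `x^l b - b x^l = ∑_(i < l) x^i (x b - b x) x^(l-1-i)`, and
  `x^i y x^j - y` has entries `≤ r N` if those of `y` are `≤ N` (`x^i`, `x^j` are `1 +` entries `≤ r`). So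
  `c_(k+1) = l c_k + (entries ≤ r N_k)` and `r < ‖l‖`, hence `N_(k+1) = ‖l‖ N_k`, `N_k = ‖l‖^k N_0`. But
  `l^(-k) c_k → A b - b A = 0`, so `N_0 = 0`.
-/

set_option autoImplicit false

namespace Pool.Agent.Lib.MP_640417_ag.Glob

open Filter Topology Matrix

variable {F : Type} [NontriviallyNormedField F] [IsUltrametricDist F] {I : Type} [Fintype I]
  [DecidableEq I]

theorem step {r : ℝ} (hr : 0 ≤ r) (hr1 : r ≤ 1) {a : Matrix I I F} (ha : Sm r (a - 1)) (n : ℕ) :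
    Sm (r ^ 2) (a ^ n - 1 - (n : F) • (a - 1)) := by
  induction n with
  | zero =>
    have h : a ^ 0 - 1 - ((0 : ℕ) : F) • (a - 1) = 0 := by simp
    rw [h]
    exact Sm_zero (by positivity)
  | succ n ih =>
    have h : a ^ (n + 1) - 1 - ((n + 1 : ℕ) : F) • (a - 1) =
        (a - 1) * (a ^ n - 1 - (n : F) • (a - 1)) + (a ^ n - 1 - (n : F) • (a - 1)) +
          (n : F) • ((a - 1) * (a - 1)) := by
      have key : ∀ (x P : Matrix I I F) (c : F), (1 + x) * P - 1 - (c + 1) • x =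
          x * (P - 1 - c • x) + (P - 1 - c • x) + c • (x * x) := by
        intro x P c
        simp only [add_mul, one_mul, mul_sub, mul_one, mul_smul_comm, add_smul, one_smul]
        abel
      have h2 := key (a - 1) (a ^ n) n
      rw [add_sub_cancel, ← pow_succ'] at h2
      rw [Nat.cast_add, Nat.cast_one]
      exact h2
    rw [h]
    refine Sm_add (Sm_add ?_ ih) ?_
    · refine Sm_mono ?_ (Sm_mul hr (by positivity) ha ih)
      nlinarith [pow_nonneg hr 2]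
    · refine Sm_mono ?_ (Sm_smul (n : F) (Sm_mul hr hr ha ha))
      have h1 := norm_nat_le (F := F) n
      have h2 : 0 ≤ r * r := mul_nonneg hr hr
      nlinarith

variable (l : ℕ) (hl : ‖(l : F)‖ < 1) (hl0 : (l : F) ≠ 0)

include hl in
theorem iter {r : ℝ} (hr : 0 ≤ r) (hr1 : r ≤ ‖(l : F)‖ ^ 2) {a : Matrix I I F}
    (ha : Sm r (a - 1)) (k : ℕ) :
    Sm (‖(l : F)‖ ^ k * r) (a ^ l ^ k - 1) ∧
      Sm ((‖(l : F)‖ ^ k * r) ^ 2) (a ^ l ^ (k + 1) - 1 - (l : F) • (a ^ l ^ k - 1)) := by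
  have hn0 : 0 ≤ ‖(l : F)‖ := norm_nonneg _
  have hsecond : ∀ k, Sm (‖(l : F)‖ ^ k * r) (a ^ l ^ k - 1) →
      Sm ((‖(l : F)‖ ^ k * r) ^ 2) (a ^ l ^ (k + 1) - 1 - (l : F) • (a ^ l ^ k - 1)) := by
    intro k hk
    have h1 : ‖(l : F)‖ ^ k ≤ 1 := pow_le_one₀ hn0 hl.le
    have h2 : ‖(l : F)‖ ^ k * r ≤ 1 := by
      have : ‖(l : F)‖ ^ 2 ≤ 1 := pow_le_one₀ hn0 hl.le
      have : r ≤ 1 := by linarith
      nlinarith [pow_nonneg hn0 k]
    have h := step (by positivity) h2 hk l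
    rw [← pow_mul, ← pow_succ] at h
    exact h
  have hfirst : ∀ k, Sm (‖(l : F)‖ ^ k * r) (a ^ l ^ k - 1) := by
    intro k
    induction k with
    | zero => simpa using ha
    | succ k ih =>
      have h := hsecond k ih
      have h1 : a ^ l ^ (k + 1) - 1 = (l : F) • (a ^ l ^ k - 1) +
          (a ^ l ^ (k + 1) - 1 - (l : F) • (a ^ l ^ k - 1)) := by abel
      rw [h1]
      refine Sm_add (Sm_mono (le_of_eq ?_) (Sm_smul (l : F) ih)) (Sm_mono ?_ h)
      · rw [pow_succ]; ring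
      · have h2 : ‖(l : F)‖ ^ k ≤ 1 := pow_le_one₀ hn0 hl.le
        have h3 : ‖(l : F)‖ ^ k * r ≤ ‖(l : F)‖ := by
          have h4 : ‖(l : F)‖ ^ k * r ≤ r := by nlinarith
          have h5 : ‖(l : F)‖ ^ 2 ≤ ‖(l : F)‖ := by nlinarith
          linarith
        have h6 : 0 ≤ ‖(l : F)‖ ^ k * r := by positivity
        calc (‖(l : F)‖ ^ k * r) ^ 2 = (‖(l : F)‖ ^ k * r) * (‖(l : F)‖ ^ k * r) := by ring
          _ ≤ (‖(l : F)‖ ^ k * r) * ‖(l : F)‖ := mul_le_mul_of_nonneg_left h3 h6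
          _ = _ := by rw [pow_succ]; ring
  exact ⟨hfirst k, hsecond k (hfirst k)⟩

include hl hl0 in
theorem exists_log [CompleteSpace F] {a : Matrix I I F} (ha : Sm (‖(l : F)‖ ^ 2) (a - 1)) :
    ∃ A : Matrix I I F, Tendsto (fun k : ℕ => ((l : F) ^ k)⁻¹ • (a ^ l ^ k - 1)) atTop (𝓝 A) := by
  have hn0 : 0 < ‖(l : F)‖ := norm_pos_iff.2 hl0
  have hent : ∀ i j, ∃ z : F, Tendsto (fun k : ℕ => (((l : F) ^ k)⁻¹ • (a ^ l ^ k - 1)) i j)
      atTop (𝓝 z) := by
    intro i j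
    have hcau : CauchySeq (fun k : ℕ => (((l : F) ^ k)⁻¹ • (a ^ l ^ k - 1)) i j) := by
      refine cauchySeq_of_le_geometric ‖(l : F)‖ 1 hl fun k => ?_
      have h1 := (iter l hl (by positivity) le_rfl ha k).2 i j
      rw [dist_comm, dist_eq_norm]
      have h2 : (((l : F) ^ (k + 1))⁻¹ • (a ^ l ^ (k + 1) - 1)) i j -
          (((l : F) ^ k)⁻¹ • (a ^ l ^ k - 1)) i j =
          ((l : F) ^ (k + 1))⁻¹ * (a ^ l ^ (k + 1) - 1 - (l : F) • (a ^ l ^ k - 1)) i j := by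
        simp only [Matrix.smul_apply, Matrix.sub_apply, smul_eq_mul]
        rw [pow_succ (l : F) k]
        field_simp
      rw [h2, norm_mul, norm_inv, norm_pow]
      have h3 : (‖(l : F)‖ ^ (k + 1))⁻¹ * ‖(a ^ l ^ (k + 1) - 1 - (l : F) • (a ^ l ^ k - 1)) i j‖ ≤
          (‖(l : F)‖ ^ (k + 1))⁻¹ * (‖(l : F)‖ ^ k * ‖(l : F)‖ ^ 2) ^ 2 :=
        mul_le_mul_of_nonneg_left h1 (by positivity)
      refine h3.trans ?_
      have h4 : (‖(l : F)‖ ^ (k + 1))⁻¹ * (‖(l : F)‖ ^ k * ‖(l : F)‖ ^ 2) ^ 2 =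
          ‖(l : F)‖ ^ k * ‖(l : F)‖ ^ 3 := by
        rw [inv_mul_eq_div, div_eq_iff (by positivity)]
        ring
      rw [h4]
      have h5 : ‖(l : F)‖ ^ 3 ≤ 1 := pow_le_one₀ hn0.le hl.le
      have h6 : 0 ≤ ‖(l : F)‖ ^ k := by positivity
      nlinarith
    exact cauchySeq_tendsto_of_complete hcau
  choose A hA using hent
  refine ⟨Matrix.of A, ?_⟩
  exact tendsto_pi_nhds.2 fun i => tendsto_pi_nhds.2 fun j => hA i j

/-- The commutator of a power. -/
private theorem comm_pow {r N : ℝ} (hr : 0 ≤ r) (hr1 : r ≤ 1) (hN : 0 ≤ N) {x b : Matrix I I F}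
    (hx : Sm r (x - 1)) (hc : Sm N (x * b - b * x)) (n : ℕ) :
    Sm (r * N) (x ^ n * b - b * x ^ n - (n : F) • (x * b - b * x)) := by
  have hrN : 0 ≤ r * N := mul_nonneg hr hN
  induction n with
  | zero =>
    have h : x ^ 0 * b - b * x ^ 0 - ((0 : ℕ) : F) • (x * b - b * x) = 0 := by simp
    rw [h]
    exact Sm_zero hrN
  | succ n ih =>
    have hD : Sm N (x ^ n * b - b * x ^ n) := by
      have h1 : x ^ n * b - b * x ^ n = (x ^ n * b - b * x ^ n - (n : F) • (x * b - b * x)) +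
          (n : F) • (x * b - b * x) := by abel
      rw [h1]
      refine Sm_add (Sm_mono (by nlinarith) ih) (Sm_mono ?_ (Sm_smul (n : F) hc))
      have := norm_nat_le (F := F) n
      nlinarith
    have h : x ^ (n + 1) * b - b * x ^ (n + 1) - ((n + 1 : ℕ) : F) • (x * b - b * x) =
        (x - 1) * (x ^ n * b - b * x ^ n) +
          (x ^ n * b - b * x ^ n - (n : F) • (x * b - b * x)) +
          (x * b - b * x) * (x ^ n - 1) := by
      have e1 : x ^ (n + 1) * b = x * (x ^ n * b) := by rw [pow_succ', mul_assoc]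
      have e2 : b * x ^ (n + 1) = b * x * x ^ n := by rw [pow_succ', mul_assoc]
      rw [e1, e2, Nat.cast_add, Nat.cast_one, add_smul, one_smul]
      simp only [sub_mul, mul_sub, one_mul, mul_one, mul_assoc]
      abel
    rw [h]
    refine Sm_add (Sm_add (Sm_mul hr hN hx hD) ih) ?_
    refine Sm_mono (le_of_eq (mul_comm _ _)) (Sm_mul hN hr hc (Sm_pow_sub hr hr1 hx n))

include hl hl0 in
theorem inj_comm {a A b : Matrix I I F} (ha : Sm (‖(l : F)‖ ^ 2) (a - 1))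
    (hA : Tendsto (fun k : ℕ => ((l : F) ^ k)⁻¹ • (a ^ l ^ k - 1)) atTop (𝓝 A))
    (hb : A * b = b * A) : a * b = b * a := by
  rcases isEmpty_or_nonempty I with hI | hI
  · exact Subsingleton.elim _ _
  have hn0 : 0 < ‖(l : F)‖ := norm_pos_iff.2 hl0
  set c : ℕ → Matrix I I F := fun k => a ^ l ^ k * b - b * a ^ l ^ k with hcdef
  -- one step back
  have hback : ∀ k, ∀ t : ℝ, 0 ≤ t → Sm (‖(l : F)‖ * t) (c (k + 1)) → Sm t (c k) := by
    intro k t ht hk
    obtain ⟨⟨i0, j0⟩, hmax⟩ := Finite.exists_max (fun q : I × I => ‖c k q.1 q.2‖)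
    set N := ‖c k i0 j0‖ with hN
    have hN0 : 0 ≤ N := norm_nonneg _
    have hcN : Sm N (c k) := fun i j => hmax (i, j)
    have hx := (iter l hl (by positivity) le_rfl ha k).1
    have hr1 : ‖(l : F)‖ ^ k * ‖(l : F)‖ ^ 2 ≤ ‖(l : F)‖ ^ 2 := by
      have h1 : ‖(l : F)‖ ^ k ≤ 1 := pow_le_one₀ hn0.le hl.le
      nlinarith [pow_pos hn0 2]
    have hr2 : ‖(l : F)‖ ^ 2 < ‖(l : F)‖ := by nlinarith
    have hx2 : Sm (‖(l : F)‖ ^ 2) (a ^ l ^ k - 1) := Sm_mono hr1 hx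
    have hE := comm_pow (by positivity) (by nlinarith) hN0 hx2 hcN l
    rw [← pow_mul, ← pow_succ] at hE
    have h1 : (l : F) • c k = c (k + 1) - (a ^ l ^ (k + 1) * b - b * a ^ l ^ (k + 1) -
        (l : F) • (a ^ l ^ k * b - b * a ^ l ^ k)) := by
      simp only [hcdef]
      abel
    have h2 : Sm (max (‖(l : F)‖ * t) (‖(l : F)‖ ^ 2 * N)) ((l : F) • c k) := by
      rw [h1]
      exact Sm_sub (Sm_mono (le_max_left _ _) hk) (Sm_mono (le_max_right _ _) hE)
    have h3 := h2 i0 j0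
    rw [Matrix.smul_apply, smul_eq_mul, norm_mul, ← hN] at h3
    have h4 : N ≤ t := by
      rcases le_max_iff.1 h3 with h | h
      · exact le_of_mul_le_mul_left h hn0
      · have h5 : N = 0 := by
          by_contra hne
          have hpos : 0 < N := lt_of_le_of_ne hN0 (Ne.symm hne)
          nlinarith
        rw [h5]
        exact ht
    exact Sm_mono h4 hcN
  have hall : ∀ k, ∀ t : ℝ, 0 ≤ t → Sm (‖(l : F)‖ ^ k * t) (c k) → Sm t (c 0) := by
    intro k
    induction k with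
    | zero => intro t _ h; simpa using h
    | succ k ih =>
      intro t ht h
      apply ih t ht
      apply hback k _ (by positivity)
      refine Sm_mono (le_of_eq ?_) h
      rw [pow_succ]
      ring
  -- the limit
  have hlim : Tendsto (fun k : ℕ => ((l : F) ^ k)⁻¹ • c k) atTop (𝓝 0) := by
    have h1 : Tendsto (fun k : ℕ => (((l : F) ^ k)⁻¹ • (a ^ l ^ k - 1)) * b -
        b * (((l : F) ^ k)⁻¹ • (a ^ l ^ k - 1))) atTop (𝓝 (A * b - b * A)) :=
      (hA.mul tendsto_const_nhds).sub (tendsto_const_nhds.mul hA)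
    rw [hb, sub_self] at h1
    refine h1.congr fun k => ?_
    simp only [hcdef, smul_mul_assoc, mul_smul_comm, sub_mul, mul_sub, one_mul, mul_one, smul_sub]
    abel
  have hzero : ∀ i j, c 0 i j = 0 := by
    intro i j
    rw [← norm_le_zero_iff]
    apply le_of_forall_pos_le_add
    intro ε hε
    rw [zero_add]
    have h1 : ∀ᶠ k in atTop, ∀ i j, ‖(((l : F) ^ k)⁻¹ • c k) i j‖ ≤ ε := by
      rw [eventually_all]
      intro i
      rw [eventually_all]
      intro j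
      have h2 : Tendsto (fun k : ℕ => (((l : F) ^ k)⁻¹ • c k) i j) atTop (𝓝 0) := by
        have h3 := (tendsto_pi_nhds.1 ((tendsto_pi_nhds.1 hlim) i)) j
        exact h3
      have h4 := h2.norm
      rw [norm_zero] at h4
      exact (h4.eventually (gt_mem_nhds hε)).mono fun k hk => hk.le
    obtain ⟨k, hk⟩ := h1.exists
    refine hall k ε hε.le ?_ i j
    intro i j
    have h5 := hk i j
    rw [Matrix.smul_apply, smul_eq_mul, norm_mul, norm_inv, norm_pow,
      inv_mul_le_iff₀ (by positivity)] at h5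
    exact h5
  have h0 : c 0 = 0 := by
    ext i j
    exact hzero i j
  simp only [hcdef, pow_zero, pow_one] at h0
  exact sub_eq_zero.1 h0

end Pool.Agent.Lib.MP_640417_ag.Glob
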