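import Pool.Agent.Lib.MP_640417_ag.Glob.Open
import Pool.Agent.Lib.MP_640417_ag.Glob.Log

/-!
# MP_640417_ag, Glob, module Tan (150 lines): the tangent vectors

`M (γ_k) → 1` is `Zt_tendsto_one`.
* `Zt_add`: `(a b - 1)/l^k = ((a - 1)/l^k) b + (b - 1)/l^k` with `a = M (γ_k)`, `b = M (δ_k)`.
* `Zt_neg`: `(a⁻¹ - 1)/l^k = - M (γ_k⁻¹) ((a - 1)/l^k)`, and `M (γ_k⁻¹) → 1` (it is `(M γ_k)⁻¹`, the inverse of
  matrices is continuous at 1, or: adjugate / det).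
* `Zt_ad`: conjugate the sequence.
* `Zt_lie`: `W` is closed (`Submodule.closed_of_finiteDimensional`); with `a = M (γ_k)`:
  `l^(-k) (a B a⁻¹ - B) = (l^(-k)(a - 1) B - B l^(-k)(a - 1)) a⁻¹` is in `W` and tends to `A B - B A`.
* `Zt_vec`: `l^(-k)(a - 1) y ∈ W` and `W` is closed.
* `Zt_mult`: `aᵀ J a = μ J` with `a = 1 + l^k A_k`: `l^(-k)(μ - 1) J = A_kᵀ J + J A_k + l^k A_kᵀ J A_k` tends to
  `Aᵀ J + J A`, and the multiples of `J` form a closed subspace.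
* `Zt_log`: `exists_log` and the sequence `γ^(l^k)`.
* `J_skew`: `v ⬝ᵥ J *ᵥ v = 0` for `v = e_i`, `v = e_i + e_j`.
-/

set_option autoImplicit false

namespace Pool.Agent.Lib.MP_640417_ag.Glob

open Filter Topology Matrix

variable {F : Type} [NontriviallyNormedField F] [IsUltrametricDist F] [CompleteSpace F] [CharZero F]
  {I : Type} [Fintype I] [DecidableEq I] {Γ : Type} [Group Γ] [TopologicalSpace Γ]
  (ρ : MRep Γ F I) (l : ℕ) (hl : ‖(l : F)‖ < 1) (hl0 : (l : F) ≠ 0)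

theorem M_mul_inv (γ : Γ) : ρ.M γ * ρ.M γ⁻¹ = 1 := by
  rw [← map_mul, mul_inv_cancel, map_one]

theorem M_inv_mul (γ : Γ) : ρ.M γ⁻¹ * ρ.M γ = 1 := by
  rw [← map_mul, inv_mul_cancel, map_one]

theorem J_skew : ρ.Jᵀ = -ρ.J := by
  have hd : ∀ i, ρ.J i i = 0 := by
    intro i
    have h := ρ.alt (Pi.single i 1)
    simpa using h
  ext i j
  rw [Matrix.transpose_apply, Matrix.neg_apply]
  have h := ρ.alt (Pi.single i 1 + Pi.single j 1)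
  rw [Matrix.mulVec_add, add_dotProduct, dotProduct_add, dotProduct_add] at h
  simp only [Matrix.mulVec_single_one, single_one_dotProduct, Matrix.col_apply] at h
  rw [hd i, hd j] at h
  linear_combination h

/-- the inverses tend to 1 -/
private theorem tendsto_inv_one {γ : ℕ → Γ}
    (h : Tendsto (fun k => ρ.M (γ k)) atTop (𝓝 1)) :
    Tendsto (fun k => ρ.M (γ k)⁻¹) atTop (𝓝 1) := by
  have h1 : Tendsto (fun k => (ρ.M (γ k)).det) atTop (𝓝 1) := by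
    have h2 := ((continuous_id.matrix_det).tendsto (1 : Matrix I I F)).comp h
    simp only [id, Matrix.det_one] at h2
    exact h2
  have h3 : Tendsto (fun k => (ρ.M (γ k)).adjugate) atTop (𝓝 1) := by
    have h2 := ((continuous_id.matrix_adjugate).tendsto (1 : Matrix I I F)).comp h
    simp only [id, Matrix.adjugate_one] at h2
    exact h2
  have h4 := (h1.inv₀ one_ne_zero).smul h3
  rw [inv_one, one_smul] at h4
  refine h4.congr fun k => ?_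
  have h5 : ρ.M (γ k)⁻¹ = (ρ.M (γ k))⁻¹ :=
    (Matrix.inv_eq_right_inv (M_mul_inv ρ (γ k))).symm
  rw [h5, Matrix.inv_def, Ring.inverse_eq_inv']

include hl hl0 in
theorem Zt_add {A B : Matrix I I F} (hA : A ∈ ρ.Zt l) (hB : B ∈ ρ.Zt l) : A + B ∈ ρ.Zt l := by
  obtain ⟨γ, hγ⟩ := hA
  obtain ⟨δ, hδ⟩ := hB
  refine ⟨fun k => γ k * δ k, ?_⟩
  have h1 := Zt_tendsto_one ρ l hl hl0 hδ
  have h2 := (hγ.mul h1).add hδ
  rw [mul_one] at h2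
  refine h2.congr fun k => ?_
  rw [map_mul, Matrix.smul_mul, ← smul_add]
  congr 1
  noncomm_ring

include hl hl0 in
theorem Zt_neg {A : Matrix I I F} (hA : A ∈ ρ.Zt l) : -A ∈ ρ.Zt l := by
  obtain ⟨γ, hγ⟩ := hA
  refine ⟨fun k => (γ k)⁻¹, ?_⟩
  have h1 := tendsto_inv_one ρ (Zt_tendsto_one ρ l hl hl0 hγ)
  have h2 := (h1.mul hγ).neg
  rw [one_mul] at h2
  refine h2.congr fun k => ?_
  rw [Matrix.mul_smul, ← smul_neg]
  congr 1
  rw [mul_sub, mul_one, M_inv_mul]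
  abel

theorem Zt_ad (δ : Γ) {A : Matrix I I F} (hA : A ∈ ρ.Zt l) : ρ.M δ * A * ρ.M δ⁻¹ ∈ ρ.Zt l := by
  obtain ⟨γ, hγ⟩ := hA
  refine ⟨fun k => δ * γ k * δ⁻¹, ?_⟩
  have h2 := (hγ.const_mul (ρ.M δ)).mul_const (ρ.M δ⁻¹)
  refine h2.congr fun k => ?_
  rw [Matrix.mul_smul, Matrix.smul_mul]
  congr 1
  rw [map_mul, map_mul, mul_sub, sub_mul, mul_one, M_mul_inv]

include hl hl0 in
theorem Zt_lie {A : Matrix I I F} (hA : A ∈ ρ.Zt l) (W : Submodule F (Matrix I I F))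
    (hW : ∀ γ, ∀ B ∈ W, ρ.M γ * B * ρ.M γ⁻¹ ∈ W) {B : Matrix I I F} (hB : B ∈ W) :
    A * B - B * A ∈ W := by
  obtain ⟨γ, hγ⟩ := hA
  have hcl : IsClosed (W : Set (Matrix I I F)) := Submodule.closed_of_finiteDimensional W
  have h1 := tendsto_inv_one ρ (Zt_tendsto_one ρ l hl hl0 hγ)
  have h2 := ((hγ.mul_const B).sub (hγ.const_mul B)).mul h1
  rw [mul_one] at h2
  refine hcl.mem_of_tendsto h2 (Eventually.of_forall fun k => ?_)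
  have h3 : (((l : F) ^ k)⁻¹ • (ρ.M (γ k) - 1) * B - B * ((l : F) ^ k)⁻¹ • (ρ.M (γ k) - 1)) *
      ρ.M (γ k)⁻¹ = ((l : F) ^ k)⁻¹ • (ρ.M (γ k) * B * ρ.M (γ k)⁻¹ - B) := by
    rw [Matrix.smul_mul, Matrix.mul_smul, ← smul_sub, Matrix.smul_mul]
    congr 1
    rw [show (ρ.M (γ k) - 1) * B - B * (ρ.M (γ k) - 1) = ρ.M (γ k) * B - B * ρ.M (γ k) by
      noncomm_ring, sub_mul, mul_assoc B, M_mul_inv, mul_one]
  show (((l : F) ^ k)⁻¹ • (ρ.M (γ k) - 1) * B - B * ((l : F) ^ k)⁻¹ • (ρ.M (γ k) - 1)) *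
      ρ.M (γ k)⁻¹ ∈ W
  rw [h3]
  exact W.smul_mem _ (W.sub_mem (hW _ _ hB) hB)

theorem Zt_vec {A : Matrix I I F} (hA : A ∈ ρ.Zt l) (W : Submodule F (I → F))
    (hW : ∀ γ, ∀ y ∈ W, ρ.M γ *ᵥ y ∈ W) {y : I → F} (hy : y ∈ W) : A *ᵥ y ∈ W := by
  obtain ⟨γ, hγ⟩ := hA
  have hcl : IsClosed (W : Set (I → F)) := Submodule.closed_of_finiteDimensional W
  have h2 : Tendsto (fun k => (((l : F) ^ k)⁻¹ • (ρ.M (γ k) - 1)) *ᵥ y) atTop (𝓝 (A *ᵥ y)) :=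
    ((continuous_id.matrix_mulVec continuous_const).tendsto A).comp hγ
  refine hcl.mem_of_tendsto h2 (Eventually.of_forall fun k => ?_)
  show (((l : F) ^ k)⁻¹ • (ρ.M (γ k) - 1)) *ᵥ y ∈ W
  rw [Matrix.smul_mulVec, Matrix.sub_mulVec, Matrix.one_mulVec]
  exact W.smul_mem _ (W.sub_mem (hW _ _ hy) hy)

include hl hl0 in
theorem Zt_mult {A : Matrix I I F} (hA : A ∈ ρ.Zt l) : ∃ c : F, Aᵀ * ρ.J + ρ.J * A = c • ρ.J := by
  obtain ⟨γ, hγ⟩ := hA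
  have hcl : IsClosed ((Submodule.span F {ρ.J} : Submodule F (Matrix I I F)) :
      Set (Matrix I I F)) := Submodule.closed_of_finiteDimensional _
  have h0 : Tendsto (fun k : ℕ => (l : F) ^ k) atTop (𝓝 0) :=
    tendsto_pow_atTop_nhds_zero_of_norm_lt_one hl
  have ht : Tendsto (fun k => (((l : F) ^ k)⁻¹ • (ρ.M (γ k) - 1))ᵀ) atTop (𝓝 Aᵀ) :=
    ((continuous_id.matrix_transpose).tendsto A).comp hγ
  have h1 := ((ht.mul_const ρ.J).add (hγ.const_mul ρ.J)).add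
    (h0.smul ((ht.mul_const ρ.J).mul hγ))
  rw [zero_smul, add_zero] at h1
  have h2 : Aᵀ * ρ.J + ρ.J * A ∈ Submodule.span F {ρ.J} := by
    refine hcl.mem_of_tendsto h1 (Eventually.of_forall fun k => ?_)
    have hk : (l : F) ^ k ≠ 0 := pow_ne_zero k hl0
    have h3 : (((l : F) ^ k)⁻¹ • (ρ.M (γ k) - 1))ᵀ * ρ.J +
        ρ.J * (((l : F) ^ k)⁻¹ • (ρ.M (γ k) - 1)) +
        (l : F) ^ k • ((((l : F) ^ k)⁻¹ • (ρ.M (γ k) - 1))ᵀ * ρ.J *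
          (((l : F) ^ k)⁻¹ • (ρ.M (γ k) - 1))) =
        (((l : F) ^ k)⁻¹ * ((ρ.μ (γ k) : F) - 1)) • ρ.J := by
      have h4 := ρ.eq (γ k)
      have h5 : ((ρ.μ (γ k) : F) - 1) • ρ.J = (ρ.M (γ k) - 1)ᵀ * ρ.J + ρ.J * (ρ.M (γ k) - 1) +
          (ρ.M (γ k) - 1)ᵀ * ρ.J * (ρ.M (γ k) - 1) := by
        rw [sub_smul, ← h4, one_smul, Matrix.transpose_sub, Matrix.transpose_one]
        noncomm_ring
      rw [mul_smul, h5, Matrix.transpose_smul]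
      simp only [Matrix.smul_mul, Matrix.mul_smul, smul_add, smul_smul]
      congr 2
      field_simp
    show (((l : F) ^ k)⁻¹ • (ρ.M (γ k) - 1))ᵀ * ρ.J +
        ρ.J * (((l : F) ^ k)⁻¹ • (ρ.M (γ k) - 1)) +
        (l : F) ^ k • ((((l : F) ^ k)⁻¹ • (ρ.M (γ k) - 1))ᵀ * ρ.J *
          (((l : F) ^ k)⁻¹ • (ρ.M (γ k) - 1))) ∈ Submodule.span F {ρ.J}
    rw [h3]
    exact Submodule.smul_mem _ _ (Submodule.mem_span_singleton_self _)
  obtain ⟨c, hc⟩ := Submodule.mem_span_singleton.1 h2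
  exact ⟨c, hc.symm⟩

include hl hl0 in
theorem Zt_log (γ : Γ) (hγ : Sm (‖(l : F)‖ ^ 2) (ρ.M γ - 1)) :
    ∃ A ∈ ρ.Zt l, Tendsto (fun k : ℕ => ((l : F) ^ k)⁻¹ • (ρ.M γ ^ l ^ k - 1)) atTop (𝓝 A) := by
  obtain ⟨A, hA⟩ := exists_log l hl hl0 hγ
  refine ⟨A, ⟨fun k => γ ^ l ^ k, ?_⟩, hA⟩
  refine hA.congr fun k => ?_
  rw [map_pow]

end Pool.Agent.Lib.MP_640417_ag.Glob
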