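import Pool.Agent.Lib.MP_640417_ag.Glob.Defs

/-!
# MP_640417_ag, Glob, module Norm (100 lines): matrices with small entries

`Sm r A`: all entries of `A` have norm `≤ r`. Ultrametric inequality for finite sums:
`IsUltrametricDist.norm_sum_le_of_forall_le_of_nonneg` (or similar); `norm_nat_le`:
`IsUltrametricDist.norm_natCast_le_one`.
-/

set_option autoImplicit false

namespace Pool.Agent.Lib.MP_640417_ag.Glob

open Filter Topology Matrix

variable {F : Type} [NontriviallyNormedField F] [IsUltrametricDist F] {I : Type} [Fintype I]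
  [DecidableEq I]

theorem norm_nat_le (n : ℕ) : ‖(n : F)‖ ≤ 1 :=
  IsUltrametricDist.norm_natCast_le_one F n

omit [IsUltrametricDist F] [Fintype I] [DecidableEq I] in
theorem Sm_mono {r s : ℝ} {A : Matrix I I F} (h : r ≤ s) (hA : Sm r A) : Sm s A :=
  fun i j => (hA i j).trans h

omit [IsUltrametricDist F] [Fintype I] [DecidableEq I] in
theorem Sm_zero {r : ℝ} (hr : 0 ≤ r) : Sm r (0 : Matrix I I F) := by
  intro i j
  rw [Matrix.zero_apply, norm_zero]
  exact hr

omit [IsUltrametricDist F] [Fintype I] in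
theorem Sm_one : Sm 1 (1 : Matrix I I F) := by
  intro i j
  rw [Matrix.one_apply]
  split_ifs
  · rw [norm_one]
  · rw [norm_zero]
    exact zero_le_one

omit [Fintype I] [DecidableEq I] in
theorem Sm_add {r : ℝ} {A B : Matrix I I F} (hA : Sm r A) (hB : Sm r B) : Sm r (A + B) := by
  intro i j
  rw [Matrix.add_apply]
  exact (IsUltrametricDist.norm_add_le_max _ _).trans (max_le (hA i j) (hB i j))

omit [IsUltrametricDist F] [Fintype I] [DecidableEq I] in
theorem Sm_neg {r : ℝ} {A : Matrix I I F} (hA : Sm r A) : Sm r (-A) := by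
  intro i j
  rw [Matrix.neg_apply, norm_neg]
  exact hA i j

omit [Fintype I] [DecidableEq I] in
theorem Sm_sub {r : ℝ} {A B : Matrix I I F} (hA : Sm r A) (hB : Sm r B) : Sm r (A - B) := by
  rw [sub_eq_add_neg]
  exact Sm_add hA (Sm_neg hB)

omit [IsUltrametricDist F] [Fintype I] [DecidableEq I] in
theorem Sm_smul {r : ℝ} {A : Matrix I I F} (c : F) (hA : Sm r A) : Sm (‖c‖ * r) (c • A) := by
  intro i j
  rw [Matrix.smul_apply, smul_eq_mul, norm_mul]
  exact mul_le_mul_of_nonneg_left (hA i j) (norm_nonneg c)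

omit [DecidableEq I] in
theorem Sm_mul {r s : ℝ} (hr : 0 ≤ r) (hs : 0 ≤ s) {A B : Matrix I I F} (hA : Sm r A)
    (hB : Sm s B) : Sm (r * s) (A * B) := by
  intro i j
  rw [Matrix.mul_apply]
  refine IsUltrametricDist.norm_sum_le_of_forall_le_of_nonneg (mul_nonneg hr hs) fun k _ => ?_
  rw [norm_mul]
  exact mul_le_mul (hA i k) (hB k j) (norm_nonneg _) hr

omit [Fintype I] [DecidableEq I] in
theorem Sm_sum {r : ℝ} (hr : 0 ≤ r) {ι : Type*} (t : Finset ι) {A : ι → Matrix I I F}
    (hA : ∀ i ∈ t, Sm r (A i)) : Sm r (∑ i ∈ t, A i) := by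
  intro i j
  rw [Matrix.sum_apply]
  exact IsUltrametricDist.norm_sum_le_of_forall_le_of_nonneg hr fun k hk => hA k hk i j

/-- powers of `1 +` small -/
theorem Sm_pow_sub {r : ℝ} (hr : 0 ≤ r) (hr1 : r ≤ 1) {a : Matrix I I F} (ha : Sm r (a - 1))
    (n : ℕ) : Sm r (a ^ n - 1) := by
  induction n with
  | zero =>
    rw [pow_zero, sub_self]
    exact Sm_zero hr
  | succ n ih =>
    have h1 : a ^ (n + 1) - 1 = (a ^ n - 1) * (a - 1) + (a ^ n - 1) + (a - 1) := by
      rw [pow_succ]
      noncomm_ring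
    rw [h1]
    refine Sm_add (Sm_add ?_ ih) ha
    refine Sm_mono ?_ (Sm_mul hr hr ih ha)
    nlinarith

end Pool.Agent.Lib.MP_640417_ag.Glob
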