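import Pool.Agent.Lib.MP_640417_ag.Glob.Norm

/-!
# MP_640417_ag, Glob, module Root (120 lines): powers of matrices near 1, uniformly in the exponent

`norm_nat`: `j = l^v m`, `m` prime to `l`; `‖m‖ = 1` (Bezout: `u m + w l = 1` with integers `u`, `w`,
`‖w l‖ < 1`, so `‖u m‖ = 1`, `‖u‖ ≤ 1`, `‖m‖ ≤ 1`), and `v ≤ j - 1` since `v < 2^v ≤ l^v ≤ j`.
`pow_uniform`: with `x = a - 1`, `a^N - 1 = ∑_(1 ≤ j ≤ N) C(N,j) x^j` and `j C(N,j) = N C(N-1,j-1)`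
(`Nat.succ_mul_choose_eq`), so `(a^N - 1)/N - x = ∑_(2 ≤ j ≤ N) (C(N-1,j-1) / j) x^j`; the entries of `x^j` have
norm `≤ r^j`, `‖1/j‖ ≤ ‖l‖^(-(j-1))`, and `r^j / ‖l‖^(j-1) = r (r/‖l‖)^(j-1) ≤ r (r/‖l‖)` for `j ≥ 2`, as
`r ≤ ‖l‖`.
-/

set_option autoImplicit false

namespace Pool.Agent.Lib.MP_640417_ag.Glob

open Filter Topology Matrix

variable {F : Type} [NontriviallyNormedField F] [IsUltrametricDist F] [CharZero F] {I : Type}
  [Fintype I] [DecidableEq I]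

theorem norm_nat (l : ℕ) [Fact l.Prime] (hl : ‖(l : F)‖ < 1) (j : ℕ) (hj : 0 < j) :
    ‖(l : F)‖ ^ (j - 1) ≤ ‖(j : F)‖ := by
  have hp : l.Prime := Fact.out
  obtain ⟨v, m, hm, rfl⟩ := Nat.exists_eq_pow_mul_and_not_dvd hj.ne' l hp.ne_one
  have hcop : IsCoprime (m : ℤ) (l : ℤ) := by
    rw [Nat.isCoprime_iff_coprime]
    exact ((Nat.Prime.coprime_iff_not_dvd hp).2 hm).symm
  obtain ⟨u, w, huw⟩ := hcop
  have h1 : (u : F) * m + w * l = 1 := by exact_mod_cast congrArg (fun z : ℤ => (z : F)) huw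
  have hu : ‖(u : F)‖ ≤ 1 := IsUltrametricDist.norm_intCast_le_one F u
  have hw : ‖(w : F)‖ ≤ 1 := IsUltrametricDist.norm_intCast_le_one F w
  have hm1 : 1 ≤ ‖(m : F)‖ := by
    by_contra hcon
    push Not at hcon
    have h2 : ‖(u : F) * m‖ < 1 := by
      rw [norm_mul]
      nlinarith [norm_nonneg (m : F), norm_nonneg (u : F)]
    have h3 : ‖(w : F) * l‖ < 1 := by
      rw [norm_mul]
      nlinarith [norm_nonneg (l : F), norm_nonneg (w : F)]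
    have h4 : ‖(u : F) * m + w * l‖ < 1 :=
      (IsUltrametricDist.norm_add_le_max _ _).trans_lt (max_lt h2 h3)
    rw [h1, norm_one] at h4
    exact lt_irrefl _ h4
  have hv : v ≤ l ^ v * m - 1 := by
    have h2 : v < 2 ^ v := Nat.lt_two_pow_self
    have h3 : 2 ^ v ≤ l ^ v := Nat.pow_le_pow_left hp.two_le v
    have h4 : 0 < m := Nat.pos_of_ne_zero (by rintro rfl; exact hm (dvd_zero _))
    have h5 : l ^ v ≤ l ^ v * m := Nat.le_mul_of_pos_right _ h4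
    omega
  rw [Nat.cast_mul, Nat.cast_pow, norm_mul, norm_pow]
  calc ‖(l : F)‖ ^ (l ^ v * m - 1) ≤ ‖(l : F)‖ ^ v :=
        pow_le_pow_of_le_one (norm_nonneg _) hl.le hv
    _ = ‖(l : F)‖ ^ v * 1 := (mul_one _).symm
    _ ≤ _ := mul_le_mul_of_nonneg_left hm1 (by positivity)

omit [CharZero F] in
private theorem Sm_pow {r : ℝ} (hr : 0 ≤ r) {x : Matrix I I F} (hx : Sm r x) (n : ℕ) :
    Sm (r ^ n) (x ^ n) := by
  induction n with
  | zero => simpa using Sm_one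
  | succ n ih =>
    rw [pow_succ, pow_succ]
    exact Sm_mul (by positivity) hr ih hx

theorem pow_uniform (l : ℕ) [Fact l.Prime] (hl : ‖(l : F)‖ < 1) {r : ℝ} (hr : 0 ≤ r)
    (hr1 : r ≤ ‖(l : F)‖) {a : Matrix I I F} (ha : Sm r (a - 1)) (N : ℕ) (hN : 0 < N) :
    Sm (r ^ 2 / ‖(l : F)‖) ((N : F)⁻¹ • (a ^ N - 1) - (a - 1)) := by
  obtain ⟨M, rfl⟩ : ∃ M, N = M + 1 := ⟨N - 1, by omega⟩
  have hl0 : (l : F) ≠ 0 := by exact_mod_cast (Fact.out : l.Prime).ne_zero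
  have hn0 : 0 < ‖(l : F)‖ := norm_pos_iff.2 hl0
  have hN0 : ((M + 1 : ℕ) : F) ≠ 0 := by exact_mod_cast Nat.succ_ne_zero M
  set x := a - 1 with hx
  have hbin : a ^ (M + 1) - 1 = ∑ i ∈ Finset.range (M + 1), ((M + 1).choose (i + 1) : F) •
      x ^ (i + 1) := by
    have h1 := (Commute.one_right x).add_pow (M + 1)
    have h2 : x + 1 = a := by rw [hx]; abel
    rw [h2, Finset.sum_range_succ'] at h1
    simp only [one_pow, mul_one, pow_zero, Nat.choose_zero_right, Nat.cast_one] at h1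
    rw [h1, add_sub_cancel_right]
    refine Finset.sum_congr rfl fun i _ => ?_
    rw [← nsmul_eq_mul', ← Nat.cast_smul_eq_nsmul F]
  have hsum : ((M + 1 : ℕ) : F)⁻¹ • (a ^ (M + 1) - 1) - x =
      ∑ i ∈ Finset.range M, ((M.choose (i + 1) : F) * ((i + 2 : ℕ) : F)⁻¹) • x ^ (i + 2) := by
    have hco : ∀ i : ℕ, ((M + 1 : ℕ) : F)⁻¹ * ((M + 1).choose (i + 1) : F) =
        (M.choose i : F) * ((i + 1 : ℕ) : F)⁻¹ := by
      intro i
      have h1 : ((i + 1 : ℕ) : F) ≠ 0 := by exact_mod_cast Nat.succ_ne_zero i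
      have h2 := Nat.add_one_mul_choose_eq M i
      have h3 : ((M + 1 : ℕ) : F) * (M.choose i : F) = ((M + 1).choose (i + 1) : F) *
          ((i + 1 : ℕ) : F) := by exact_mod_cast h2
      field_simp
      exact h3.symm
    rw [hbin, Finset.smul_sum]
    simp only [smul_smul, hco]
    rw [Finset.sum_range_succ']
    have h9 : ((M.choose 0 : F) * ((0 + 1 : ℕ) : F)⁻¹) • x ^ (0 + 1) = x := by simp
    rw [h9, add_sub_cancel_right]
  rw [hsum]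
  refine Sm_sum (by positivity) _ fun i _ => ?_
  have h1 := Sm_smul ((M.choose (i + 1) : F) * ((i + 2 : ℕ) : F)⁻¹) (Sm_pow hr ha (i + 2))
  refine Sm_mono ?_ h1
  have h2 := norm_nat_le (F := F) (M.choose (i + 1))
  have h3 := norm_nat (F := F) l hl (i + 2) (by omega)
  have h4 : i + 2 - 1 = i + 1 := rfl
  rw [h4] at h3
  rw [norm_mul, norm_inv]
  have h5 : ‖((i + 2 : ℕ) : F)‖⁻¹ ≤ (‖(l : F)‖ ^ (i + 1))⁻¹ :=
    inv_anti₀ (by positivity) h3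
  have h6 : ‖(M.choose (i + 1) : F)‖ * ‖((i + 2 : ℕ) : F)‖⁻¹ ≤ (‖(l : F)‖ ^ (i + 1))⁻¹ := by
    have h7 : 0 ≤ ‖((i + 2 : ℕ) : F)‖⁻¹ := by positivity
    calc _ ≤ 1 * ‖((i + 2 : ℕ) : F)‖⁻¹ := mul_le_mul_of_nonneg_right h2 h7
      _ ≤ _ := by rw [one_mul]; exact h5
  calc _ ≤ (‖(l : F)‖ ^ (i + 1))⁻¹ * r ^ (i + 2) :=
        mul_le_mul_of_nonneg_right h6 (by positivity)
    _ ≤ r ^ 2 / ‖(l : F)‖ := by
      rw [inv_mul_eq_div, div_le_div_iff₀ (by positivity) hn0]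
      have h8 : r ^ i ≤ ‖(l : F)‖ ^ i := pow_le_pow_left₀ hr hr1 i
      calc r ^ (i + 2) * ‖(l : F)‖ = r ^ 2 * ‖(l : F)‖ * r ^ i := by ring
        _ ≤ r ^ 2 * ‖(l : F)‖ * ‖(l : F)‖ ^ i :=
          mul_le_mul_of_nonneg_left h8 (by positivity)
        _ = _ := by ring

end Pool.Agent.Lib.MP_640417_ag.Glob
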