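import Pool.Agent.Lib.MP_640417_ag.CMRep
import Pool.Agent.Lib.MP_640417_ag.Glob.Defs

/-!
# MP_640417_ag, Glob, module Div (200 lines): the divisor algebra is fixed by the centralizer of the commutant

`div_inv`: `Algebra.adjoin_induction`; the generators are the Tate classes `x` of codimension 1 on `V^n`,
`V = I → F`. For `x` of degree 2: with the basis `e_(a,i)` (`i` in `I`, copy `a`) write
`x = ∑_(a,b) ∑_(i,j) w a b i j • (e_(a,i) ∧ e_(b,j))` with `w b a j i = - w a b i j` (exists and is unique: `⋀²` is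
spanned by products of two vectors; take `w` antisymmetric, `F` has characteristic zero; uniqueness by
contractions, or by the determinant functionals of `ExteriorAlgebra.liftAlternating`). `map T` acts as
`w a b ↦ M (w a b) Mᵀ`. So `(μ γ)⁻¹ • M γ (w a b) (M γ)ᵀ = w a b` for `γ ∈ U`. Then `c := (w a b) J` commutes
with `M γ`: `M w J = μ w (Mᵀ)⁻¹ J = w J M` because `Mᵀ J M = μ J` gives `J M = μ (Mᵀ)⁻¹ J`. So `InC c`, so `S c = c S`
(`hC`), and `w a b = c J⁻¹`, `S J⁻¹ Sᵀ = J⁻¹` (from `Sᵀ J S = J`), so `S (w a b) Sᵀ = S c J⁻¹ Sᵀ = c S J⁻¹ Sᵀ = c J⁻¹ =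
w a b`. So `map S x = x`. (The symmetry of `C` is not used here.)
-/

set_option autoImplicit false

namespace Pool.Agent.Lib.MP_640417_ag.Glob

open Matrix Pool.Agent.Lib.MP_640417_ag

variable {F : Type} [NontriviallyNormedField F] [CharZero F] {I : Type} [Fintype I] [DecidableEq I]
  {Γ : Type} [Group Γ] [TopologicalSpace Γ] (ρ : MRep Γ F I)

section

variable {K : Type} [Field K] {n : ℕ}

/-- two coordinates -/
private def cp (K : Type) [Field K] {n : ℕ} {I : Type} (k l : Fin n × I) :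
    (Fin n → I → K) →ₗ[K] (Fin 2 → K) where
  toFun v := ![v k.1 k.2, v l.1 l.2]
  map_add' v w := by
    ext m
    fin_cases m <;> simp
  map_smul' c v := by
    ext m
    fin_cases m <;> simp

/-- the coordinate functional of a product of two vectors -/
private noncomputable def Dd (k l : Fin n × I) : ExteriorAlgebra K (Fin n → I → K) →ₗ[K] K :=
  ExteriorAlgebra.liftAlternating (R := K) (M := Fin n → I → K) (N := K)
    (Function.update (fun _ => 0) 2
      ((Matrix.detRowAlternating (n := Fin 2) (R := K)).compLinearMap (cp K k l)))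

omit [Fintype I] [DecidableEq I] in
private theorem Dd_apply (k l : Fin n × I) (v w : Fin n → I → K) :
    Dd k l (ExteriorAlgebra.ι K v * ExteriorAlgebra.ι K w) =
      v k.1 k.2 * w l.1 l.2 - w k.1 k.2 * v l.1 l.2 := by
  have h1 : ExteriorAlgebra.ι K v * ExteriorAlgebra.ι K w = ExteriorAlgebra.ιMulti K 2 ![v, w] := by
    rw [ExteriorAlgebra.ιMulti_apply]
    simp [List.ofFn_succ]
  rw [h1]
  unfold Dd
  rw [ExteriorAlgebra.liftAlternating_apply_ιMulti, Function.update_self,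
    AlternatingMap.compLinearMap_apply]
  have h2 : ∀ M : Fin 2 → Fin 2 → K, Matrix.detRowAlternating M = Matrix.det (Matrix.of M) :=
    fun M => rfl
  rw [h2, Matrix.det_fin_two]
  simp [cp, mul_comm]

/-- induction over products of two vectors -/
private theorem two_ind {V : Type} [AddCommGroup V] [Module K V]
    {P : ExteriorAlgebra K V → Prop}
    (hm : ∀ v w : V, P (ExteriorAlgebra.ι K v * ExteriorAlgebra.ι K w))
    (ha : ∀ x y, P x → P y → P (x + y)) {x : ExteriorAlgebra K V} (hx : x ∈ ⋀[K]^2 V) : P x := by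
  have hx' : x ∈ LinearMap.range (ExteriorAlgebra.ι K (M := V)) *
      LinearMap.range (ExteriorAlgebra.ι K (M := V)) := by
    rw [← pow_two]
    exact hx
  refine Submodule.mul_induction_on hx' ?_ ha
  rintro _ ⟨v, rfl⟩ _ ⟨w, rfl⟩
  exact hm v w

private theorem toLin_apply (S : Matrix I I K) (v : Fin n → I → K) (a : Fin n) (i : I) :
    (Matrix.toLin' S).compLeft (Fin n) v a i = ∑ j, S i j * v a j := by
  rw [LinearMap.compLeft_apply, Function.comp_apply, Matrix.toLin'_apply]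
  rfl

/-- the coordinates of the image -/
private theorem Dd_map (S : Matrix I I K) (a b : Fin n) (i j : I)
    {x : ExteriorAlgebra K (Fin n → I → K)} (hx : x ∈ ⋀[K]^2 (Fin n → I → K)) :
    Dd (a, i) (b, j) (ExteriorAlgebra.map ((Matrix.toLin' S).compLeft (Fin n)) x) =
      ∑ i', ∑ j', S i i' * Dd (a, i') (b, j') x * S j j' := by
  refine two_ind (P := fun x => Dd (a, i) (b, j)
    (ExteriorAlgebra.map ((Matrix.toLin' S).compLeft (Fin n)) x) =
      ∑ i', ∑ j', S i i' * Dd (a, i') (b, j') x * S j j') ?_ ?_ hx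
  · intro v w
    rw [map_mul, ExteriorAlgebra.map_apply_ι, ExteriorAlgebra.map_apply_ι, Dd_apply]
    simp only [Dd_apply, toLin_apply]
    rw [Finset.sum_mul_sum, Finset.sum_mul_sum, ← Finset.sum_sub_distrib]
    refine Finset.sum_congr rfl fun i' _ => ?_
    rw [← Finset.sum_sub_distrib]
    refine Finset.sum_congr rfl fun j' _ => ?_
    ring
  · intro x y hx hy
    simp only [map_add, hx, hy, mul_add, add_mul, Finset.sum_add_distrib]

private theorem vec_eq (v : Fin n → I → K) :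
    ExteriorAlgebra.ι K v = ∑ k : Fin n × I, v k.1 k.2 •
      ExteriorAlgebra.ι K (Pi.single k.1 (Pi.single k.2 (1 : K)) : Fin n → I → K) := by
  simp only [← map_smul, ← map_sum]
  congr 1
  funext a i
  rw [Finset.sum_apply, Finset.sum_apply, Fintype.sum_prod_type, Finset.sum_eq_single a]
  · rw [Finset.sum_eq_single i]
    · simp
    · intro j _ hj
      simp [Pi.single_eq_of_ne (Ne.symm hj)]
    · intro h
      exact absurd (Finset.mem_univ _) h
  · intro b _ hb
    refine Finset.sum_eq_zero fun j _ => ?_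
    simp [Pi.single_eq_of_ne (Ne.symm hb)]
  · intro h
    exact absurd (Finset.mem_univ _) h

/-- an element of degree two is determined by its coordinates -/
private theorem two_rep {x : ExteriorAlgebra K (Fin n → I → K)}
    (hx : x ∈ ⋀[K]^2 (Fin n → I → K)) :
    x + x = ∑ k : Fin n × I, ∑ l : Fin n × I, Dd k l x •
      (ExteriorAlgebra.ι K (Pi.single k.1 (Pi.single k.2 (1 : K)) : Fin n → I → K) *
        ExteriorAlgebra.ι K (Pi.single l.1 (Pi.single l.2 (1 : K)) : Fin n → I → K)) := by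
  refine two_ind (P := fun x => x + x = ∑ k : Fin n × I, ∑ l : Fin n × I, Dd k l x •
      (ExteriorAlgebra.ι K (Pi.single k.1 (Pi.single k.2 (1 : K)) : Fin n → I → K) *
        ExteriorAlgebra.ι K (Pi.single l.1 (Pi.single l.2 (1 : K)) : Fin n → I → K))) ?_ ?_ hx
  · intro v w
    simp only [Dd_apply, sub_smul, Finset.sum_sub_distrib]
    have h1 : ∀ v w : Fin n → I → K, ∑ k : Fin n × I, ∑ l : Fin n × I,
        (v k.1 k.2 * w l.1 l.2) •
        (ExteriorAlgebra.ι K (Pi.single k.1 (Pi.single k.2 (1 : K)) : Fin n → I → K) *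
          ExteriorAlgebra.ι K (Pi.single l.1 (Pi.single l.2 (1 : K)) : Fin n → I → K)) =
        ExteriorAlgebra.ι K v * ExteriorAlgebra.ι K w := by
      intro v w
      conv_rhs => rw [vec_eq v, vec_eq w, Finset.sum_mul_sum]
      refine Finset.sum_congr rfl fun k _ => Finset.sum_congr rfl fun l _ => ?_
      rw [smul_mul_assoc, mul_smul_comm, smul_smul]
    rw [h1 v w, h1 w v]
    have h3 := ExteriorAlgebra.ι_add_mul_swap (R := K) v w
    rw [eq_sub_iff_add_eq, add_assoc, h3, add_zero]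
  · intro x y hx hy
    have e : x + y + (x + y) = (x + x) + (y + y) := by abel
    rw [e, hx, hy]
    simp only [map_add, add_smul, Finset.sum_add_distrib]

private theorem map_two {V : Type} [AddCommGroup V] [Module K V] (f : V →ₗ[K] V)
    {x : ExteriorAlgebra K V} (hx : x ∈ ⋀[K]^2 V) : ExteriorAlgebra.map f x ∈ ⋀[K]^2 V := by
  refine two_ind (P := fun x => ExteriorAlgebra.map f x ∈ ⋀[K]^2 V) ?_ ?_ hx
  · intro v w
    rw [map_mul, ExteriorAlgebra.map_apply_ι, ExteriorAlgebra.map_apply_ι]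
    show _ ∈ (LinearMap.range (ExteriorAlgebra.ι K (M := V))) ^ 2
    rw [pow_two]
    exact Submodule.mul_mem_mul ⟨_, rfl⟩ ⟨_, rfl⟩
  · intro x y hx hy
    rw [map_add]
    exact Submodule.add_mem _ hx hy

/-- the matrix of coordinates for two copies -/
private noncomputable def ww (x : ExteriorAlgebra K (Fin n → I → K)) (a b : Fin n) :
    Matrix I I K := Matrix.of fun i j => Dd (a, i) (b, j) x

private theorem ww_map (S : Matrix I I K) (a b : Fin n)
    {x : ExteriorAlgebra K (Fin n → I → K)} (hx : x ∈ ⋀[K]^2 (Fin n → I → K)) :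
    ww (ExteriorAlgebra.map ((Matrix.toLin' S).compLeft (Fin n)) x) a b =
      S * ww x a b * Sᵀ := by
  ext i j
  unfold ww
  rw [Matrix.of_apply, Dd_map S a b i j hx, Matrix.mul_apply, Finset.sum_comm]
  refine Finset.sum_congr rfl fun j' _ => ?_
  rw [Matrix.mul_apply, Finset.sum_mul]
  rfl

private theorem fixed_of_ww [CharZero K] (S : Matrix I I K)
    {x : ExteriorAlgebra K (Fin n → I → K)} (hx : x ∈ ⋀[K]^2 (Fin n → I → K))
    (h : ∀ a b, S * ww x a b * Sᵀ = ww x a b) :
    ExteriorAlgebra.map ((Matrix.toLin' S).compLeft (Fin n)) x = x := by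
  have h1 := two_rep hx
  have h2 := two_rep (map_two ((Matrix.toLin' S).compLeft (Fin n)) hx)
  have h3 : ∀ k l : Fin n × I, Dd k l (ExteriorAlgebra.map ((Matrix.toLin' S).compLeft (Fin n)) x) =
      Dd k l x := by
    intro k l
    have e1 := ww_map S k.1 l.1 hx
    rw [h] at e1
    have e2 := congrFun (congrFun e1 k.2) l.2
    exact e2
  simp only [h3] at h2
  rw [← h1] at h2
  have h4 : (2 : K) • ExteriorAlgebra.map ((Matrix.toLin' S).compLeft (Fin n)) x =
      (2 : K) • x := by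
    rw [two_smul, two_smul, h2]
  exact (smul_right_injective _ (two_ne_zero (α := K))) h4

end

theorem div_inv (n : ℕ) (S : Matrix I I F) (hS : SpJ ρ.J S)
    (hC : ∀ c : Matrix I I F, ρ.InC c → S * c = c * S)
    (x : ExteriorAlgebra F (Fin n → I → F)) (hx : x ∈ divisorAlg (ρ.act n) (ρ.μ⁻¹)) :
    ExteriorAlgebra.map ((Matrix.toLin' S).compLeft (Fin n)) x = x := by
  have hu : IsUnit ρ.J.det := isUnit_iff_ne_zero.mpr ρ.det
  have hle : divisorAlg (ρ.act n) (ρ.μ⁻¹) ≤ AlgHom.equalizer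
      (ExteriorAlgebra.map ((Matrix.toLin' S).compLeft (Fin n)))
      (AlgHom.id F (ExteriorAlgebra F (Fin n → I → F))) := by
    refine Algebra.adjoin_le ?_
    rintro y ⟨hy2, U, hU⟩
    have hy : y ∈ ⋀[F]^2 (Fin n → I → F) := hy2
    show ExteriorAlgebra.map ((Matrix.toLin' S).compLeft (Fin n)) y = y
    refine fixed_of_ww S hy fun a b => ?_
    -- the matrix commutes with an open subgroup
    have h1 : ρ.InC (ww y a b * ρ.J) := by
      refine ⟨U, fun γ hγ => ?_⟩
      have e1 := hU γ hγ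
      have e0 : ((ρ.μ γ : Fˣ) : F) ≠ 0 := (ρ.μ γ).ne_zero
      have e2 : ExteriorAlgebra.map ((Matrix.toLin' (ρ.M γ)).compLeft (Fin n)) y =
          ((ρ.μ γ : Fˣ) : F) • y := by
        have e3 : ((ρ.μ⁻¹ γ : Fˣ) : F) = ((ρ.μ γ : Fˣ) : F)⁻¹ := by
          rw [MonoidHom.inv_apply, Units.val_inv_eq_inv_val]
        rw [e3, pow_one] at e1
        have e4 : ((ρ.μ γ : Fˣ) : F) • y = ((ρ.μ γ : Fˣ) : F) • (((ρ.μ γ : Fˣ) : F)⁻¹ •
            ExteriorAlgebra.map (ρ.act n γ) y) := by rw [e1]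
        rw [e4, smul_smul, mul_inv_cancel₀ e0, one_smul]
        rfl
      have e5 := ww_map (ρ.M γ) a b hy
      rw [e2] at e5
      have e6 : ww (((ρ.μ γ : Fˣ) : F) • y) a b = ((ρ.μ γ : Fˣ) : F) • ww y a b := by
        ext i j
        simp [ww]
      rw [e6] at e5
      have e7 := ρ.eq γ
      have e8 : ((ρ.μ γ : Fˣ) : F) • (ρ.M γ * (ww y a b * ρ.J)) =
          ((ρ.μ γ : Fˣ) : F) • (ww y a b * ρ.J * ρ.M γ) := by
        calc ((ρ.μ γ : Fˣ) : F) • (ρ.M γ * (ww y a b * ρ.J))
            = ρ.M γ * ww y a b * (((ρ.μ γ : Fˣ) : F) • ρ.J) := by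
              rw [Matrix.mul_smul, Matrix.mul_assoc]
          _ = ρ.M γ * ww y a b * ((ρ.M γ)ᵀ * ρ.J * ρ.M γ) := by rw [e7]
          _ = (ρ.M γ * ww y a b * (ρ.M γ)ᵀ) * (ρ.J * ρ.M γ) := by
              simp only [Matrix.mul_assoc]
          _ = ((ρ.μ γ : Fˣ) : F) • (ww y a b * ρ.J * ρ.M γ) := by
              rw [← e5, Matrix.smul_mul, Matrix.mul_assoc]
      exact smul_right_injective _ e0 e8
    have h2 := hC _ h1
    have hS' : Sᵀ * ρ.J * S = ρ.J := hS
    have h3 : S * (ρ.J⁻¹ * Sᵀ) = ρ.J⁻¹ := by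
      have e1 : (ρ.J⁻¹ * Sᵀ * ρ.J) * S = 1 := by
        calc (ρ.J⁻¹ * Sᵀ * ρ.J) * S = ρ.J⁻¹ * (Sᵀ * ρ.J * S) := by
              simp only [Matrix.mul_assoc]
          _ = 1 := by rw [hS', Matrix.nonsing_inv_mul _ hu]
      have e2 : S * (ρ.J⁻¹ * Sᵀ * ρ.J) = 1 := mul_eq_one_comm.mp e1
      calc S * (ρ.J⁻¹ * Sᵀ) = S * (ρ.J⁻¹ * Sᵀ * ρ.J) * ρ.J⁻¹ := by
            simp only [Matrix.mul_assoc, Matrix.mul_nonsing_inv _ hu, Matrix.mul_one]
        _ = ρ.J⁻¹ := by rw [e2, Matrix.one_mul]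
    calc S * ww y a b * Sᵀ = S * (ww y a b * ρ.J) * (ρ.J⁻¹ * Sᵀ) := by
          rw [← Matrix.mul_assoc S, Matrix.mul_assoc (S * ww y a b), ← Matrix.mul_assoc ρ.J,
            Matrix.mul_nonsing_inv _ hu, Matrix.one_mul]
      _ = ww y a b * ρ.J * (S * (ρ.J⁻¹ * Sᵀ)) := by rw [h2, Matrix.mul_assoc (ww y a b * ρ.J)]
      _ = ww y a b := by
          rw [h3, Matrix.mul_assoc, Matrix.mul_nonsing_inv _ hu, Matrix.mul_one]
  exact hle hx

end Pool.Agent.Lib.MP_640417_ag.Glob
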