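import Pool.Agent.Lib.MP_640417_ag.Glob.GenZ

/-!
# MP_640417_ag, Glob, module GenD (130 lines): descent of a generic element to the base field

`L` is an `F`-subspace of matrices, `X0` a combination over the extension field `K` of elements of `L`.
`X0 = ∑ κ_j (A_j)_K`. As in `GenZ`: `Y = ∑ X_j • A_j`, `g = f1 Y * f2 Y ∈ MvPolynomial ι F`; its value at
`κ` (`MvPolynomial.aeval`) is `f1 X0 * f2 X0 ≠ 0`, so `g ≠ 0`, and `exists_nat` gives `X = ∑ t_j A_j ∈ L`.
`span_of_eq`: let `T : Matrix I I F → W` be `F`-linear, given by a family of equations `φ (Y) = 0`,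
`φ (Y) = ∑ i j, a i j * Y i j` with `a i j ∈ F`; if `X0` satisfies the equations over `K` write the entries of `X0` in an
`F`-basis `κ` of `K`: `X0 = ∑ κ_j (A_j)_K` (finite sum), each `A_j` satisfies the equations by uniqueness.
-/

set_option autoImplicit false

namespace Pool.Agent.Lib.MP_640417_ag.Glob

open Matrix

variable {F : Type} [Field F] [CharZero F] {K : Type} [Field K] [Algebra F K] {I : Type} [Fintype I]
  [DecidableEq I]

/-- solutions over `K` of linear equations over `F` are spanned by solutions over `F` -/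
theorem span_of_eq (E : Set (Matrix I I F)) (X0 : Matrix I I K)
    (h : ∀ a ∈ E, ∑ i, ∑ j, algebraMap F K (a i j) * X0 i j = 0) :
    X0 ∈ Submodule.span K {Y : Matrix I I K | ∃ A : Matrix I I F,
      (∀ a ∈ E, ∑ i, ∑ j, a i j * A i j = 0) ∧ Y = A.map (algebraMap F K)} := by
  classical
  let κ := Module.Basis.ofVectorSpace F K
  let s : Finset (Module.Basis.ofVectorSpaceIndex F K) :=
    Finset.univ.biUnion fun p : I × I => (κ.repr (X0 p.1 p.2)).support
  have hX : X0 = ∑ k ∈ s, κ k • (Matrix.of fun i j => κ.repr (X0 i j) k).map (algebraMap F K) := by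
    ext i j
    rw [Matrix.sum_apply]
    have h1 : X0 i j = ∑ k ∈ s, κ.repr (X0 i j) k • κ k := by
      conv_lhs => rw [← κ.linearCombination_repr (X0 i j), Finsupp.linearCombination_apply]
      apply Finsupp.sum_of_support_subset
      · intro k hk
        exact Finset.mem_biUnion.2 ⟨(i, j), Finset.mem_univ _, hk⟩
      · intro k _
        rw [zero_smul]
    refine h1.trans (Finset.sum_congr rfl fun k _ => ?_)
    rw [Matrix.smul_apply, Matrix.map_apply, Matrix.of_apply, smul_eq_mul, Algebra.smul_def,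
      mul_comm]
  rw [hX]
  refine Submodule.sum_mem _ fun k _ => Submodule.smul_mem _ _ (Submodule.subset_span ?_)
  refine ⟨_, fun a ha => ?_, rfl⟩
  have h2 := congrArg (fun x => κ.repr x k) (h a ha)
  simp only [map_zero, Finsupp.coe_zero, Pi.zero_apply] at h2
  rw [← h2]
  simp only [map_sum, Finsupp.coe_finsetSum, Finset.sum_apply]
  refine Finset.sum_congr rfl fun i _ => Finset.sum_congr rfl fun j _ => ?_
  rw [← Algebra.smul_def, map_smul, Finsupp.smul_apply, smul_eq_mul, Matrix.of_apply]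

theorem gen_descent (L : Submodule F (Matrix I I F)) (X0 : Matrix I I K)
    (hX0 : X0 ∈ Submodule.span K {Y : Matrix I I K | ∃ A ∈ L, Y = A.map (algebraMap F K)})
    (h1 : f1 X0 ≠ 0) (h2 : f2 X0 ≠ 0) : ∃ X ∈ L, f1 X ≠ 0 ∧ f2 X ≠ 0 := by
  classical
  obtain ⟨n, c, g, hg⟩ := Submodule.mem_span_set'.1 hX0
  choose A hA hA' using fun i => (g i).2
  let Y : Matrix I I (MvPolynomial (Fin n) F) :=
    Matrix.of fun p q => ∑ k, MvPolynomial.X k * MvPolynomial.C (A k p q)
  let φ : MvPolynomial (Fin n) F →+* K := (MvPolynomial.aeval c).toRingHom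
  have hY : Y.map φ = X0 := by
    rw [← hg]
    ext p q
    have hYpq : Y p q = ∑ k, MvPolynomial.X k * MvPolynomial.C (A k p q) := rfl
    rw [Matrix.map_apply, Matrix.sum_apply, hYpq, map_sum]
    refine Finset.sum_congr rfl fun k _ => ?_
    rw [hA' k, Matrix.smul_apply, Matrix.map_apply, smul_eq_mul, map_mul]
    congr 1
    · exact MvPolynomial.aeval_X c k
    · exact MvPolynomial.aeval_C c _
  have hne : f1 Y * f2 Y ≠ 0 := by
    intro h0
    have h3 := congrArg φ h0
    rw [map_mul, map_zero, ← f1_map, ← f2_map, hY] at h3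
    exact (mul_ne_zero h1 h2) h3
  obtain ⟨t, ht⟩ := exists_nat _ hne
  let ψ : MvPolynomial (Fin n) F →+* F := MvPolynomial.eval fun i => (t i : F)
  have hY' : Y.map ψ = ∑ k, (t k : F) • A k := by
    ext p q
    have hYpq : Y p q = ∑ k, MvPolynomial.X k * MvPolynomial.C (A k p q) := rfl
    rw [Matrix.map_apply, Matrix.sum_apply, hYpq, map_sum]
    refine Finset.sum_congr rfl fun k _ => ?_
    rw [Matrix.smul_apply, smul_eq_mul, map_mul]
    congr 1
    · exact MvPolynomial.eval_X k
    · exact MvPolynomial.eval_C _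
  have ht' : ψ (f1 Y * f2 Y) ≠ 0 := ht
  rw [map_mul, ← f1_map, ← f2_map, hY'] at ht'
  exact ⟨∑ k, (t k : F) • A k, Submodule.sum_mem _ fun k _ => Submodule.smul_mem _ _ (hA k),
    left_ne_zero_of_mul ht', right_ne_zero_of_mul ht'⟩

private theorem genD_eq1 {S : Type} [CommRing S] (J X : Matrix I I S) (i j : I) :
    ∑ p, ∑ q, ((if q = i then J p j else 0) + (if q = j then J i p else 0)) * X p q =
      (Xᵀ * J + J * X) i j := by
  rw [Matrix.add_apply, Matrix.mul_apply, Matrix.mul_apply, ← Finset.sum_add_distrib]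
  refine Finset.sum_congr rfl fun p _ => ?_
  simp only [add_mul, Finset.sum_add_distrib, ite_mul, zero_mul, Finset.sum_ite_eq',
    Finset.mem_univ, if_true, Matrix.transpose_apply]
  ring

private theorem genD_eq2 {S : Type} [CommRing S] (b X : Matrix I I S) (i j : I) :
    ∑ p, ∑ q, ((if p = i then b q j else 0) - (if q = j then b i p else 0)) * X p q =
      (X * b - b * X) i j := by
  rw [Matrix.sub_apply, Matrix.mul_apply, Matrix.mul_apply]
  have h1 : ∀ p, ∑ q, ((if p = i then b q j else 0) - (if q = j then b i p else 0)) * X p q =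
      (if p = i then ∑ q, b q j * X p q else 0) - b i p * X p j := by
    intro p
    simp only [sub_mul, Finset.sum_sub_distrib, ite_mul, zero_mul, Finset.sum_ite_eq',
      Finset.mem_univ, if_true]
    congr 1
    split_ifs
    · rfl
    · simp
  simp only [h1, Finset.sum_sub_distrib, Finset.sum_ite_eq', Finset.mem_univ, if_true]
  congr 1
  refine Finset.sum_congr rfl fun q _ => ?_
  ring

/-- the case of the centralizer of `C` in the symplectic Lie algebra: linear equations -/
theorem gen_F (J : Matrix I I F) (C : Set (Matrix I I F)) (X0 : Matrix I I K)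
    (hs : X0ᵀ * J.map (algebraMap F K) + J.map (algebraMap F K) * X0 = 0)
    (hC : ∀ b ∈ C, X0 * b.map (algebraMap F K) = b.map (algebraMap F K) * X0)
    (h1 : f1 X0 ≠ 0) (h2 : f2 X0 ≠ 0) :
    ∃ X : Matrix I I F, Xᵀ * J + J * X = 0 ∧ (∀ b ∈ C, X * b = b * X) ∧ f1 X ≠ 0 ∧ f2 X ≠ 0 := by
  classical
  let L : Submodule F (Matrix I I F) :=
    { carrier := {X | Xᵀ * J + J * X = 0 ∧ ∀ b ∈ C, X * b = b * X}
      add_mem' := by
        rintro X Y ⟨hX1, hX2⟩ ⟨hY1, hY2⟩
        refine ⟨?_, fun b hb => ?_⟩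
        · have h3 : (X + Y)ᵀ * J + J * (X + Y) = (Xᵀ * J + J * X) + (Yᵀ * J + J * Y) := by
            rw [Matrix.transpose_add, Matrix.add_mul, Matrix.mul_add]
            abel
          rw [h3, hX1, hY1, add_zero]
        · rw [Matrix.add_mul, Matrix.mul_add, hX2 b hb, hY2 b hb]
      zero_mem' := by
        refine ⟨?_, fun b _ => ?_⟩
        · rw [Matrix.transpose_zero, Matrix.zero_mul, Matrix.mul_zero, add_zero]
        · rw [Matrix.zero_mul, Matrix.mul_zero]
      smul_mem' := by
        rintro c X ⟨hX1, hX2⟩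
        refine ⟨?_, fun b hb => ?_⟩
        · rw [Matrix.transpose_smul, Matrix.smul_mul, Matrix.mul_smul, ← smul_add, hX1, smul_zero]
        · rw [Matrix.smul_mul, Matrix.mul_smul, hX2 b hb] }
  let E : Set (Matrix I I F) :=
    {a | ∃ i j, a = Matrix.of fun p q => (if q = i then J p j else 0) + (if q = j then J i p else 0)} ∪
    {a | ∃ b ∈ C, ∃ i j, a = Matrix.of fun p q =>
      (if p = i then b q j else 0) - (if q = j then b i p else 0)}
  have hE : ∀ a ∈ E, ∑ i, ∑ j, algebraMap F K (a i j) * X0 i j = 0 := by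
    rintro a (⟨i, j, rfl⟩ | ⟨b, hb, i, j, rfl⟩)
    · have h3 := genD_eq1 (J.map (algebraMap F K)) X0 i j
      rw [hs, Matrix.zero_apply] at h3
      rw [← h3]
      refine Finset.sum_congr rfl fun p _ => Finset.sum_congr rfl fun q _ => ?_
      simp only [Matrix.of_apply, map_add, Matrix.map_apply]
      congr 2 <;> split_ifs <;> simp
    · have h3 := genD_eq2 (b.map (algebraMap F K)) X0 i j
      rw [hC b hb, sub_self, Matrix.zero_apply] at h3
      rw [← h3]
      refine Finset.sum_congr rfl fun p _ => Finset.sum_congr rfl fun q _ => ?_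
      simp only [Matrix.of_apply, map_sub, Matrix.map_apply]
      congr 2 <;> split_ifs <;> simp
  have hspan := span_of_eq E X0 hE
  have hle : {Y : Matrix I I K | ∃ A : Matrix I I F,
      (∀ a ∈ E, ∑ i, ∑ j, a i j * A i j = 0) ∧ Y = A.map (algebraMap F K)} ⊆
      {Y : Matrix I I K | ∃ A ∈ L, Y = A.map (algebraMap F K)} := by
    rintro Y ⟨A, hA, rfl⟩
    refine ⟨A, ⟨?_, fun b hb => ?_⟩, rfl⟩
    · ext i j
      rw [← genD_eq1, Matrix.zero_apply]
      exact hA _ (Or.inl ⟨i, j, rfl⟩)
    · rw [← sub_eq_zero]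
      ext i j
      rw [← genD_eq2, Matrix.zero_apply]
      exact hA _ (Or.inr ⟨b, hb, i, j, rfl⟩)
  obtain ⟨X, ⟨hX1, hX2⟩, hX3, hX4⟩ :=
    gen_descent L X0 (Submodule.span_mono hle hspan) h1 h2
  exact ⟨X, hX1, hX2, hX3, hX4⟩

end Pool.Agent.Lib.MP_640417_ag.Glob
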