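import Pool.Agent.Lib.MP_640417_ag.Glob.TanH

/-!
# MP_640417_ag, Glob, module Comm (120 lines): the commutant of the Lie algebra

`InC b`: `b` commutes with an open subgroup.
* `comm_open`: if `b` commutes with all `X ∈ Hh` then it commutes with all `A ∈ Zt` (`Zt_Hh`: `A - s` is in `Hh`),
  and by `Zt_log` and `inj_comm` with all `M γ`, `Sm (‖l‖^2) (M γ - 1)`; these `γ` form an open subgroup
  (`exists_U0` with `r = ‖l‖^2`).
* `comm_small`: the same for one element: the open subgroup `U` of `exists_U0`, and for `γ ∈ U` the element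
  `X = A - s` of `Hh`, `A` from `Zt_log`, `s` from `Zt_Hh`.
* `Hh_comm_C`: `b` commutes with `M γ` for `γ ∈ U`; for `A ∈ Zt`, `Zt_open` gives a sequence in `U` with limit
  `n A`, so `n A b = b n A` and `A b = b A`; so `span Zt` commutes with `b`, and `X + s ∈ span Zt`.
* `inC_conj`: the conjugate of an open subgroup is open (`OpenSubgroup.comap` of the continuous homomorphism
  `MulAut.conj γ⁻¹`, or directly).
-/

set_option autoImplicit false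

namespace Pool.Agent.Lib.MP_640417_ag.Glob

open Filter Topology Matrix

variable {F : Type} [NontriviallyNormedField F] [IsUltrametricDist F] [CompleteSpace F] [CharZero F]
  {I : Type} [Fintype I] [DecidableEq I] {Γ : Type} [Group Γ] [TopologicalSpace Γ]
  (ρ : MRep Γ F I) (l : ℕ) (hl : ‖(l : F)‖ < 1) (hl0 : (l : F) ≠ 0)

include hl hl0 in
theorem Comm_key {γ : Γ} (hγ : Sm (‖(l : F)‖ ^ 2) (ρ.M γ - 1)) :
    ∃ X ∈ ρ.Hh l, ∀ b : Matrix I I F, X * b = b * X → ρ.M γ * b = b * ρ.M γ := by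
  obtain ⟨A, hA, hlim⟩ := Zt_log ρ l hl hl0 γ hγ
  obtain ⟨s, hs⟩ := Zt_Hh ρ l hl hl0 hA
  refine ⟨_, hs, fun b hb => inj_comm l hl hl0 hγ hlim ?_⟩
  rw [Matrix.sub_mul, Matrix.mul_sub, Matrix.smul_mul, Matrix.mul_smul, Matrix.one_mul,
    Matrix.mul_one] at hb
  exact sub_left_injective hb

theorem Comm_pos {l : ℕ} (hl : ‖(l : F)‖ < 1) (hl0 : (l : F) ≠ 0) :
    0 < ‖(l : F)‖ ^ 2 ∧ ‖(l : F)‖ ^ 2 < 1 :=
  ⟨pow_pos (norm_pos_iff.2 hl0) 2, pow_lt_one₀ (norm_nonneg _) hl two_ne_zero⟩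

include hl hl0 in
theorem comm_open : ∃ U : OpenSubgroup Γ, ∀ b : Matrix I I F, (∀ X ∈ ρ.Hh l, X * b = b * X) →
    ∀ γ ∈ U, ρ.M γ * b = b * ρ.M γ := by
  obtain ⟨h1, h2⟩ := Comm_pos hl hl0
  obtain ⟨U, hU⟩ := exists_U0 ρ h1 h2
  refine ⟨U, fun b hb γ hγ => ?_⟩
  obtain ⟨X, hX, h⟩ := Comm_key ρ l hl hl0 ((hU γ).1 hγ)
  exact h b (hb X hX)

include hl hl0 in
theorem comm_small : ∃ U : OpenSubgroup Γ, ∀ γ ∈ U, ∃ X ∈ ρ.Hh l, ∀ b : Matrix I I F,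
    X * b = b * X → ρ.M γ * b = b * ρ.M γ := by
  obtain ⟨h1, h2⟩ := Comm_pos hl hl0
  obtain ⟨U, hU⟩ := exists_U0 ρ h1 h2
  exact ⟨U, fun γ hγ => Comm_key ρ l hl hl0 ((hU γ).1 hγ)⟩

include hl hl0 in
theorem Hh_comm_C [IsTopologicalGroup Γ] [CompactSpace Γ] {X b : Matrix I I F}
    (hX : X ∈ ρ.Hh l) (hb : ρ.InC b) : X * b = b * X := by
  obtain ⟨U, hU⟩ := hb
  obtain ⟨-, s, hs⟩ := hX
  have key : ∀ A ∈ ρ.Zt l, A * b = b * A := by
    intro A hA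
    obtain ⟨n, hn, γ, hγ, hlim⟩ := Zt_open ρ l hl hl0 U hA
    have h1 : Tendsto (fun k => (((l : F) ^ k)⁻¹ • (ρ.M (γ k) - 1)) * b) atTop
        (𝓝 (((n : F) • A) * b)) := hlim.mul_const b
    have h2 : Tendsto (fun k => b * (((l : F) ^ k)⁻¹ • (ρ.M (γ k) - 1))) atTop
        (𝓝 (b * ((n : F) • A))) := hlim.const_mul b
    have h3 : (fun k => (((l : F) ^ k)⁻¹ • (ρ.M (γ k) - 1)) * b) =
        fun k => b * (((l : F) ^ k)⁻¹ • (ρ.M (γ k) - 1)) := by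
      funext k
      rw [Matrix.smul_mul, Matrix.mul_smul, Matrix.sub_mul, Matrix.mul_sub, Matrix.one_mul,
        Matrix.mul_one, hU _ (hγ k)]
    rw [h3] at h1
    have h4 := tendsto_nhds_unique h1 h2
    rw [Matrix.smul_mul, Matrix.mul_smul] at h4
    exact smul_right_injective _ (Nat.cast_ne_zero.2 hn.ne' : (n : F) ≠ 0) h4
  have key2 : (X + s • (1 : Matrix I I F)) * b = b * (X + s • (1 : Matrix I I F)) := by
    refine Submodule.span_induction (p := fun Z _ => Z * b = b * Z) key ?_ ?_ ?_ hs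
    · rw [Matrix.zero_mul, Matrix.mul_zero]
    · intro Y Z _ _ hY hZ
      rw [Matrix.add_mul, Matrix.mul_add, hY, hZ]
    · intro c Y _ hY
      rw [Matrix.smul_mul, Matrix.mul_smul, hY]
  rw [Matrix.add_mul, Matrix.mul_add, Matrix.smul_mul, Matrix.mul_smul, Matrix.one_mul,
    Matrix.mul_one] at key2
  exact add_left_injective _ key2

theorem inC_conj [IsTopologicalGroup Γ] {b : Matrix I I F} (hb : ρ.InC b) (γ : Γ) :
    ρ.InC (ρ.M γ * b * ρ.M γ⁻¹) := by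
  obtain ⟨U, hU⟩ := hb
  have hc : Continuous (MulAut.conj γ⁻¹ : Γ →* Γ) := by
    show Continuous fun x => γ⁻¹ * x * γ⁻¹⁻¹
    fun_prop
  refine ⟨U.comap (MulAut.conj γ⁻¹ : Γ →* Γ) hc, fun δ hδ => ?_⟩
  have h1 : γ⁻¹ * δ * γ⁻¹⁻¹ ∈ U := hδ
  rw [inv_inv] at h1
  have h2 := hU _ h1
  have h3 : ρ.M δ * ρ.M γ = ρ.M γ * ρ.M (γ⁻¹ * δ * γ) := by
    rw [← map_mul, ← map_mul]
    congr 1
    group
  have h4 : ρ.M γ⁻¹ * ρ.M δ = ρ.M (γ⁻¹ * δ * γ) * ρ.M γ⁻¹ := by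
    rw [← map_mul, ← map_mul]
    congr 1
    group
  calc ρ.M δ * (ρ.M γ * b * ρ.M γ⁻¹) = (ρ.M δ * ρ.M γ) * b * ρ.M γ⁻¹ := by
        simp only [Matrix.mul_assoc]
    _ = ρ.M γ * (ρ.M (γ⁻¹ * δ * γ) * b) * ρ.M γ⁻¹ := by
        rw [h3]
        simp only [Matrix.mul_assoc]
    _ = ρ.M γ * b * (ρ.M (γ⁻¹ * δ * γ) * ρ.M γ⁻¹) := by
        rw [h2]
        simp only [Matrix.mul_assoc]
    _ = (ρ.M γ * b * ρ.M γ⁻¹) * ρ.M δ := by
        rw [← h4]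
        simp only [Matrix.mul_assoc]

theorem inC_add {a b : Matrix I I F} (ha : ρ.InC a) (hb : ρ.InC b) : ρ.InC (a + b) := by
  obtain ⟨U, hU⟩ := ha
  obtain ⟨U', hU'⟩ := hb
  refine ⟨U ⊓ U', fun γ hγ => ?_⟩
  rw [Matrix.mul_add, Matrix.add_mul, hU γ hγ.1, hU' γ hγ.2]

theorem inC_mul {a b : Matrix I I F} (ha : ρ.InC a) (hb : ρ.InC b) : ρ.InC (a * b) := by
  obtain ⟨U, hU⟩ := ha
  obtain ⟨U', hU'⟩ := hb
  refine ⟨U ⊓ U', fun γ hγ => ?_⟩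
  rw [← Matrix.mul_assoc, hU γ hγ.1, Matrix.mul_assoc, hU' γ hγ.2, Matrix.mul_assoc]

theorem inC_smul (c : F) {b : Matrix I I F} (hb : ρ.InC b) : ρ.InC (c • b) := by
  obtain ⟨U, hU⟩ := hb
  refine ⟨U, fun γ hγ => ?_⟩
  rw [Matrix.mul_smul, Matrix.smul_mul, hU γ hγ]

theorem inC_one : ρ.InC 1 :=
  ⟨⊤, fun γ _ => by rw [Matrix.mul_one, Matrix.one_mul]⟩

/-- `(a b)ᵀ J = bᵀ aᵀ J = bᵀ J a = J b a`, and `a b` is in `C`, so `(a b)ᵀ J = J a b`; `J` is invertible. -/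
theorem inC_comm (hs : ρ.Symm) {a b : Matrix I I F} (ha : ρ.InC a) (hb : ρ.InC b) :
    a * b = b * a := by
  have h1 := hs (a * b) (inC_mul ρ ha hb)
  rw [Matrix.transpose_mul, Matrix.mul_assoc, hs a ha, ← Matrix.mul_assoc, hs b hb,
    Matrix.mul_assoc] at h1
  have h2 : IsUnit ρ.J.det := isUnit_iff_ne_zero.2 ρ.det
  have h3 := congrArg (fun z => ρ.J⁻¹ * z) h1
  beta_reduce at h3
  rw [Matrix.nonsing_inv_mul_cancel_left _ _ h2, Matrix.nonsing_inv_mul_cancel_left _ _ h2] at h3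
  exact h3.symm

/-- Symmetric and skew: `2 J b = 0`. -/
theorem symm_skew {b : Matrix I I F} (hb : bᵀ * ρ.J = ρ.J * b) (hb' : b ∈ spJ ρ.J) : b = 0 := by
  rw [mem_spJ, hb, ← two_smul F, smul_eq_zero] at hb'
  have h1 : ρ.J * b = 0 := hb'.resolve_left two_ne_zero
  have h2 : IsUnit ρ.J.det := isUnit_iff_ne_zero.2 ρ.det
  have h3 := congrArg (fun z => ρ.J⁻¹ * z) h1
  beta_reduce at h3
  rw [Matrix.nonsing_inv_mul_cancel_left _ _ h2, Matrix.mul_zero] at h3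
  exact h3

end Pool.Agent.Lib.MP_640417_ag.Glob
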