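import Pool.Agent.Lib.MP_640417_ag.Glob.Norm

/-!
# MP_640417_ag, Glob, module Open (100 lines): open subgroups

* `exists_U0`: the set `{γ | Sm r (M γ - 1)}` is a subgroup: products `a b - 1 = (a - 1) b + (b - 1)`, entries of
  `b` have norm `≤ 1`; inverses: let `N` be the maximal norm of the entries of `y = M γ⁻¹ - 1`; from
  `(1 + x)(1 + y) = 1`, `y = - x - x y`, so `N ≤ max r (r N)`, so `N ≤ r` as `r < 1`. It is open: preimage of
  the set of matrices with all `‖A i j - 1 i j‖ ≤ r`, which is open (closed balls of positive radius are open in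
  ultrametric spaces, `IsUltrametricDist.isOpen_closedBall`).
* `exists_pow`: an open subgroup of a compact group has finite index, so has its normal core `N`;
  `γ^[Γ:N] ∈ N` (`Subgroup.pow_index_mem`).
* `Zt_open`: `γ_k` the sequence of `A`, `n` from `exists_pow`: `(M (γ_k)^n - 1) / l^k → n A` because
  `a^n - 1 = (a - 1)(1 + a + ... + a^(n-1))` (`mul_geom_sum`) and `M (γ_k) → 1`
  (`M (γ_k) = 1 + l^k (l^(-k) (M (γ_k) - 1))`, `‖l‖ < 1`).
-/

set_option autoImplicit false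

namespace Pool.Agent.Lib.MP_640417_ag.Glob

open Filter Topology Matrix

variable {F : Type} [NontriviallyNormedField F] [IsUltrametricDist F] {I : Type} [Fintype I]
  [DecidableEq I] {Γ : Type} [Group Γ] [TopologicalSpace Γ]

/-- inverses of matrices near 1 -/
private theorem Sm_inv {r : ℝ} (hr : 0 < r) (hr1 : r < 1) {a b : Matrix I I F} (hab : a * b = 1)
    (ha : Sm r (a - 1)) : Sm r (b - 1) := by
  rcases isEmpty_or_nonempty I with hI | hI
  · intro i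
    exact (hI.false i).elim
  obtain ⟨p, hp⟩ := Finite.exists_max (fun q : I × I => ‖(b - 1) q.1 q.2‖)
  have hN : Sm ‖(b - 1) p.1 p.2‖ (b - 1) := fun i j => hp (i, j)
  have h1 : b - 1 = -(a - 1) - (a - 1) * (b - 1) := by
    have : (a - 1) * (b - 1) = a * b - a - b + 1 := by noncomm_ring
    rw [this, hab]
    abel
  have h2 : Sm (max r (r * ‖(b - 1) p.1 p.2‖)) (b - 1) := by
    have h3 : Sm (max r (r * ‖(b - 1) p.1 p.2‖)) (-(a - 1) - (a - 1) * (b - 1)) :=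
      Sm_sub (Sm_mono (le_max_left _ _) (Sm_neg ha))
        (Sm_mono (le_max_right _ _) (Sm_mul hr.le (norm_nonneg _) ha hN))
    rwa [← h1] at h3
  have h4 := h2 p.1 p.2
  refine Sm_mono ?_ hN
  by_contra h5
  push Not at h5
  rcases le_max_iff.1 h4 with h6 | h6
  · linarith
  · have h7 : 0 < ‖(b - 1) p.1 p.2‖ := hr.trans h5
    nlinarith

theorem exists_U0 (ρ : MRep Γ F I) {r : ℝ} (hr : 0 < r) (hr1 : r < 1) :
    ∃ U : OpenSubgroup Γ, ∀ γ, γ ∈ U ↔ Sm r (ρ.M γ - 1) := by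
  refine ⟨⟨⟨⟨⟨{γ | Sm r (ρ.M γ - 1)}, ?_⟩, ?_⟩, ?_⟩, ?_⟩, fun γ => Iff.rfl⟩
  · intro a b ha hb
    have ha' : Sm r (ρ.M a - 1) := ha
    have hb' : Sm r (ρ.M b - 1) := hb
    show Sm r (ρ.M (a * b) - 1)
    have h1 : ρ.M (a * b) - 1 = (ρ.M a - 1) * ρ.M b + (ρ.M b - 1) := by
      rw [map_mul]
      noncomm_ring
    have h2 : Sm 1 (ρ.M b) := by
      have h3 : ρ.M b = (ρ.M b - 1) + 1 := by abel
      rw [h3]
      exact Sm_add (Sm_mono hr1.le hb') Sm_one
    rw [h1]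
    refine Sm_add ?_ hb'
    have h4 := Sm_mul hr.le zero_le_one ha' h2
    rwa [mul_one] at h4
  · show Sm r (ρ.M 1 - 1)
    rw [map_one, sub_self]
    exact Sm_zero hr.le
  · intro a ha
    exact Sm_inv hr hr1 (a := ρ.M a) (b := ρ.M a⁻¹)
      (by rw [← map_mul, mul_inv_cancel, map_one]) ha
  · show IsOpen {γ | Sm r (ρ.M γ - 1)}
    have h1 : {γ | Sm r (ρ.M γ - 1)} = ⋂ i : I, ⋂ j : I,
        (fun γ => ρ.M γ i j) ⁻¹' (Metric.closedBall ((1 : Matrix I I F) i j) r) := by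
      ext γ
      simp only [Set.mem_setOf_eq, Set.mem_iInter, Set.mem_preimage, Metric.mem_closedBall,
        dist_eq_norm]
      rfl
    rw [h1]
    refine isOpen_iInter_of_finite fun i => isOpen_iInter_of_finite fun j => ?_
    refine (IsUltrametricDist.isOpen_closedBall _ hr.ne').preimage ?_
    exact ρ.cont.matrix_elem i j

theorem exists_pow [IsTopologicalGroup Γ] [CompactSpace Γ] (U : OpenSubgroup Γ) :
    ∃ n : ℕ, 0 < n ∧ ∀ γ : Γ, γ ^ n ∈ U := by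
  have h1 : Finite (Γ ⧸ (U : Subgroup Γ)) := Subgroup.quotient_finite_of_isOpen _ U.isOpen
  have h2 : (U : Subgroup Γ).index ≠ 0 := Subgroup.index_ne_zero_of_finite
  refine ⟨((U : Subgroup Γ).index).factorial, Nat.factorial_pos _, fun γ => ?_⟩
  exact Subgroup.pow_mem_of_index_ne_zero_of_dvd h2 γ fun m hm hm' =>
    Nat.dvd_factorial hm hm'

theorem Zt_tendsto_one (ρ : MRep Γ F I) (l : ℕ) (hl : ‖(l : F)‖ < 1) (hl0 : (l : F) ≠ 0)
    {A : Matrix I I F} {γ : ℕ → Γ}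
    (h : Tendsto (fun k => ((l : F) ^ k)⁻¹ • (ρ.M (γ k) - 1)) atTop (𝓝 A)) :
    Tendsto (fun k => ρ.M (γ k)) atTop (𝓝 1) := by
  have h1 : Tendsto (fun k : ℕ => (l : F) ^ k) atTop (𝓝 0) :=
    tendsto_pow_atTop_nhds_zero_of_norm_lt_one hl
  have h2 := (h1.smul h).add_const (1 : Matrix I I F)
  rw [zero_smul, zero_add] at h2
  refine h2.congr fun k => ?_
  rw [smul_smul, mul_inv_cancel₀ (pow_ne_zero k hl0), one_smul, sub_add_cancel]

theorem Zt_open [IsTopologicalGroup Γ] [CompactSpace Γ] (ρ : MRep Γ F I) (l : ℕ)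
    (hl : ‖(l : F)‖ < 1) (hl0 : (l : F) ≠ 0) (U : OpenSubgroup Γ) {A : Matrix I I F}
    (hA : A ∈ ρ.Zt l) : ∃ n : ℕ, 0 < n ∧ ∃ γ : ℕ → Γ, (∀ k, γ k ∈ U) ∧
      Tendsto (fun k => ((l : F) ^ k)⁻¹ • (ρ.M (γ k) - 1)) atTop (𝓝 ((n : F) • A)) := by
  obtain ⟨n, hn, hU⟩ := exists_pow U
  obtain ⟨γ, hγ⟩ := hA
  refine ⟨n, hn, fun k => γ k ^ n, fun k => hU _, ?_⟩
  have h1 := Zt_tendsto_one ρ l hl hl0 hγ
  have h2 : Tendsto (fun k => ∑ i ∈ Finset.range n, ρ.M (γ k) ^ i) atTop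
      (𝓝 (∑ i ∈ Finset.range n, (1 : Matrix I I F) ^ i)) :=
    tendsto_finsetSum _ fun i _ => h1.pow i
  have h3 := hγ.mul h2
  have h4 : A * ∑ i ∈ Finset.range n, (1 : Matrix I I F) ^ i = (n : F) • A := by
    simp only [one_pow, Finset.sum_const, Finset.card_range]
    rw [mul_smul_comm, mul_one, ← Nat.cast_smul_eq_nsmul F]
  rw [h4] at h3
  refine h3.congr fun k => ?_
  rw [Matrix.smul_mul, mul_geom_sum, map_pow]

end Pool.Agent.Lib.MP_640417_ag.Glob
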