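import Pool.Agent.Lib.MP_640417_ag.Glob.Defs

/-!
# MP_640417_ag, Glob, module Killed (120 lines): Lie algebras of matrices with zero trace form

`R` is a Lie subalgebra of `Matrix I I F` acting on `V = I → F` (through `Matrix.toLin'` / `lieEquivMatrix'`, or work with
`LieSubalgebra F (Module.End F (I → F))`). The trace form of `R` on `V` is zero, so by Mathlib's
`LieModule.isNilpotent_derivedSeries_of_traceForm_eq_zero` (Mathlib/Algebra/Lie/CartanCriterion.lean) `V` is
nilpotent as a module of the derived algebra `R'` of `R`; so is its submodule `W`, and as `W ≠ 0` there is a nonzero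
vector of `W` killed by `R'` (`LieModule.nontrivial_max_triv_of_isNilpotent`). (If `W = V` is easier, note that every
`X ∈ R'` is a nilpotent matrix, so the restrictions to `W` are nilpotent and Engel applies to `W` again; or: nilpotency
of the module gives `k` with `X_1 ... X_k V = 0` for all `X_i ∈ R'`; take a nonzero `X_1 ... X_j w`, `w ∈ W`, with `j`
maximal.)
-/

set_option autoImplicit false

namespace Pool.Agent.Lib.MP_640417_ag.Glob

open Matrix

attribute [local instance 100] LieRing.ofAssociativeRing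



variable {F : Type} [Field F] [CharZero F] {I : Type} [Fintype I] [DecidableEq I]

/-- a Lie algebra of matrices with zero trace form: some vector is killed by all commutators -/
theorem exists_killed (R : Submodule F (Matrix I I F))
    (hR : ∀ X ∈ R, ∀ Y ∈ R, X * Y - Y * X ∈ R) (h0 : ∀ X ∈ R, ∀ Y ∈ R, (X * Y).trace = 0)
    (W : Submodule F (I → F)) (hW : W ≠ ⊥) (hWR : ∀ X ∈ R, ∀ y ∈ W, X *ᵥ y ∈ W) :
    ∃ v ∈ W, v ≠ 0 ∧ ∀ X ∈ R, ∀ Y ∈ R, (X * Y - Y * X) *ᵥ v = 0 := by
  classical
  -- the Lie algebra of endomorphisms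
  let L : LieSubalgebra F (Module.End F (I → F)) :=
    { R.map (Matrix.toLin' : Matrix I I F ≃ₗ[F] Module.End F (I → F)).toLinearMap with
      lie_mem' := by
        rintro _ _ ⟨X, hX, rfl⟩ ⟨Y, hY, rfl⟩
        refine ⟨X * Y - Y * X, hR X hX Y hY, ?_⟩
        show Matrix.toLin' (X * Y - Y * X) = _
        rw [map_sub, Matrix.toLin'_mul, Matrix.toLin'_mul]
        rfl }
  have htr : LieModule.traceForm F L (I → F) = 0 := by
    ext ⟨_, X, hX, rfl⟩ ⟨_, Y, hY, rfl⟩
    rw [LieModule.traceForm_apply_apply]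
    show LinearMap.trace F (I → F) (Matrix.toLin' X ∘ₗ Matrix.toLin' Y) = 0
    rw [← Matrix.toLin'_mul, Matrix.trace_toLin'_eq, h0 X hX Y hY]
  have hnil := LieModule.isNilpotent_derivedSeries_of_traceForm_eq_zero htr
  let D := LieAlgebra.derivedSeries F L 1
  let W' : LieSubmodule F D (I → F) :=
    { W with
      lie_mem := by
        rintro ⟨⟨_, X, hX, rfl⟩, hx⟩ y hy
        exact hWR X hX y hy }
  have hWn : LieModule.IsNilpotent D W' :=
    Function.Injective.lieModuleIsNilpotent (R := F) (f := (LieHom.id : D →ₗ⁅F⁆ D))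
      (g := (W' : Submodule F (I → F)).subtype) (fun x m => rfl) Subtype.val_injective
  have hWne : Nontrivial W' := by
    obtain ⟨y, hy, hy0⟩ := W.exists_mem_ne_zero_of_ne_bot hW
    exact ⟨⟨⟨y, hy⟩, 0, fun h => hy0 (congrArg Subtype.val h)⟩⟩
  have hmt : Nontrivial (LieModule.maxTrivSubmodule F D W') :=
    LieModule.nontrivial_max_triv_of_isNilpotent F D W'
  obtain ⟨⟨⟨v, hv⟩, hvt⟩, hv0⟩ := exists_ne (0 : LieModule.maxTrivSubmodule F D W')
  refine ⟨v, hv, fun h => hv0 ?_, fun X hX Y hY => ?_⟩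
  · subst h
    rfl
  · let X' : L := ⟨Matrix.toLin' X, X, hX, rfl⟩
    let Y' : L := ⟨Matrix.toLin' Y, Y, hY, rfl⟩
    have h1 : ⁅X', Y'⁆ ∈ D := by
      show ⁅X', Y'⁆ ∈ LieAlgebra.derivedSeries F L 1
      rw [LieAlgebra.derivedSeries_def, LieAlgebra.derivedSeriesOfIdeal_succ,
        LieAlgebra.derivedSeriesOfIdeal_zero]
      exact LieSubmodule.lie_mem_lie (LieSubmodule.mem_top _) (LieSubmodule.mem_top _)
    have h2 := (LieModule.mem_maxTrivSubmodule (R := F) (L := D) (M := W') _).mp hvt ⟨_, h1⟩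
    have h3 := congrArg Subtype.val h2
    have h4 : (⁅X', Y'⁆ : L).val v = 0 := h3
    have h5 : ((⁅X', Y'⁆ : L) : Module.End F (I → F)) = Matrix.toLin' (X * Y - Y * X) := by
      rw [map_sub, Matrix.toLin'_mul, Matrix.toLin'_mul]
      rfl
    rw [h5, Matrix.toLin'_apply] at h4
    exact h4

end Pool.Agent.Lib.MP_640417_ag.Glob
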