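import Pool.Agent.Lib.MP_640417_ag.Glob.RadA
import Pool.Agent.Lib.MP_640417_ag.Glob.Killed

/-!
# MP_640417_ag, Glob, module Rad (180 lines): the trace form is nondegenerate on the Lie algebra

Let `R = {X ∈ Hh | tr (X Y) = 0 for all Y ∈ Hh}`.
1. `R` is stable under `X ↦ M γ X (M γ)⁻¹` (`Hh_ad`) and `[X, Y] ∈ R` for `X ∈ Hh`, `Y ∈ R`
   (`Hh_lie`, `tr ([X,Y] Z) = - tr (Y [X,Z])`). Every subspace stable under all `M γ` is stable under `Hh` (`Hh_vec`).
2. `semi_all` with `P = {X Y - Y X | X, Y ∈ R}` and `exists_killed`: `R` is commutative.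
3. Let `B = Algebra.adjoin F R`: a commutative algebra of matrices, stable under conjugation with `M γ`; `N` = the
   nilpotent elements of `B`. `semi_all` with `P = N` and `exists_common` (stable subspaces are stable under `Hh`, so
   under `B`): `N = 0`. So `B` is reduced.
4. Let `γ` be in the open subgroup of `comm_small`, `X ∈ Hh` its element. `[X, R] ⊆ R` by 1., so `[X, B] ⊆ B` (Leibniz
   rule, adjoin induction), so by `deriv_zero` `X` commutes with `B`, and `M γ` commutes with `B`. So all elements of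
   `B` are in `C`.
5. `X ∈ R` is in `C` and commutes with `C`, so symmetric (`ZSymm`), and in `spJ J`: `symm_skew`.
-/

set_option autoImplicit false

namespace Pool.Agent.Lib.MP_640417_ag.Glob

open Filter Topology Matrix

variable {F : Type} [NontriviallyNormedField F] [IsUltrametricDist F] [CompleteSpace F] [CharZero F]
  {I : Type} [Fintype I] [DecidableEq I] {Γ : Type} [Group Γ] [TopologicalSpace Γ]
  (ρ : MRep Γ F I)

/-- The central elements of the commutant are symmetric. -/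
def MRep.ZSymm (ρ : MRep Γ F I) : Prop :=
  ∀ b : Matrix I I F, ρ.InC b → (∀ c, ρ.InC c → b * c = c * b) → bᵀ * ρ.J = ρ.J * b

theorem Hh_nondeg [IsTopologicalGroup Γ] [CompactSpace Γ] (l : ℕ) (hl : ‖(l : F)‖ < 1)
    (hl0 : (l : F) ≠ 0) (hsemi : ρ.Semi) (hs : ρ.ZSymm) (X : Matrix I I F) (hX : X ∈ ρ.Hh l)
    (h0 : ∀ Y ∈ ρ.Hh l, (X * Y).trace = 0) : X = 0 := by
  let R : Submodule F (Matrix I I F) :=
    { carrier := {X | X ∈ ρ.Hh l ∧ ∀ Y ∈ ρ.Hh l, (X * Y).trace = 0}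
      zero_mem' := ⟨Submodule.zero_mem _, fun Y _ => by rw [Matrix.zero_mul, Matrix.trace_zero]⟩
      add_mem' := fun {X Y} hX hY => ⟨Submodule.add_mem _ hX.1 hY.1, fun Z hZ => by
        rw [Matrix.add_mul, Matrix.trace_add, hX.2 Z hZ, hY.2 Z hZ, add_zero]⟩
      smul_mem' := fun c X hX => ⟨Submodule.smul_mem _ c hX.1, fun Z hZ => by
        rw [Matrix.smul_mul, Matrix.trace_smul, hX.2 Z hZ, smul_zero]⟩ }
  have hXR : X ∈ R := ⟨hX, h0⟩
  -- 1. stability
  have hRad : ∀ γ, ∀ X ∈ R, ρ.M γ * X * ρ.M γ⁻¹ ∈ R := by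
    intro γ X hX
    refine ⟨Hh_ad ρ l γ hX.1, fun Y hY => ?_⟩
    have h1 := hX.2 _ (Hh_ad ρ l γ⁻¹ hY)
    rw [inv_inv] at h1
    have h2 : (ρ.M γ * X * ρ.M γ⁻¹ * Y).trace = (X * (ρ.M γ⁻¹ * Y * ρ.M γ)).trace := by
      rw [show ρ.M γ * X * ρ.M γ⁻¹ * Y = ρ.M γ * (X * (ρ.M γ⁻¹ * Y)) by
        simp only [Matrix.mul_assoc], Matrix.trace_mul_comm]
      simp only [Matrix.mul_assoc]
    rw [h2]
    exact h1
  have hRlie : ∀ X ∈ ρ.Hh l, ∀ Y ∈ R, X * Y - Y * X ∈ R := by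
    intro X hX Y hY
    refine ⟨Hh_lie ρ l hl hl0 hX hY.1, fun Z hZ => ?_⟩
    have h1 := hY.2 _ (Hh_lie ρ l hl hl0 hZ hX)
    have h2 : ((X * Y - Y * X) * Z).trace = (Y * (Z * X - X * Z)).trace := by
      rw [Matrix.sub_mul, Matrix.mul_sub, Matrix.trace_sub, Matrix.trace_sub]
      congr 1
      · rw [Matrix.mul_assoc, Matrix.trace_mul_comm, Matrix.mul_assoc]
      · rw [Matrix.mul_assoc]
    rw [h2]
    exact h1
  -- 2. R is commutative
  have hcomm : ∀ X ∈ R, ∀ Y ∈ R, X * Y = Y * X := by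
    have h1 := semi_all ρ hsemi {Z | ∃ X ∈ R, ∃ Y ∈ R, Z = X * Y - Y * X} (by
      rintro γ _ ⟨X, hX, Y, hY, rfl⟩
      refine ⟨_, hRad γ X hX, _, hRad γ Y hY, ?_⟩
      have h2 : ∀ X Y : Matrix I I F, ρ.M γ * X * ρ.M γ⁻¹ * (ρ.M γ * Y * ρ.M γ⁻¹) =
          ρ.M γ * (X * Y) * ρ.M γ⁻¹ := by
        intro X Y
        calc ρ.M γ * X * ρ.M γ⁻¹ * (ρ.M γ * Y * ρ.M γ⁻¹) =
            ρ.M γ * X * (ρ.M γ⁻¹ * ρ.M γ) * Y * ρ.M γ⁻¹ := by simp only [Matrix.mul_assoc]
          _ = _ := by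
            rw [M_inv_mul, Matrix.mul_one]
            simp only [Matrix.mul_assoc]
      rw [h2, h2, Matrix.mul_sub, Matrix.sub_mul]) (by
      intro W hW hWs
      obtain ⟨v, hv, hv0, h2⟩ := exists_killed R (fun X hX Y hY => hRlie X hX.1 Y hY)
        (fun X hX Y hY => hX.2 Y hY.1) W hW (fun X hX y hy => Hh_vec ρ l hX.1 W hWs hy)
      refine ⟨v, hv, hv0, ?_⟩
      rintro _ ⟨X, hX, Y, hY, rfl⟩
      exact h2 X hX Y hY)
    intro X hX Y hY
    exact sub_eq_zero.1 (h1 _ ⟨X, hX, Y, hY, rfl⟩)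
  -- 3. the algebra generated by R
  let B : Subalgebra F (Matrix I I F) := Algebra.adjoin F (R : Set (Matrix I I F))
  have hBc : ∀ X ∈ B, ∀ Y ∈ B, X * Y = Y * X := by
    intro X hX Y hY
    exact Algebra.commute_of_mem_adjoin_of_forall_mem_commute hY fun Z hZ =>
      (Algebra.commute_of_mem_adjoin_of_forall_mem_commute hX fun Z' hZ' =>
        hcomm Z hZ Z' hZ').symm
  have hBad : ∀ γ, ∀ X ∈ B, ρ.M γ * X * ρ.M γ⁻¹ ∈ B := by
    intro γ X hX
    refine Algebra.adjoin_induction (p := fun X _ => ρ.M γ * X * ρ.M γ⁻¹ ∈ B) ?_ ?_ ?_ ?_ hX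
    · intro X hX
      exact Algebra.subset_adjoin (hRad γ X hX)
    · intro c
      rw [Algebra.algebraMap_eq_smul_one, Matrix.mul_smul, Matrix.smul_mul, Matrix.mul_one,
        M_mul_inv]
      exact B.smul_mem B.one_mem c
    · intro X Y _ _ hX hY
      rw [Matrix.mul_add, Matrix.add_mul]
      exact B.add_mem hX hY
    · intro X Y _ _ hX hY
      have h2 : ρ.M γ * (X * Y) * ρ.M γ⁻¹ = ρ.M γ * X * ρ.M γ⁻¹ * (ρ.M γ * Y * ρ.M γ⁻¹) := by
        calc ρ.M γ * (X * Y) * ρ.M γ⁻¹ = ρ.M γ * X * (ρ.M γ⁻¹ * ρ.M γ) * Y * ρ.M γ⁻¹ := by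
              rw [M_inv_mul, Matrix.mul_one]
              simp only [Matrix.mul_assoc]
          _ = _ := by simp only [Matrix.mul_assoc]
      rw [h2]
      exact B.mul_mem hX hY
  have hBW : ∀ X ∈ B, ∀ W : Submodule F (I → F), (∀ γ, ∀ y ∈ W, ρ.M γ *ᵥ y ∈ W) →
      ∀ y ∈ W, X *ᵥ y ∈ W := by
    intro X hX W hW
    refine Algebra.adjoin_induction (p := fun X _ => ∀ y ∈ W, X *ᵥ y ∈ W) ?_ ?_ ?_ ?_ hX
    · intro X hX y hy
      exact Hh_vec ρ l hX.1 W hW hy
    · intro c y hy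
      rw [Algebra.algebraMap_eq_smul_one, Matrix.smul_mulVec, Matrix.one_mulVec]
      exact W.smul_mem c hy
    · intro X Y _ _ hX hY y hy
      rw [Matrix.add_mulVec]
      exact W.add_mem (hX y hy) (hY y hy)
    · intro X Y _ _ hX hY y hy
      rw [← Matrix.mulVec_mulVec]
      exact hX _ (hY y hy)
  have hred : ∀ X ∈ B, IsNilpotent X → X = 0 := by
    have h1 := semi_all ρ hsemi {Z | Z ∈ B ∧ IsNilpotent Z} (by
      rintro γ Z ⟨hZ, m, hm⟩
      refine ⟨hBad γ Z hZ, m, ?_⟩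
      have h3 : ∀ m : ℕ, (ρ.M γ * Z * ρ.M γ⁻¹) ^ m = ρ.M γ * Z ^ m * ρ.M γ⁻¹ := by
        intro m
        induction m with
        | zero => rw [pow_zero, pow_zero, Matrix.mul_one, M_mul_inv]
        | succ m ih =>
          rw [pow_succ, ih, pow_succ]
          calc ρ.M γ * Z ^ m * ρ.M γ⁻¹ * (ρ.M γ * Z * ρ.M γ⁻¹) =
              ρ.M γ * Z ^ m * (ρ.M γ⁻¹ * ρ.M γ) * Z * ρ.M γ⁻¹ := by
                simp only [Matrix.mul_assoc]
            _ = ρ.M γ * (Z ^ m * Z) * ρ.M γ⁻¹ := by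
                rw [M_inv_mul, Matrix.mul_one]
                simp only [Matrix.mul_assoc]
      rw [h3, hm, Matrix.mul_zero, Matrix.zero_mul]) (by
      intro W hW hWs
      let N : Submodule F (Matrix I I F) :=
        { carrier := {Z | Z ∈ B ∧ IsNilpotent Z}
          zero_mem' := ⟨B.zero_mem, IsNilpotent.zero⟩
          add_mem' := fun {X Y} hX hY => ⟨B.add_mem hX.1 hY.1,
            Commute.isNilpotent_add (hBc _ hX.1 _ hY.1) hX.2 hY.2⟩
          smul_mem' := fun c X hX => ⟨B.smul_mem hX.1 c, hX.2.smul c⟩ }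
      exact exists_common N (fun X hX Y hY => hBc X hX.1 Y hY.1) (fun X hX => hX.2) W hW
        (fun X hX y hy => hBW X hX.1 W hWs y hy))
    intro X hX hn
    exact h1 X ⟨hX, hn⟩
  -- 4. all elements of B commute with an open subgroup
  obtain ⟨U, hU⟩ := comm_small ρ l hl hl0
  have hBC : ∀ b ∈ B, ρ.InC b := by
    intro b hb
    refine ⟨U, fun γ hγ => ?_⟩
    obtain ⟨D, hD, h1⟩ := hU γ hγ
    refine h1 b (deriv_zero B hBc hred D ?_ b hb)
    intro b hb
    refine Algebra.adjoin_induction (p := fun X _ => D * X - X * D ∈ B) ?_ ?_ ?_ ?_ hb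
    · intro X hX
      exact Algebra.subset_adjoin (hRlie D hD X hX)
    · intro c
      rw [Algebra.algebraMap_eq_smul_one, Matrix.mul_smul, Matrix.smul_mul, Matrix.mul_one,
        Matrix.one_mul, sub_self]
      exact B.zero_mem
    · intro X Y _ _ hX hY
      rw [Matrix.mul_add, Matrix.add_mul, show D * X + D * Y - (X * D + Y * D) =
        (D * X - X * D) + (D * Y - Y * D) by abel]
      exact B.add_mem hX hY
    · intro X Y hX' hY' hX hY
      have h2 : D * (X * Y) - X * Y * D = (D * X - X * D) * Y + X * (D * Y - Y * D) := by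
        rw [Matrix.sub_mul, Matrix.mul_sub]
        simp only [Matrix.mul_assoc]
        abel
      rw [h2]
      exact B.add_mem (B.mul_mem hX hY') (B.mul_mem hX' hY)
  -- 5.
  exact symm_skew ρ (hs X (hBC X (Algebra.subset_adjoin hXR))
    fun c hc => Hh_comm_C ρ l hl hl0 hX hc) hX.1

end Pool.Agent.Lib.MP_640417_ag.Glob
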