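import Pool.Agent.Lib.MP_640417_ag.Glob.FTwo

/-!
# MP_640417_ag, Glob, module GenZ (130 lines): from the span of an additively closed set to the set

* `exists_nat`: a polynomial over a field of characteristic zero which vanishes at all natural points is zero
  (`MvPolynomial.funext_set` with the infinite set of the natural numbers, or `MvPolynomial.funext` ideas).
* `gen_span`: `X + s = ∑ c_j A_j` with finitely many `A_j ∈ Z`. Let `R = MvPolynomial ι F`,
  `Y = ∑ X_j • A_j ∈ Matrix I I R`, `g = f1 (Y - (tr Y / n)) * f2 (Y - (tr Y / n))`, `n = card I` (if `I` is empty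
  take `A = 0`; all matrices are equal). By `f1_map`, `f2_map` for the evaluation at `c` the value of `g` at `c` is
  `f1 X * f2 X ≠ 0` (`tr (X + s) / n = s`). So `g ≠ 0`, there is a natural point `t` with nonzero value, and
  `A = ∑ t_j A_j ∈ Z`.
-/

set_option autoImplicit false

namespace Pool.Agent.Lib.MP_640417_ag.Glob

open Matrix

variable {F : Type} [Field F] [CharZero F] {I : Type} [Fintype I] [DecidableEq I]

theorem exists_nat {ι : Type} [Finite ι] (g : MvPolynomial ι F) (hg : g ≠ 0) :
    ∃ t : ι → ℕ, MvPolynomial.eval (fun i => (t i : F)) g ≠ 0 := by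
  by_contra hcon
  push Not at hcon
  apply hg
  refine MvPolynomial.funext_set (fun _ : ι => Set.range (Nat.cast : ℕ → F))
    (fun _ => Set.infinite_range_of_injective Nat.cast_injective) ?_
  intro x hx
  have h1 : ∀ i : ι, ∃ k : ℕ, (k : F) = x i := fun i => hx i (Set.mem_univ i)
  choose t ht using h1
  have h2 : x = fun i => (t i : F) := by
    funext i
    exact (ht i).symm
  rw [map_zero, h2]
  exact hcon t

private theorem nsmul_mem_of (Z : Set (Matrix I I F)) (h0 : (0 : Matrix I I F) ∈ Z)
    (hadd : ∀ A ∈ Z, ∀ B ∈ Z, A + B ∈ Z) {A : Matrix I I F} (hA : A ∈ Z) (k : ℕ) :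
    k • A ∈ Z := by
  induction k with
  | zero =>
    rw [zero_smul]
    exact h0
  | succ k ih =>
    rw [succ_nsmul]
    exact hadd _ ih _ hA

private theorem sum_mem_of (Z : Set (Matrix I I F)) (h0 : (0 : Matrix I I F) ∈ Z)
    (hadd : ∀ A ∈ Z, ∀ B ∈ Z, A + B ∈ Z) {ι : Type} (w : Finset ι) (A : ι → Matrix I I F)
    (hA : ∀ i, A i ∈ Z) (t : ι → ℕ) : (∑ i ∈ w, t i • A i) ∈ Z := by
  classical
  induction w using Finset.induction_on with
  | empty =>
    rw [Finset.sum_empty]
    exact h0
  | insert a w ha ih =>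
    rw [Finset.sum_insert ha]
    exact hadd _ (nsmul_mem_of Z h0 hadd (hA a) (t a)) _ ih

/-- the generic traceless combination -/
private noncomputable def gY {n : ℕ} (A : Fin n → Matrix I I F) :
    Matrix I I (MvPolynomial (Fin n) F) :=
  ∑ j, (MvPolynomial.X j : MvPolynomial (Fin n) F) • (A j).map MvPolynomial.C

private noncomputable def gT {n : ℕ} (A : Fin n → Matrix I I F) :
    Matrix I I (MvPolynomial (Fin n) F) :=
  gY A - (MvPolynomial.C ((Fintype.card I : F)⁻¹) * (gY A).trace) •
    (1 : Matrix I I (MvPolynomial (Fin n) F))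

private theorem gY_map {n : ℕ} (A : Fin n → Matrix I I F) (v : Fin n → F) :
    (gY A).map (MvPolynomial.eval v) = ∑ j, v j • A j := by
  ext a b
  simp only [gY, Matrix.map_apply, Matrix.sum_apply, Matrix.smul_apply, smul_eq_mul, map_sum,
    map_mul, MvPolynomial.eval_X, MvPolynomial.eval_C]

private theorem gT_map {n : ℕ} (A : Fin n → Matrix I I F) (v : Fin n → F) :
    (gT A).map (MvPolynomial.eval v) = (∑ j, v j • A j) -
      ((∑ j, v j • A j).trace / (Fintype.card I : F)) • (1 : Matrix I I F) := by
  have h1 : MvPolynomial.eval v ((gY A).trace) = (∑ j, v j • A j).trace := by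
    rw [← gY_map A v, Matrix.trace, Matrix.trace, map_sum]
    rfl
  rw [← gY_map A v]
  rw [← gY_map A v] at h1
  ext a b
  simp only [gT, Matrix.map_apply, Matrix.sub_apply, Matrix.smul_apply, smul_eq_mul, map_sub,
    map_mul, MvPolynomial.eval_C, h1]
  rw [div_eq_inv_mul]
  by_cases hab : a = b
  · subst hab
    rw [Matrix.one_apply_eq, Matrix.one_apply_eq, map_one]
  · rw [Matrix.one_apply_ne hab, Matrix.one_apply_ne hab, map_zero]

theorem gen_span (Z : Set (Matrix I I F)) (h0 : (0 : Matrix I I F) ∈ Z)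
    (hadd : ∀ A ∈ Z, ∀ B ∈ Z, A + B ∈ Z) (X : Matrix I I F) (s : F)
    (hX : X + s • (1 : Matrix I I F) ∈ Submodule.span F Z) (htr : X.trace = 0)
    (h1 : f1 X ≠ 0) (h2 : f2 X ≠ 0) :
    ∃ A ∈ Z, f1 (A - (A.trace / (Fintype.card I : F)) • (1 : Matrix I I F)) ≠ 0 ∧
      f2 (A - (A.trace / (Fintype.card I : F)) • (1 : Matrix I I F)) ≠ 0 := by
  rcases isEmpty_or_nonempty I with hI | hI
  · refine ⟨0, h0, ?_, ?_⟩
    · rw [Subsingleton.elim ((0 : Matrix I I F) -
        ((0 : Matrix I I F).trace / (Fintype.card I : F)) • (1 : Matrix I I F)) X]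
      exact h1
    · rw [Subsingleton.elim ((0 : Matrix I I F) -
        ((0 : Matrix I I F).trace / (Fintype.card I : F)) • (1 : Matrix I I F)) X]
      exact h2
  · obtain ⟨n, c, A, hc⟩ := Submodule.mem_span_set'.mp hX
    have hcard : (Fintype.card I : F) ≠ 0 := by
      exact_mod_cast Fintype.card_ne_zero
    have hval : ∀ v : Fin n → F, (gT (fun j => (A j : Matrix I I F))).map
        (MvPolynomial.eval v) = (∑ j, v j • (A j : Matrix I I F)) -
        ((∑ j, v j • (A j : Matrix I I F)).trace / (Fintype.card I : F)) •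
          (1 : Matrix I I F) := fun v => gT_map (fun j => (A j : Matrix I I F)) v
    have hcX : (gT (fun j => (A j : Matrix I I F))).map (MvPolynomial.eval c) = X := by
      rw [hval c, hc]
      have h3 : (X + s • (1 : Matrix I I F)).trace = s * (Fintype.card I : F) := by
        rw [Matrix.trace_add, htr, zero_add, Matrix.trace_smul, Matrix.trace_one, smul_eq_mul]
      rw [h3, mul_div_assoc, div_self hcard, mul_one, add_sub_cancel_right]
    set g : MvPolynomial (Fin n) F := f1 (gT (fun j => (A j : Matrix I I F))) *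
      f2 (gT (fun j => (A j : Matrix I I F))) with hg
    have hgv : ∀ v : Fin n → F, MvPolynomial.eval v g =
        f1 ((∑ j, v j • (A j : Matrix I I F)) -
        ((∑ j, v j • (A j : Matrix I I F)).trace / (Fintype.card I : F)) •
          (1 : Matrix I I F)) * f2 ((∑ j, v j • (A j : Matrix I I F)) -
        ((∑ j, v j • (A j : Matrix I I F)).trace / (Fintype.card I : F)) •
          (1 : Matrix I I F)) := by
      intro v
      rw [hg, map_mul, ← f1_map, ← f2_map, hval v]
    have hg0 : g ≠ 0 := by
      intro h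
      have h4 : MvPolynomial.eval c g = f1 X * f2 X := by
        rw [hg, map_mul, ← f1_map, ← f2_map, hcX]
      rw [h, map_zero] at h4
      exact mul_ne_zero h1 h2 h4.symm
    obtain ⟨t, ht⟩ := exists_nat g hg0
    rw [hgv] at ht
    have hsum : (∑ j, (t j : F) • (A j : Matrix I I F)) =
        ∑ j ∈ Finset.univ, t j • (A j : Matrix I I F) := by
      apply Finset.sum_congr rfl
      intro j _
      exact Nat.cast_smul_eq_nsmul F (t j) (A j : Matrix I I F)
    refine ⟨∑ j, (t j : F) • (A j : Matrix I I F), ?_, left_ne_zero_of_mul ht,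
      right_ne_zero_of_mul ht⟩
    rw [hsum]
    exact sum_mem_of Z h0 hadd Finset.univ (fun j => (A j : Matrix I I F))
      (fun j => (A j).2) t

end Pool.Agent.Lib.MP_640417_ag.Glob
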