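import Pool.Agent.Lib.MP_640417_ag.Glob.Defs

/-!
# MP_640417_ag, Glob, module Cnt (150 lines): the number of trivial relations

`T0 c` = the quadruples `(a, b, u, v)` in which two disjoint pairs are exchanged by the involution `c`.
`card_T0`: three sets of `n^2` elements, each two of them have `n` common elements (e.g. `b = u = c a`, `v = a`),
the three have no common element (`b = u = v = c a` and `v = c u` give `c (c a) = c a`): `3 n^2 - 3 n`.
`coeff_zero_count`: the characteristic polynomial of a diagonal matrix is `∏ (X - d x)`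
(`Matrix.charpoly_of_upperTriangular` or `charpoly_diagonal`); if more than `m` of the `d x` are zero, `X^(m+1)` divides
it, so the coefficient number `m` is zero.
`coeff_zero_ne`: if exactly `m` of the `d x` are zero the coefficient is the product of the other `- d x`.
-/

set_option autoImplicit false

namespace Pool.Agent.Lib.MP_640417_ag.Glob

open Matrix Polynomial

variable {I : Type} [Fintype I] [DecidableEq I]

/-- the trivial quadruples -/
def T0 (c : I → I) : Finset (I × I × I × I) :=
  Finset.univ.filter fun x => (x.2.1 = c x.1 ∧ x.2.2.2 = c x.2.2.1) ∨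
    (x.2.2.1 = c x.1 ∧ x.2.2.2 = c x.2.1) ∨ (x.2.2.2 = c x.1 ∧ x.2.2.1 = c x.2.1)

theorem card_T0 (c : I → I) (hc : ∀ i, c (c i) = i) (hne : ∀ i, c i ≠ i) :
    (T0 c).card = nt I := by
  have hA : (Finset.univ.filter fun x : I × I × I × I =>
      x.2.1 = c x.1 ∧ x.2.2.2 = c x.2.2.1).card = Fintype.card I * Fintype.card I := by
    rw [← Fintype.card_prod, ← Finset.card_univ]
    symm
    apply Finset.card_bij (fun (p : I × I) _ => (p.1, c p.1, p.2, c p.2))
    · intro p _; simp
    · rintro ⟨a, b⟩ _ ⟨a', b'⟩ _ h; simp at h ⊢; exact ⟨h.1, h.2.2.1⟩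
    · rintro ⟨a, b, u, v⟩ h
      simp at h
      exact ⟨(a, u), Finset.mem_univ _, by simp [h.1, h.2]⟩
  have hB : (Finset.univ.filter fun x : I × I × I × I =>
      x.2.2.1 = c x.1 ∧ x.2.2.2 = c x.2.1).card = Fintype.card I * Fintype.card I := by
    rw [← Fintype.card_prod, ← Finset.card_univ]
    symm
    apply Finset.card_bij (fun (p : I × I) _ => (p.1, p.2, c p.1, c p.2))
    · intro p _; simp
    · rintro ⟨a, b⟩ _ ⟨a', b'⟩ _ h; simp at h ⊢; exact ⟨h.1, h.2.1⟩
    · rintro ⟨a, b, u, v⟩ h
      simp at h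
      exact ⟨(a, b), Finset.mem_univ _, by simp [h.1, h.2]⟩
  have hC : (Finset.univ.filter fun x : I × I × I × I =>
      x.2.2.2 = c x.1 ∧ x.2.2.1 = c x.2.1).card = Fintype.card I * Fintype.card I := by
    rw [← Fintype.card_prod, ← Finset.card_univ]
    symm
    apply Finset.card_bij (fun (p : I × I) _ => (p.1, p.2, c p.2, c p.1))
    · intro p _; simp
    · rintro ⟨a, b⟩ _ ⟨a', b'⟩ _ h; simp at h ⊢; exact ⟨h.1, h.2.1⟩
    · rintro ⟨a, b, u, v⟩ h
      simp at h
      exact ⟨(a, b), Finset.mem_univ _, by simp [h.1, h.2]⟩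
  set A := Finset.univ.filter fun x : I × I × I × I => x.2.1 = c x.1 ∧ x.2.2.2 = c x.2.2.1
    with hAd
  set B := Finset.univ.filter fun x : I × I × I × I => x.2.2.1 = c x.1 ∧ x.2.2.2 = c x.2.1
    with hBd
  set C := Finset.univ.filter fun x : I × I × I × I => x.2.2.2 = c x.1 ∧ x.2.2.1 = c x.2.1
    with hCd
  have hT : T0 c = (A ∪ B) ∪ C := by
    ext x
    simp only [T0, hAd, hBd, hCd, Finset.mem_union, Finset.mem_filter, Finset.mem_univ, true_and,
      or_assoc]
  have hAB : (A ∩ B).card = Fintype.card I := by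
    rw [← Finset.card_univ (α := I)]
    symm
    apply Finset.card_bij (fun (a : I) _ => (a, c a, c a, a))
    · intro a _; simp [hAd, hBd, hc]
    · intro a _ a' _ h; simp at h; exact h.1
    · rintro ⟨a, b, u, v⟩ h
      simp [hAd, hBd] at h
      obtain ⟨⟨h1, h2⟩, h3, h4⟩ := h
      exact ⟨a, Finset.mem_univ _, by simp [h1, h2, h3, hc]⟩
  have hAC : (A ∩ C).card = Fintype.card I := by
    rw [← Finset.card_univ (α := I)]
    symm
    apply Finset.card_bij (fun (a : I) _ => (a, c a, a, c a))
    · intro a _; simp [hAd, hCd, hc]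
    · intro a _ a' _ h; simp at h; exact h.1
    · rintro ⟨a, b, u, v⟩ h
      simp [hAd, hCd] at h
      obtain ⟨⟨h1, h2⟩, h3, h4⟩ := h
      exact ⟨a, Finset.mem_univ _, by simp [h1, h3, h4, hc]⟩
  have hBC : (B ∩ C).card = Fintype.card I := by
    rw [← Finset.card_univ (α := I)]
    symm
    apply Finset.card_bij (fun (a : I) _ => (a, a, c a, c a))
    · intro a _; simp [hBd, hCd]
    · intro a _ a' _ h; simp at h; exact h.1
    · rintro ⟨a, b, u, v⟩ h
      simp [hBd, hCd] at h
      obtain ⟨⟨h1, h2⟩, h3, h4⟩ := h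
      have hab : b = a := by rw [← hc b, ← h4, h1, hc]
      exact ⟨a, Finset.mem_univ _, by simp [h1, h3, hab]⟩
  have hdis : Disjoint (A ∩ C) (B ∩ C) := by
    rw [Finset.disjoint_left]
    rintro ⟨a, b, u, v⟩ h1 h2
    simp [hAd, hBd, hCd] at h1 h2
    obtain ⟨⟨h11, h12⟩, h13, h14⟩ := h1
    obtain ⟨⟨h21, h22⟩, h23, h24⟩ := h2
    have : c (c a) = c a := by rw [← h21, ← h12, h13, ← h21]
    exact hne _ this
  have h1 := Finset.card_union_add_card_inter A B
  have h2 := Finset.card_union_add_card_inter (A ∪ B) C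
  rw [Finset.union_inter_distrib_right, Finset.card_union_of_disjoint hdis] at h2
  rw [← hT] at h2
  unfold nt
  rw [hAB, hA, hB] at h1
  rw [hAC, hBC, hC] at h2
  have hn : 3 * Fintype.card I * (Fintype.card I - 1) =
      3 * (Fintype.card I * Fintype.card I) - 3 * Fintype.card I := by
    rw [Nat.mul_sub, mul_one, mul_assoc]
  rw [hn]
  omega

theorem coeff_zero_count {κ : Type} [Fintype κ] [DecidableEq κ] {K : Type} [Field K]
    [DecidableEq K] (d : κ → K) (m : ℕ) (h : (Matrix.diagonal d).charpoly.coeff m ≠ 0) :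
    (Finset.univ.filter fun x => d x = 0).card ≤ m := by
  by_contra hlt
  push Not at hlt
  apply h
  rw [Matrix.charpoly_diagonal, ← Finset.prod_filter_mul_prod_filter_not Finset.univ
    (fun x => d x = 0)]
  have h1 : ∏ x ∈ Finset.univ.filter (fun x => d x = 0), (X - C (d x)) =
      X ^ (Finset.univ.filter fun x => d x = 0).card := by
    rw [← Finset.prod_const]
    apply Finset.prod_congr rfl
    intro x hx
    rw [(Finset.mem_filter.mp hx).2, map_zero, sub_zero]
  rw [h1, Polynomial.coeff_X_pow_mul', if_neg (by omega)]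

theorem coeff_zero_ne {κ : Type} [Fintype κ] [DecidableEq κ] {K : Type} [Field K]
    [DecidableEq K] (d : κ → K) (m : ℕ) (h : (Finset.univ.filter fun x => d x = 0).card = m) :
    (Matrix.diagonal d).charpoly.coeff m ≠ 0 := by
  rw [Matrix.charpoly_diagonal, ← Finset.prod_filter_mul_prod_filter_not Finset.univ
    (fun x => d x = 0)]
  have h1 : ∏ x ∈ Finset.univ.filter (fun x => d x = 0), (X - C (d x)) =
      X ^ (Finset.univ.filter fun x => d x = 0).card := by
    rw [← Finset.prod_const]
    apply Finset.prod_congr rfl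
    intro x hx
    rw [(Finset.mem_filter.mp hx).2, map_zero, sub_zero]
  rw [h1, h, Polynomial.coeff_X_pow_mul', if_pos le_rfl, Nat.sub_self,
    Polynomial.coeff_zero_prod, Finset.prod_ne_zero_iff]
  intro x hx
  have hx' := (Finset.mem_filter.mp hx).2
  simpa using hx'

end Pool.Agent.Lib.MP_640417_ag.Glob
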