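import Pool.Agent.Lib.MP_640417_ag.Glob.Defs

/-!
# MP_640417_ag, Glob, module Cont (80 lines): continuity of the coefficients of the characteristic polynomial

* `coeff_cont`: `Y ↦ Y.charpoly.coeff m` is a polynomial in the entries (`Matrix.charpoly.univ` and its evaluation, or
  expand the determinant: `coeff` of a finite sum of products; continuity by induction over finite products).
* `f1_cont`: `aeval Y (derivative χ)` is a finite sum of coefficients times powers of `Y`
  (`Polynomial.aeval_eq_sum_range'` with a common degree bound).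
* `coeff_smul_zero`: the coefficient number `m` of the characteristic polynomial of `c Y` is `c^(n - m)` times that of `Y`
  (`n = card κ`, `m ≤ n`), both are zero for `m > n` (`Matrix.charpoly_natDegree_eq_dim`; e.g.
  `(c • Y).charpoly.comp (C c * X) = C (c^n) * Y.charpoly`).
-/

set_option autoImplicit false

namespace Pool.Agent.Lib.MP_640417_ag.Glob

open Filter Topology Matrix

variable {F : Type} [NontriviallyNormedField F] {I : Type} [Fintype I] [DecidableEq I]

private theorem univ_eval {κ : Type} [Fintype κ] [DecidableEq κ] (m : ℕ) (Y : Matrix κ κ F) :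
    MvPolynomial.eval (fun p : κ × κ => Y p.1 p.2) ((Matrix.charpoly.univ F κ).coeff m) =
      Y.charpoly.coeff m := by
  have h := Matrix.charpoly.univ_coeff_eval₂Hom (R := F) (S := F) κ (RingHom.id F)
    (fun p : κ × κ => Y p.1 p.2) m
  have h2 : Matrix.of (Function.curry fun p : κ × κ => Y p.1 p.2) = Y := by
    ext i j
    rfl
  rw [h2] at h
  exact h

theorem coeff_cont {κ : Type} [Fintype κ] [DecidableEq κ] (m : ℕ) :
    Continuous fun Y : Matrix κ κ F => Y.charpoly.coeff m := by
  have h : (fun Y : Matrix κ κ F => Y.charpoly.coeff m) =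
      fun Y : Matrix κ κ F => MvPolynomial.eval (fun p : κ × κ => Y p.1 p.2)
        ((Matrix.charpoly.univ F κ).coeff m) := by
    funext Y
    rw [univ_eval]
  rw [h]
  apply (MvPolynomial.continuous_eval _).comp
  apply continuous_pi
  intro p
  exact (continuous_apply p.2).comp (continuous_apply p.1)

theorem f1_cont : Continuous fun Y : Matrix I I F => f1 Y := by
  have h : (fun Y : Matrix I I F => f1 Y) = fun Y : Matrix I I F =>
      (∑ i ∈ Finset.range (Fintype.card I + 1),
        (Y.charpoly.coeff (i + 1) * ((i : F) + 1)) • Y ^ i).det := by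
    funext Y
    unfold f1
    rw [Polynomial.aeval_eq_sum_range' (n := Fintype.card I + 1)]
    · congr 1
      refine Finset.sum_congr rfl fun i _ => ?_
      rw [Polynomial.coeff_derivative]
    · have h1 := Polynomial.natDegree_derivative_le Y.charpoly
      rw [Matrix.charpoly_natDegree_eq_dim] at h1
      omega
  rw [h]
  apply Continuous.matrix_det
  apply continuous_finsetSum
  intro i _
  exact ((coeff_cont (i + 1)).mul continuous_const).smul (continuous_id.pow i)

/-- the vanishing of a coefficient is invariant under scaling -/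
theorem coeff_smul_zero {κ : Type} [Fintype κ] [DecidableEq κ] (m : ℕ) (c : F) (hc : c ≠ 0)
    (Y : Matrix κ κ F) (h : (c • Y).charpoly.coeff m = 0) : Y.charpoly.coeff m = 0 := by
  rcases Nat.lt_or_ge (Fintype.card κ) m with hm | hm
  · apply Polynomial.coeff_eq_zero_of_natDegree_lt
    rw [Matrix.charpoly_natDegree_eq_dim]
    exact hm
  · obtain ⟨j, hj⟩ : ∃ j, m + j = Fintype.card κ := ⟨Fintype.card κ - m, by omega⟩
    have hhom := Matrix.charpoly.univ_coeff_isHomogeneous F κ m j hj
    rw [← univ_eval] at h ⊢
    rw [MvPolynomial.eval_eq'] at h ⊢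
    have h1 : ∑ d ∈ ((Matrix.charpoly.univ F κ).coeff m).support,
        ((Matrix.charpoly.univ F κ).coeff m).coeff d *
          ∏ i : κ × κ, ((c • Y) i.1 i.2) ^ d i = c ^ j *
        ∑ d ∈ ((Matrix.charpoly.univ F κ).coeff m).support,
        ((Matrix.charpoly.univ F κ).coeff m).coeff d * ∏ i : κ × κ, (Y i.1 i.2) ^ d i := by
      rw [Finset.mul_sum]
      refine Finset.sum_congr rfl fun d hd => ?_
      have h2 : ∑ i : κ × κ, d i = j := by
        have h3 := hhom (MvPolynomial.mem_support_iff.mp hd)
        rw [← h3, Finsupp.weight_apply, Finsupp.sum_fintype]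
        · simp
        · simp
      have h4 : ∏ i : κ × κ, ((c • Y) i.1 i.2) ^ d i =
          c ^ j * ∏ i : κ × κ, (Y i.1 i.2) ^ d i := by
        rw [← h2, ← Finset.prod_pow_eq_pow_sum, ← Finset.prod_mul_distrib]
        refine Finset.prod_congr rfl fun i _ => ?_
        rw [Matrix.smul_apply, smul_eq_mul, mul_pow]
      rw [h4]
      ring
    rw [h1] at h
    exact (mul_eq_zero.mp h).resolve_left (pow_ne_zero _ hc)

end Pool.Agent.Lib.MP_640417_ag.Glob
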