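import Pool.Agent.Lib.MP_640417_ag.Glob.FTwo

/-!
# MP_640417_ag, Glob, module Diag (150 lines): diagonalization over the algebraic closure

`sep_of_det`: if the characteristic polynomial `χ` of `g` is not separable, `χ` and `χ'` have a common root
`z` in an algebraically closed field `K`; `z` is an eigenvalue: an eigenvector `v` satisfies
`χ'(g) v = χ'(z) v = 0`, so `det χ'(g) = 0`.
`exists_diag`: the roots of `χ` in `K` are simple, `card I` many; choose a bijection `z` of `I` with the roots and
an eigenvector for each root, the columns of `P`; eigenvectors of different eigenvalues are linearly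
independent (`Module.End.eigenvectors_linearIndependent'`), so `det P ≠ 0`.
`sep_affine`: the eigenvalues are different: `f1_diag` over the algebraic closure, `f1_map`, `sep_of_det`.
-/

set_option autoImplicit false

namespace Pool.Agent.Lib.MP_640417_ag.Glob

open Matrix Polynomial

variable {F : Type} [Field F] {I : Type} [Fintype I] [DecidableEq I]

private theorem exists_eigvec {K : Type} [Field K] (A : Matrix I I K) (a : K)
    (ha : A.charpoly.eval a = 0) : ∃ v : I → K, v ≠ 0 ∧ A *ᵥ v = a • v := by
  rw [Matrix.eval_charpoly] at ha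
  obtain ⟨v, hv, hAv⟩ := Matrix.exists_mulVec_eq_zero_iff.mpr ha
  refine ⟨v, hv, ?_⟩
  rw [Matrix.sub_mulVec, Matrix.scalar_apply, Matrix.diagonal_const_mulVec] at hAv
  exact (sub_eq_zero.mp hAv).symm

private theorem eval_map_charpoly (g : Matrix I I F) (a : AlgebraicClosure F)
    (ha : aeval a g.charpoly = 0) :
    (g.map (algebraMap F (AlgebraicClosure F))).charpoly.eval a = 0 := by
  rw [Matrix.charpoly_map, Polynomial.eval_map_algebraMap]
  exact ha

private theorem aeval_mulVec {K : Type} [Field K] (A : Matrix I I K) (a : K) (v : I → K)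
    (h : A *ᵥ v = a • v) (p : K[X]) : (aeval A p) *ᵥ v = p.eval a • v := by
  have h1 := Module.End.aeval_apply_of_mem_apply_eq_smul (f := Matrix.toLin' A) (μ := a) (x := v)
    (p := p) (by rw [Matrix.toLin'_apply]; exact h)
  have h2 : aeval (Matrix.toLin' A) p = Matrix.toLin' (aeval A p) := by
    have := Polynomial.aeval_algHom_apply (Matrix.toLinAlgEquiv' : Matrix I I K ≃ₐ[K] _).toAlgHom
      A p
    exact this
  rw [h2, Matrix.toLin'_apply] at h1
  exact h1

theorem sep_of_det (g : Matrix I I F) (h : f1 g ≠ 0) : g.charpoly.Separable := by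
  refine (Polynomial.isCoprime_iff_aeval_ne_zero_of_isAlgClosed F (AlgebraicClosure F) _ _).mpr ?_
  intro a
  by_contra hcon
  push Not at hcon
  obtain ⟨h1, h2⟩ := hcon
  apply h
  set g' := g.map (algebraMap F (AlgebraicClosure F)) with hg'
  obtain ⟨v, hv, hgv⟩ := exists_eigvec g' a (eval_map_charpoly g a h1)
  have h3 : f1 g' = 0 := by
    rw [f1, ← Matrix.exists_mulVec_eq_zero_iff]
    refine ⟨v, hv, ?_⟩
    rw [aeval_mulVec g' a v hgv, hg', Matrix.charpoly_map, Polynomial.derivative_map,
      Polynomial.eval_map_algebraMap, h2, zero_smul]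
  rw [hg', f1_map, map_eq_zero] at h3
  exact h3

theorem exists_diag (g : Matrix I I F) (h : g.charpoly.Separable) :
    ∃ (z : I → AlgebraicClosure F) (P : Matrix I I (AlgebraicClosure F)), Function.Injective z ∧
      P.det ≠ 0 ∧ g.map (algebraMap F (AlgebraicClosure F)) * P = P * Matrix.diagonal z ∧
      (∀ i, aeval (z i) g.charpoly = 0) ∧
      ∀ a : AlgebraicClosure F, aeval a g.charpoly = 0 → ∃ i, z i = a := by
  classical
  have hcard : Fintype.card I = Fintype.card (g.charpoly.rootSet (AlgebraicClosure F)) := by
    rw [Polynomial.card_rootSet_eq_natDegree h (IsAlgClosed.splits _),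
      Matrix.charpoly_natDegree_eq_dim]
  have e : I ≃ g.charpoly.rootSet (AlgebraicClosure F) := Fintype.equivOfCardEq hcard
  have hne : g.charpoly ≠ 0 := (Matrix.charpoly_monic g).ne_zero
  have hz : Function.Injective (fun i => ((e i : g.charpoly.rootSet (AlgebraicClosure F)) :
      AlgebraicClosure F)) := fun i j hij => e.injective (Subtype.ext hij)
  have hroot : ∀ i, aeval ((e i : g.charpoly.rootSet (AlgebraicClosure F)) :
      AlgebraicClosure F) g.charpoly = 0 := fun i => (Polynomial.mem_rootSet.mp (e i).2).2
  have hev : ∀ i, ∃ v : I → AlgebraicClosure F, v ≠ 0 ∧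
      g.map (algebraMap F (AlgebraicClosure F)) *ᵥ v =
        ((e i : g.charpoly.rootSet (AlgebraicClosure F)) : AlgebraicClosure F) • v :=
    fun i => exists_eigvec _ _ (eval_map_charpoly g _ (hroot i))
  choose v hv hgv using hev
  refine ⟨fun i => e i, Matrix.of fun k i => v i k, hz, ?_, ?_, hroot, ?_⟩
  · have hli : LinearIndependent (AlgebraicClosure F) v :=
      Module.End.eigenvectors_linearIndependent'
        (Matrix.toLin' (g.map (algebraMap F (AlgebraicClosure F))))
        (fun i => ((e i : g.charpoly.rootSet (AlgebraicClosure F)) : AlgebraicClosure F)) hz v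
        (fun i => ⟨Module.End.mem_eigenspace_iff.mpr (by rw [Matrix.toLin'_apply]; exact hgv i),
          hv i⟩)
    have hu : IsUnit (Matrix.of fun k i => v i k : Matrix I I (AlgebraicClosure F)) := by
      rw [← Matrix.linearIndependent_cols_iff_isUnit]
      exact hli
    exact ((Matrix.isUnit_iff_isUnit_det _).mp hu).ne_zero
  · ext k i
    rw [Matrix.mul_diagonal]
    have := congrFun (hgv i) k
    rw [Pi.smul_apply, smul_eq_mul] at this
    rw [Matrix.mul_apply, Matrix.of_apply, mul_comm, ← this]
    rfl
  · intro a ha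
    obtain ⟨i, hi⟩ := e.surjective ⟨a, Polynomial.mem_rootSet.mpr ⟨hne, ha⟩⟩
    exact ⟨i, congrArg Subtype.val hi⟩

theorem sep_affine (X : Matrix I I F) (h : f1 X ≠ 0) (a b : F) (ha : a ≠ 0) :
    (a • X + b • (1 : Matrix I I F)).charpoly.Separable := by
  obtain ⟨z, P, hz, hP, hXP, -, -⟩ := exists_diag X (sep_of_det X h)
  apply sep_of_det
  set φ := algebraMap F (AlgebraicClosure F) with hφ
  have hmap : (a • X + b • (1 : Matrix I I F)).map φ = φ a • X.map φ +
      φ b • (1 : Matrix I I (AlgebraicClosure F)) := by
    ext i j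
    simp only [Matrix.map_apply, Matrix.add_apply, Matrix.smul_apply, smul_eq_mul, map_add, map_mul,
      Matrix.one_apply]
    split_ifs <;> simp
  have hconj : (a • X + b • (1 : Matrix I I F)).map φ * P =
      P * Matrix.diagonal (fun i => φ a * z i + φ b) := by
    rw [hmap, Matrix.add_mul, Matrix.smul_mul, Matrix.smul_mul, hXP, Matrix.one_mul]
    ext k i
    simp only [Matrix.add_apply, Matrix.smul_apply, Matrix.mul_diagonal, smul_eq_mul]
    ring
  have hinj : Function.Injective (fun i => φ a * z i + φ b) := by
    intro i j hij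
    have hij' : φ a * z i + φ b = φ a * z j + φ b := hij
    have ha' : φ a ≠ 0 := by
      rw [Ne, map_eq_zero]
      exact ha
    exact hz (mul_left_cancel₀ ha' (add_right_cancel hij'))
  have h1 := (f1_diag hP hconj).mpr hinj
  intro h0
  apply h1
  rw [f1_map, h0, map_zero]

end Pool.Agent.Lib.MP_640417_ag.Glob
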