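import Mathlib

/-!
# MP_640417_ag, Glob, module Emb (160 lines): tensors of degree four in the exterior algebra

`bv a i` = the vector `e_i` in the copy number `a` of `I → F`. `emb t = ∑ t i j u v e_i ∧ e_j ∧ e_u ∧ e_v` with the
four vectors in the copies `0, 1, 2, 3` of `V = I → F`.
* `emb_mem`: products of four vectors (`ExteriorAlgebra.ιMulti`, `Submodule.pow_mem`..., the definition of
  `⋀[F]^4`: the power of the range of `ι`).
* `emb_map`: `ExteriorAlgebra.map` is an algebra homomorphism, `S e_i = ∑_x S x i e_x`; expand and exchange sums.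
* `emb_inj`: coordinate functional: contractions (`CliffordAlgebra.contractLeft`) with the four coordinates
  `(0, i), (1, j), (2, u), (3, v)`, or the determinant functional
  `exteriorPower.pairingDual` / `ExteriorAlgebra.liftAlternating` of the alternating map
  `(w_1, .., w_4) ↦ det (coordinate (x_k) of w_m)`, `x = ((0,i), (1,j), (2,u), (3,v))`: its value on
  `e_i' ∧ e_j' ∧ e_u' ∧ e_v'` (copies 0, 1, 2, 3) is 1 if the indices agree, else 0 (a diagonal determinant).
-/

set_option autoImplicit false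

namespace Pool.Agent.Lib.MP_640417_ag.Glob

open Matrix

variable {F : Type} [Field F] {I : Type} [Fintype I] [DecidableEq I]

/-- the basis vector `e_i` in the copy `a` -/
noncomputable def bv (F : Type) [Field F] {I : Type} [Fintype I] [DecidableEq I] (a : Fin 4)
    (i : I) : ExteriorAlgebra F (Fin 4 → I → F) :=
  ExteriorAlgebra.ι F (Pi.single a (Pi.single i (1 : F)))

/-- the embedding of tensors -/
noncomputable def emb (t : I → I → I → I → F) : ExteriorAlgebra F (Fin 4 → I → F) :=
  ∑ i, ∑ j, ∑ u, ∑ v, t i j u v • (bv F 0 i * bv F 1 j * bv F 2 u * bv F 3 v)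

/-- the action on tensors -/
def act4 (S : Matrix I I F) (t : I → I → I → I → F) : I → I → I → I → F := fun i j u v =>
  ∑ i', ∑ j', ∑ u', ∑ v', S i i' * S j j' * S u u' * S v v' * t i' j' u' v'

theorem emb_mem (t : I → I → I → I → F) : emb t ∈ ⋀[F]^4 (Fin 4 → I → F) := by
  unfold emb
  refine Submodule.sum_mem _ fun i _ => Submodule.sum_mem _ fun j _ => Submodule.sum_mem _ fun u _ =>
    Submodule.sum_mem _ fun v _ => Submodule.smul_mem _ _ ?_
  have h : ∀ (a : Fin 4) (i : I), bv F a i ∈
      LinearMap.range (ExteriorAlgebra.ι F (M := Fin 4 → I → F)) := fun a i => ⟨_, rfl⟩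
  show _ ∈ (LinearMap.range (ExteriorAlgebra.ι F (M := Fin 4 → I → F))) ^ 4
  rw [pow_succ, pow_succ, pow_succ, pow_one]
  exact Submodule.mul_mem_mul (Submodule.mul_mem_mul (Submodule.mul_mem_mul (h 0 i) (h 1 j))
    (h 2 u)) (h 3 v)

theorem emb_smul (c : F) (t : I → I → I → I → F) :
    emb (fun i j u v => c * t i j u v) = c • emb t := by
  unfold emb
  simp only [Finset.smul_sum, mul_smul]

omit [DecidableEq I] in
private theorem mul4 {E : Type} [Ring E] (x y z w : I → E) :
    (∑ i, x i) * (∑ j, y j) * (∑ u, z u) * (∑ v, w v) =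
      ∑ i, ∑ j, ∑ u, ∑ v, x i * y j * z u * w v := by
  rw [Finset.sum_mul_sum, Finset.sum_mul, Finset.sum_mul]
  refine Finset.sum_congr rfl fun i _ => ?_
  rw [Finset.sum_mul, Finset.sum_mul]
  refine Finset.sum_congr rfl fun j _ => ?_
  rw [Finset.mul_sum Finset.univ z (x i * y j), Finset.sum_mul]
  refine Finset.sum_congr rfl fun u _ => ?_
  rw [Finset.mul_sum]

omit [DecidableEq I] in
private theorem sum4 {E : Type} [AddCommMonoid E] (g : I → I → I → I → E) :
    ∑ i, ∑ j, ∑ u, ∑ v, g i j u v = ∑ p : I × I × I × I, g p.1 p.2.1 p.2.2.1 p.2.2.2 := by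
  simp only [Fintype.sum_prod_type]

private theorem map_bv (S : Matrix I I F) (a : Fin 4) (i' : I) :
    ExteriorAlgebra.map ((Matrix.toLin' S).compLeft (Fin 4)) (bv F a i') =
      ∑ i, S i i' • bv F a i := by
  unfold bv
  rw [ExteriorAlgebra.map_apply_ι]
  simp only [← map_smul, ← map_sum]
  congr 1
  funext b
  funext x
  rw [LinearMap.compLeft_apply, Function.comp_apply, Matrix.toLin'_apply]
  rw [Finset.sum_apply, Finset.sum_apply]
  by_cases h : b = a
  · subst h
    simp only [Pi.single_eq_same, Pi.smul_apply, Matrix.mulVec_single, smul_eq_mul]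
    simp [Pi.single_apply]
  · simp [Pi.single_eq_of_ne h]

theorem emb_map (S : Matrix I I F) (t : I → I → I → I → F) :
    ExteriorAlgebra.map ((Matrix.toLin' S).compLeft (Fin 4)) (emb t) = emb (act4 S t) := by
  unfold emb
  simp only [map_sum, map_smul, map_mul, map_bv]
  have h1 : ∀ i' j' u' v' : I, (∑ i, S i i' • bv F 0 i) * (∑ j, S j j' • bv F 1 j) *
      (∑ u, S u u' • bv F 2 u) * (∑ v, S v v' • bv F 3 v) =
      ∑ i, ∑ j, ∑ u, ∑ v, (S i i' * S j j' * S u u' * S v v') •
        (bv F 0 i * bv F 1 j * bv F 2 u * bv F 3 v) := by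
    intro i' j' u' v'
    rw [mul4]
    refine Finset.sum_congr rfl fun i _ => Finset.sum_congr rfl fun j _ =>
      Finset.sum_congr rfl fun u _ => Finset.sum_congr rfl fun v _ => ?_
    simp only [smul_mul_assoc, mul_smul_comm, smul_smul]
    congr 1
    ring
  simp only [h1]
  unfold act4
  have h2 : ∀ i j u v : I, ∑ i', ∑ j', ∑ u', ∑ v', S i i' * S j j' * S u u' * S v v' *
      t i' j' u' v' = ∑ p : I × I × I × I, S i p.1 * S j p.2.1 * S u p.2.2.1 * S v p.2.2.2 *
        t p.1 p.2.1 p.2.2.1 p.2.2.2 := fun i j u v =>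
    sum4 fun i' j' u' v' => S i i' * S j j' * S u u' * S v v' * t i' j' u' v'
  simp only [h2, Finset.sum_smul]
  rw [sum4 fun i j u v => ∑ p : I × I × I × I, (S i p.1 * S j p.2.1 * S u p.2.2.1 *
    S v p.2.2.2 * t p.1 p.2.1 p.2.2.1 p.2.2.2) • (bv F 0 i * bv F 1 j * bv F 2 u * bv F 3 v)]
  rw [sum4 fun i' j' u' v' => t i' j' u' v' • ∑ i, ∑ j, ∑ u, ∑ v,
    (S i i' * S j j' * S u u' * S v v') • (bv F 0 i * bv F 1 j * bv F 2 u * bv F 3 v)]
  conv_rhs => rw [Finset.sum_comm]
  refine Finset.sum_congr rfl fun p _ => ?_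
  rw [sum4 fun i j u v => (S i p.1 * S j p.2.1 * S u p.2.2.1 * S v p.2.2.2) •
    (bv F 0 i * bv F 1 j * bv F 2 u * bv F 3 v), Finset.smul_sum]
  refine Finset.sum_congr rfl fun q _ => ?_
  rw [smul_smul]
  congr 1
  ring

/-- the coordinates `(k, x k)` -/
private def cproj (F : Type) [Field F] (x : Fin 4 → I) : (Fin 4 → I → F) →ₗ[F] (Fin 4 → F) where
  toFun w k := w k (x k)
  map_add' _ _ := rfl
  map_smul' _ _ := rfl

/-- the determinant functional -/
private noncomputable def coordAlt (x : Fin 4 → I) : (Fin 4 → I → F) [⋀^Fin 4]→ₗ[F] F :=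
  (Matrix.detRowAlternating (n := Fin 4) (R := F)).compLinearMap (cproj F x)

private noncomputable def coordL (x : Fin 4 → I) : ExteriorAlgebra F (Fin 4 → I → F) →ₗ[F] F :=
  ExteriorAlgebra.liftAlternating (R := F) (M := Fin 4 → I → F) (N := F)
    (Function.update (fun _ => 0) 4 (coordAlt x))

private theorem coordL_apply (x : Fin 4 → I) (i j u v : I) :
    coordL x (bv F 0 i * bv F 1 j * bv F 2 u * bv F 3 v) =
      (if i = x 0 then 1 else 0) * (if j = x 1 then 1 else 0) * (if u = x 2 then 1 else 0) *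
        (if v = x 3 then 1 else 0) := by
  have h1 : bv F 0 i * bv F 1 j * bv F 2 u * bv F 3 v = ExteriorAlgebra.ιMulti F 4
      ![Pi.single 0 (Pi.single i (1 : F)), Pi.single 1 (Pi.single j (1 : F)),
        Pi.single 2 (Pi.single u (1 : F)), Pi.single 3 (Pi.single v (1 : F))] := by
    rw [ExteriorAlgebra.ιMulti_apply]
    simp [List.ofFn_succ, bv, mul_assoc]
  rw [h1]
  unfold coordL
  rw [ExteriorAlgebra.liftAlternating_apply_ιMulti, Function.update_self]
  unfold coordAlt
  rw [AlternatingMap.compLinearMap_apply]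
  have h2 : ∀ M : Fin 4 → Fin 4 → F, Matrix.detRowAlternating M = Matrix.det (Matrix.of M) :=
    fun M => rfl
  rw [h2]
  have h3 : (Matrix.of fun m => cproj F x
      ((![Pi.single 0 (Pi.single i (1 : F)), Pi.single 1 (Pi.single j (1 : F)),
        Pi.single 2 (Pi.single u (1 : F)), Pi.single 3 (Pi.single v (1 : F))] :
          Fin 4 → Fin 4 → I → F) m)) =
      Matrix.diagonal ![(if i = x 0 then (1 : F) else 0), (if j = x 1 then 1 else 0),
        (if u = x 2 then 1 else 0), (if v = x 3 then 1 else 0)] := by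
    ext a b
    fin_cases a <;> fin_cases b <;>
      simp [Matrix.diagonal, Pi.single_apply, cproj, eq_comm]
  have h4 := congrArg Matrix.det h3
  refine h4.trans ?_
  rw [Matrix.det_diagonal]
  simp [Fin.prod_univ_four]

private theorem coordL_emb (x : Fin 4 → I) (t : I → I → I → I → F) :
    coordL x (emb t) = t (x 0) (x 1) (x 2) (x 3) := by
  unfold emb
  simp only [map_sum, map_smul, coordL_apply, smul_eq_mul]
  simp [Finset.sum_ite_eq', mul_ite]

theorem emb_inj {t t' : I → I → I → I → F} (h : emb t = emb t') : t = t' := by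
  funext i j u v
  have h1 := congrArg (coordL ![i, j, u, v]) h
  rw [coordL_emb, coordL_emb] at h1
  simpa using h1

end Pool.Agent.Lib.MP_640417_ag.Glob
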