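import Pool.Agent.Lib.MP_640417_ag.Glob.KFour
import Pool.Agent.Lib.MP_640417_ag.Glob.Cnt

/-!
# MP_640417_ag, Glob, module FTwo (150 lines): the functions f1, f2

* `f1_map`, `f2_map`: ring homomorphisms commute with `charpoly` (`Matrix.charpoly_map`), `derivative`, `aeval`, `det`,
  `coeff`; `k4`, `d4` are polynomials in the entries.
* `charpoly_of_conj`: `g = P (diagonal z) P⁻¹`, `Matrix.charpoly_units_conj`.
* `f1_diag`: over a field, if `g P = P (diagonal z)`, `det P ≠ 0`, then `charpoly g = ∏ (X - z i)`,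
  `f1 g = ∏_i χ'(z i)`, not zero if and only if `z` is injective.
* `f2_diag`: `d4 g` is conjugate by `k4 P` (invertible, `k4 P k4 P⁻¹ = 1`) to the diagonal matrix of the sums.
* `charpoly_k4`: the same for `m • k4 (g ^ N) - 1`.
-/

set_option autoImplicit false

namespace Pool.Agent.Lib.MP_640417_ag.Glob

open Matrix Polynomial

section

variable {R : Type} [CommRing R] {I : Type} [Fintype I] [DecidableEq I]

theorem f1_map {R' : Type} [CommRing R'] (φ : R →+* R') (X : Matrix I I R) :
    f1 (X.map φ) = φ (f1 X) := by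
  have h : (algebraMap R' (Matrix I I R')).comp φ =
      (RingHom.mapMatrix φ).comp (algebraMap R (Matrix I I R)) := by
    ext r i j
    simp only [RingHom.comp_apply, RingHom.mapMatrix_apply, Matrix.map_apply,
      Matrix.algebraMap_matrix_apply]
    split_ifs <;> simp
  have h2 := Polynomial.map_aeval_eq_aeval_map h (Polynomial.derivative X.charpoly) X
  rw [f1, f1, Matrix.charpoly_map, Polynomial.derivative_map, RingHom.map_det, h2]
  rfl

theorem f2_map {R' : Type} [CommRing R'] (φ : R →+* R') (X : Matrix I I R) :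
    f2 (X.map φ) = φ (f2 X) := by
  have h : d4 (X.map φ) = (d4 X).map φ := by
    ext x y
    have h1 : ∀ i j : I, φ ((1 : Matrix I I R) i j) = (1 : Matrix I I R') i j := by
      intro i j
      by_cases hij : i = j
      · rw [hij, Matrix.one_apply_eq, Matrix.one_apply_eq, map_one]
      · rw [Matrix.one_apply_ne hij, Matrix.one_apply_ne hij, map_zero]
    simp only [d4, Matrix.of_apply, Matrix.map_apply, map_add, map_mul, h1]
  rw [f2, f2, h, Matrix.charpoly_map, Polynomial.coeff_map]

end

section

variable {K : Type} [Field K] {I : Type} [Fintype I] [DecidableEq I]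

theorem charpoly_of_conj {κ : Type} [Fintype κ] [DecidableEq κ] {g P : Matrix κ κ K} {z : κ → K}
    (hP : P.det ≠ 0) (h : g * P = P * Matrix.diagonal z) :
    g.charpoly = (Matrix.diagonal z).charpoly := by
  have hu : IsUnit P := (Matrix.isUnit_iff_isUnit_det P).mpr (isUnit_iff_ne_zero.mpr hP)
  obtain ⟨U, hU⟩ := hu
  have hg : g = U.val * Matrix.diagonal z * (U⁻¹ : (Matrix κ κ K)ˣ).val := by
    rw [hU, ← h, Matrix.mul_assoc, ← hU, U.mul_inv, Matrix.mul_one]
  rw [hg, ← Matrix.charpoly_units_conj U (Matrix.diagonal z), Matrix.coe_units_inv]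

private theorem aeval_conj {g P : Matrix I I K} {z : I → K} (h : g * P = P * Matrix.diagonal z)
    (p : K[X]) : aeval g p * P = P * Matrix.diagonal (fun i => p.eval (z i)) := by
  induction p using Polynomial.induction_on' with
  | add p q hp hq =>
    rw [map_add, Matrix.add_mul, hp, hq, ← Matrix.mul_add, Matrix.diagonal_add]
    congr 2
    funext i
    rw [Polynomial.eval_add]
  | monomial n a =>
    have hn : ∀ k : ℕ, g ^ k * P = P * Matrix.diagonal (fun i => z i ^ k) := by
      intro k
      induction k with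
      | zero => simp
      | succ k ih =>
        rw [pow_succ, Matrix.mul_assoc, h, ← Matrix.mul_assoc, ih, Matrix.mul_assoc,
          Matrix.diagonal_mul_diagonal]
        congr 2
        funext i
        rw [pow_succ]
    rw [Polynomial.aeval_monomial, Algebra.algebraMap_eq_smul_one, smul_mul_assoc,
      one_mul, Matrix.smul_mul, hn n, ← Matrix.mul_smul, ← Matrix.diagonal_smul]
    congr 2
    funext i
    rw [Polynomial.eval_monomial, Pi.smul_apply, smul_eq_mul]

private theorem eval_deriv (z : I → K) (i : I) :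
    (Polynomial.derivative (∏ k, (X - C (z k)))).eval (z i) =
      ∏ k ∈ Finset.univ.erase i, (z i - z k) := by
  rw [← Finset.mul_prod_erase Finset.univ (fun k => (X - C (z k) : K[X])) (Finset.mem_univ i),
    Polynomial.derivative_mul, Polynomial.eval_add, Polynomial.eval_mul, Polynomial.eval_mul]
  simp [Polynomial.eval_prod]

theorem f1_diag {g P : Matrix I I K} {z : I → K} (hP : P.det ≠ 0)
    (h : g * P = P * Matrix.diagonal z) : f1 g ≠ 0 ↔ Function.Injective z := by
  have h1 : f1 g = ∏ i, ∏ k ∈ Finset.univ.erase i, (z i - z k) := by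
    have h2 := congrArg Matrix.det (aeval_conj h (Polynomial.derivative g.charpoly))
    rw [Matrix.det_mul, Matrix.det_mul, Matrix.det_diagonal, mul_comm] at h2
    have h3 := mul_left_cancel₀ hP h2
    rw [f1, h3]
    apply Finset.prod_congr rfl
    intro i _
    rw [charpoly_of_conj hP h, Matrix.charpoly_diagonal, eval_deriv]
  rw [h1, Finset.prod_ne_zero_iff]
  constructor
  · intro hh i j hij
    by_contra hne
    have := Finset.prod_ne_zero_iff.mp (hh i (Finset.mem_univ i)) j
      (Finset.mem_erase.mpr ⟨fun he => hne he.symm, Finset.mem_univ j⟩)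
    exact this (sub_eq_zero.mpr hij)
  · intro hh i _
    rw [Finset.prod_ne_zero_iff]
    intro j hj
    rw [sub_ne_zero]
    intro hij
    exact (Finset.mem_erase.mp hj).1 (hh hij).symm

private theorem det_k4 {P : Matrix I I K} (hP : P.det ≠ 0) : (k4 P).det ≠ 0 := by
  have h1 : P * P⁻¹ = 1 := Matrix.mul_nonsing_inv P (isUnit_iff_ne_zero.mpr hP)
  have h2 : k4 P * k4 P⁻¹ = 1 := by rw [← k4_mul, h1, k4_one]
  have h3 := congrArg Matrix.det h2
  rw [Matrix.det_mul, Matrix.det_one] at h3
  intro h0
  rw [h0, zero_mul] at h3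
  exact zero_ne_one h3

theorem f2_diag {g P : Matrix I I K} {z : I → K} (hP : P.det ≠ 0)
    (h : g * P = P * Matrix.diagonal z) :
    (d4 g).charpoly = (Matrix.diagonal fun x : I × I × I × I =>
      z x.1 + z x.2.1 + z x.2.2.1 + z x.2.2.2).charpoly := by
  apply charpoly_of_conj (det_k4 hP)
  rw [d4_mul_k4 h, d4_diag]

theorem charpoly_k4 {g P : Matrix I I K} {z : I → K} (hP : P.det ≠ 0)
    (h : g * P = P * Matrix.diagonal z) (m : K) (N : ℕ) :
    (m • k4 (g ^ N) - 1).charpoly = (Matrix.diagonal fun x : I × I × I × I =>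
      m * (z x.1 * z x.2.1 * z x.2.2.1 * z x.2.2.2) ^ N - 1).charpoly := by
  apply charpoly_of_conj (det_k4 hP)
  have hN : g ^ N * P = P * Matrix.diagonal (fun i => z i ^ N) := by
    have := aeval_conj h (X ^ N)
    simpa using this
  rw [Matrix.sub_mul, Matrix.smul_mul, ← k4_mul, hN, k4_mul, k4_diag, Matrix.one_mul,
    ← Matrix.mul_smul]
  have h3 : k4 P = k4 P * 1 := (Matrix.mul_one _).symm
  conv_lhs =>
    rw [show k4 P * (m • Matrix.diagonal fun x : I × I × I × I =>
        z x.1 ^ N * z x.2.1 ^ N * z x.2.2.1 ^ N * z x.2.2.2 ^ N) - k4 P =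
      k4 P * ((m • Matrix.diagonal fun x : I × I × I × I =>
        z x.1 ^ N * z x.2.1 ^ N * z x.2.2.1 ^ N * z x.2.2.2 ^ N) - 1) by
        rw [Matrix.mul_sub, Matrix.mul_one]]
  congr 1
  ext x y
  by_cases hxy : x = y
  · subst hxy
    rw [Matrix.sub_apply, Matrix.smul_apply, Matrix.diagonal_apply_eq, Matrix.one_apply_eq,
      Matrix.diagonal_apply_eq, smul_eq_mul, mul_pow, mul_pow, mul_pow]
  · rw [Matrix.sub_apply, Matrix.smul_apply, Matrix.diagonal_apply_ne _ hxy,
      Matrix.one_apply_ne hxy, Matrix.diagonal_apply_ne _ hxy, smul_zero, sub_zero]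

end

end Pool.Agent.Lib.MP_640417_ag.Glob
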