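import Pool.Agent.Lib.MP_640417_ag.Glob.Defs

/-!
# MP_640417_ag, Glob, module Inv (100 lines): the eigenvalues of a symplectic similitude come in pairs

The columns `P e_i`, `P e_j` pair to zero unless `z i * z j = μ`; as `J` is nondegenerate, for every `i` there is
`j` with `z i * z j = μ`, it is unique (`z` is injective, `μ ≠ 0`), and `j ≠ i` since `J` is alternating (if
`z i * z i = μ` then `P e_i` would be orthogonal to all `P e_j`, `j ≠ i`, and to itself).
(`J` over the extension field is alternating too: `J i i = 0`, `J i j = - J j i`.)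
-/

set_option autoImplicit false

namespace Pool.Agent.Lib.MP_640417_ag.Glob

open Matrix Polynomial

variable {F : Type} [Field F] {I : Type} [Fintype I] [DecidableEq I]

private theorem alt_entries {J : Matrix I I F} (hJ : ∀ v : I → F, v ⬝ᵥ (J *ᵥ v) = 0) :
    (∀ i, J i i = 0) ∧ ∀ i j, J i j + J j i = 0 := by
  have h0 : ∀ i, J i i = 0 := by
    intro i
    have h := hJ (Pi.single i 1)
    simpa using h
  refine ⟨h0, ?_⟩
  intro i j
  have h := hJ (Pi.single i 1 + Pi.single j 1)
  rw [Matrix.mulVec_add, add_dotProduct, dotProduct_add, dotProduct_add] at h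
  simp [h0] at h
  linear_combination h

private theorem alt_sum {K : Type} [Field K] {J : Matrix I I K} (h0 : ∀ i, J i i = 0)
    (h1 : ∀ i j, J i j + J j i = 0) (v : I → K) : ∑ i, ∑ j, v i * J i j * v j = 0 := by
  rw [← Fintype.sum_prod_type' (fun i j => v i * J i j * v j)]
  refine Finset.sum_involution (fun x _ => (x.2, x.1)) ?_ ?_ ?_ ?_
  · intro x _
    have := h1 x.1 x.2
    show v x.1 * J x.1 x.2 * v x.2 + v x.2 * J x.2 x.1 * v x.1 = 0
    linear_combination (v x.1 * v x.2) * this
  · rintro ⟨i, j⟩ _ hx he
    have : j = i := (Prod.mk.inj he).1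
    subst this
    apply hx
    show v j * J j j * v j = 0
    rw [h0]
    ring
  · intro x _
    exact Finset.mem_univ _
  · intro x _
    rfl

theorem exists_inv (J : Matrix I I F) (hJ : ∀ v : I → F, v ⬝ᵥ (J *ᵥ v) = 0) (hdet : J.det ≠ 0)
    (g : Matrix I I F) (μ : F) (hμ : μ ≠ 0) (hg : gᵀ * J * g = μ • J)
    (z : I → AlgebraicClosure F) (P : Matrix I I (AlgebraicClosure F))
    (hz : Function.Injective z) (hP : P.det ≠ 0)
    (hgP : g.map (algebraMap F (AlgebraicClosure F)) * P = P * Matrix.diagonal z) :
    ∃ c : I → I, (∀ i, c (c i) = i) ∧ (∀ i, c i ≠ i) ∧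
      (∀ i, z i * z (c i) = algebraMap F (AlgebraicClosure F) μ) ∧
      ∀ i j, z i * z j = algebraMap F (AlgebraicClosure F) μ → j = c i := by
  set φ := algebraMap F (AlgebraicClosure F) with hφ
  set J' := J.map φ with hJ'
  set g' := g.map φ with hg'
  set B := Pᵀ * J' * P with hB
  obtain ⟨h0, h1⟩ := alt_entries hJ
  have hφμ : φ μ ≠ 0 := by
    rw [Ne, map_eq_zero]
    exact hμ
  have hgJ : g'ᵀ * J' * g' = φ μ • J' := by
    have := congrArg (fun A : Matrix I I F => A.map φ) hg
    simp only [Matrix.map_mul] at this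
    rw [Matrix.transpose_map] at this
    rw [hg', hJ', this]
    ext i j
    simp
  have hDB : Matrix.diagonal z * B * Matrix.diagonal z = φ μ • B := by
    calc Matrix.diagonal z * B * Matrix.diagonal z
        = (P * Matrix.diagonal z)ᵀ * J' * (P * Matrix.diagonal z) := by
          rw [hB, Matrix.transpose_mul, Matrix.diagonal_transpose]
          simp only [Matrix.mul_assoc]
      _ = (g' * P)ᵀ * J' * (g' * P) := by rw [hgP]
      _ = Pᵀ * (g'ᵀ * J' * g') * P := by
          rw [Matrix.transpose_mul]
          simp only [Matrix.mul_assoc]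
      _ = φ μ • B := by
          rw [hgJ, Matrix.mul_smul, Matrix.smul_mul]
  have hent : ∀ i j, z i * z j ≠ φ μ → B i j = 0 := by
    intro i j hij
    have h := congrFun (congrFun hDB i) j
    rw [Matrix.mul_diagonal, Matrix.diagonal_mul, Matrix.smul_apply, smul_eq_mul] at h
    have h' : (z i * z j - φ μ) * B i j = 0 := by linear_combination h
    rcases mul_eq_zero.mp h' with h' | h'
    · exact absurd (sub_eq_zero.mp h') hij
    · exact h'
  have hBii : ∀ i, B i i = 0 := by
    intro i
    have hs := alt_sum (J := J') (fun i => by rw [hJ', Matrix.map_apply, h0, map_zero])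
      (fun i j => by rw [hJ', Matrix.map_apply, Matrix.map_apply, ← map_add, h1, map_zero])
      (fun k => P k i)
    have : B i i = ∑ k, ∑ l, P k i * J' k l * P l i := by
      rw [hB, Matrix.mul_apply]
      simp only [Matrix.mul_apply, Matrix.transpose_apply, Finset.sum_mul]
      rw [Finset.sum_comm]
    rw [this, hs]
  have hdetB : B.det ≠ 0 := by
    rw [hB, Matrix.det_mul, Matrix.det_mul, Matrix.det_transpose]
    have hJd : J'.det ≠ 0 := by
      have hh : J'.det = φ J.det := by
        rw [hJ']
        exact (RingHom.map_det φ J).symm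
      rw [hh, Ne, map_eq_zero]
      exact hdet
    exact mul_ne_zero (mul_ne_zero hP hJd) hP
  have hex : ∀ i, ∃ j, z i * z j = φ μ ∧ j ≠ i := by
    intro i
    by_contra hcon
    push Not at hcon
    apply hdetB
    apply Matrix.det_eq_zero_of_row_eq_zero i
    intro j
    by_cases hij : z i * z j = φ μ
    · rw [hcon j hij]
      exact hBii i
    · exact hent i j hij
  have huniq : ∀ i j j', z i * z j = φ μ → z i * z j' = φ μ → j = j' := by
    intro i j j' h h'
    have hzi : z i ≠ 0 := by
      intro h0
      rw [h0, zero_mul] at h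
      exact hφμ h.symm
    exact hz (mul_left_cancel₀ hzi (h.trans h'.symm))
  choose c hc hci using hex
  refine ⟨c, ?_, hci, hc, ?_⟩
  · intro i
    refine huniq (c i) _ _ (hc (c i)) ?_
    rw [mul_comm]
    exact hc i
  · intro i j hij
    exact huniq i _ _ hij (hc i)

end Pool.Agent.Lib.MP_640417_ag.Glob
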