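import Pool.Agent.Lib.MP_640417_ag.Glob.Diag
import Pool.Agent.Lib.MP_640417_ag.Glob.Inv

/-!
# MP_640417_ag, Glob, module FourC (100 lines): a coefficient decides about the relations

Let `z`, `P` be as in `exists_diag` and `c` as in `exists_inv`. A root of the characteristic polynomial is some `z i`.
Let `N > 0` and `(z i z j z p z q)^N = μ^(2 N)`. By `charpoly_k4` over the algebraic closure (with
`Matrix.charpoly_map`) the coefficient number `nt I` of the characteristic polynomial of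
`diagonal (μ^(-2N) (z z z z)^N - 1)` is not zero, so by `coeff_zero_count` at most `nt I` quadruples satisfy the
relation. All elements of `T0 c` do, and there are `nt I` of them (`card_T0`); so `(i, j, p, q) ∈ T0 c`, and one of
`j = c i`, `p = c i`, `q = c i` holds.
-/

set_option autoImplicit false

namespace Pool.Agent.Lib.MP_640417_ag.Glob

open Matrix Polynomial

variable {F : Type} [Field F] {I : Type} [Fintype I] [DecidableEq I]

private theorem map_mat (g : Matrix I I F) (m : F) (N : ℕ) :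
    (m • k4 (g ^ N) - 1).map (algebraMap F (AlgebraicClosure F)) =
      algebraMap F (AlgebraicClosure F) m •
        k4 ((g.map (algebraMap F (AlgebraicClosure F))) ^ N) - 1 := by
  have hp : (g ^ N).map (algebraMap F (AlgebraicClosure F)) =
      (g.map (algebraMap F (AlgebraicClosure F))) ^ N :=
    map_pow (RingHom.mapMatrix (algebraMap F (AlgebraicClosure F))) g N
  rw [← hp]
  ext x y
  simp only [Matrix.map_apply, Matrix.sub_apply, Matrix.smul_apply, smul_eq_mul, map_sub, map_mul,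
    k4, Matrix.of_apply, Matrix.one_apply]
  split_ifs <;> simp

theorem four_of_coeff (J : Matrix I I F) (hJ : ∀ v : I → F, v ⬝ᵥ (J *ᵥ v) = 0) (hdet : J.det ≠ 0)
    (g : Matrix I I F) (μ : F) (hμ : μ ≠ 0) (hg : gᵀ * J * g = μ • J) (hsep : g.charpoly.Separable)
    (h : ∀ N : ℕ, 0 < N → ((μ ^ (2 * N))⁻¹ • k4 (g ^ N) - 1).charpoly.coeff (nt I) ≠ 0) :
    FourM g μ := by
  classical
  refine ⟨hsep, ?_⟩
  intro a b u v ha hb hu hv N hN hrel
  obtain ⟨z, P, hz, hP, hgP, -, hall⟩ := exists_diag g hsep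
  obtain ⟨c, hcc, hci, hzc, -⟩ := exists_inv J hJ hdet g μ hμ hg z P hz hP hgP
  obtain ⟨i, rfl⟩ := hall a ha
  obtain ⟨j, rfl⟩ := hall b hb
  obtain ⟨p, rfl⟩ := hall u hu
  obtain ⟨q, rfl⟩ := hall v hv
  set φ := algebraMap F (AlgebraicClosure F) with hφ
  have hφμ : φ μ ≠ 0 := by
    rw [Ne, map_eq_zero]
    exact hμ
  have hm : φ ((μ ^ (2 * N))⁻¹) = (φ μ ^ (2 * N))⁻¹ := by rw [map_inv₀, map_pow]
  have hcoef : (Matrix.diagonal fun x : I × I × I × I =>
      φ ((μ ^ (2 * N))⁻¹) * (z x.1 * z x.2.1 * z x.2.2.1 * z x.2.2.2) ^ N - 1).charpoly.coeff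
        (nt I) ≠ 0 := by
    rw [← charpoly_k4 hP hgP, ← map_mat, Matrix.charpoly_map, Polynomial.coeff_map, Ne, map_eq_zero]
    exact h N hN
  have hle := coeff_zero_count _ _ hcoef
  have hzero : ∀ w : AlgebraicClosure F, w ^ N = φ μ ^ (2 * N) →
      φ ((μ ^ (2 * N))⁻¹) * w ^ N - 1 = 0 := by
    intro w hw
    rw [hm, hw, inv_mul_cancel₀ (pow_ne_zero _ hφμ), sub_self]
  have hsub : T0 c ⊆ Finset.univ.filter fun x : I × I × I × I =>
      φ ((μ ^ (2 * N))⁻¹) * (z x.1 * z x.2.1 * z x.2.2.1 * z x.2.2.2) ^ N - 1 = 0 := by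
    intro x hx
    rw [Finset.mem_filter]
    refine ⟨Finset.mem_univ _, hzero _ ?_⟩
    have hx' := (Finset.mem_filter.mp hx).2
    have hprod : z x.1 * z x.2.1 * z x.2.2.1 * z x.2.2.2 = φ μ ^ 2 := by
      rcases hx' with ⟨h1, h2⟩ | ⟨h1, h2⟩ | ⟨h1, h2⟩
      · rw [h1, h2]
        linear_combination (z x.2.2.1 * z (c x.2.2.1)) * hzc x.1 + φ μ * hzc x.2.2.1
      · rw [h1, h2]
        linear_combination (z x.2.1 * z (c x.2.1)) * hzc x.1 + φ μ * hzc x.2.1
      · rw [h1, h2]
        linear_combination (z x.2.1 * z (c x.2.1)) * hzc x.1 + φ μ * hzc x.2.1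
    rw [hprod, ← pow_mul]
  have heq : T0 c = Finset.univ.filter fun x : I × I × I × I =>
      φ ((μ ^ (2 * N))⁻¹) * (z x.1 * z x.2.1 * z x.2.2.1 * z x.2.2.2) ^ N - 1 = 0 :=
    Finset.eq_of_subset_of_card_le hsub (by rw [card_T0 c hcc hci]; exact hle)
  have hmem : (i, j, p, q) ∈ T0 c := by
    rw [heq, Finset.mem_filter]
    exact ⟨Finset.mem_univ _, hzero _ hrel⟩
  rcases (Finset.mem_filter.mp hmem).2 with ⟨h1, -⟩ | ⟨h1, -⟩ | ⟨h1, -⟩
  · left
    have h1' : j = c i := h1
    rw [h1']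
    exact hzc i
  · right
    left
    have h1' : p = c i := h1
    rw [h1']
    exact hzc i
  · right
    right
    have h1' : q = c i := h1
    rw [h1']
    exact hzc i

end Pool.Agent.Lib.MP_640417_ag.Glob
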