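import Mathlib

/-!
# MP_640417_ag, Glob, module SSred (80 lines): elements of reduced algebras of matrices are diagonalizable

`b` in a subalgebra without nilpotent elements: the minimal polynomial `q` of `b` over `F` is
squarefree (the radical evaluated at `b` is nilpotent), so separable (`CharZero`), so its image over `K` has
different roots and kills `b` over `K`: the sum of the eigenspaces is everything (e.g. `Module.End.IsSemisimple` by
`Module.End.isSemisimple_of_squarefree_aeval_eq_zero`, then the generalized eigenspaces, whose sum is everything over an
algebraically closed field, are eigenspaces; or Lagrange interpolation).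
-/

set_option autoImplicit false

namespace Pool.Agent.Lib.MP_640417_ag.Glob

open Matrix Module

variable {I : Type} [Fintype I] [DecidableEq I] {F : Type} [Field F] [CharZero F]

theorem ss_of_red (C : Subalgebra F (Matrix I I F)) (hred : ∀ b ∈ C, IsNilpotent b → b = 0)
    (K : Type) [Field K] [Algebra F K] [IsAlgClosed K] (b : Matrix I I F) (hb : b ∈ C) :
    ⨆ t : K, Module.End.eigenspace (Matrix.toLin' (b.map (algebraMap F K))) t = ⊤ := by
  classical
  have hR : IsReduced C := by
    refine ⟨fun x hx => ?_⟩
    obtain ⟨n, hn⟩ := hx
    have h1 : ((x : Matrix I I F)) ^ n = 0 := by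
      have := congrArg (fun y : C => (y : Matrix I I F)) hn
      simpa using this
    exact Subtype.ext (hred x x.2 ⟨n, h1⟩)
  let x : C := ⟨b, hb⟩
  have hx : IsIntegral F x := Algebra.IsIntegral.isIntegral x
  have hrad : IsRadical (minpoly F x) := minpoly.isRadical F x
  have hsq : Squarefree (minpoly F x) := hrad.squarefree (minpoly.ne_zero hx)
  have hsep : (minpoly F x).Separable := PerfectField.separable_iff_squarefree.mpr hsq
  have hsep' : ((minpoly F x).map (algebraMap F K)).Separable := hsep.map
  have hsq' : Squarefree ((minpoly F x).map (algebraMap F K)) := hsep'.squarefree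
  have hb0 : Polynomial.aeval b (minpoly F x) = 0 := by
    have h1 : Polynomial.aeval x (minpoly F x) = 0 := minpoly.aeval F x
    have h2 := congrArg (fun y : C => (y : Matrix I I F)) h1
    have h3 : ((Polynomial.aeval x (minpoly F x) : C) : Matrix I I F) =
        Polynomial.aeval b (minpoly F x) := by
      have := Polynomial.aeval_algHom_apply C.val x (minpoly F x)
      simpa using this.symm
    rw [← h3]
    exact h2
  have hbK : Polynomial.aeval (b.map (algebraMap F K))
      ((minpoly F x).map (algebraMap F K)) = 0 := by
    have h1 : Polynomial.aeval (b.map (algebraMap F K)) ((minpoly F x).map (algebraMap F K)) =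
        (Polynomial.aeval b (minpoly F x)).map (algebraMap F K) := by
      rw [Polynomial.aeval_map_algebraMap]
      have := Polynomial.aeval_algHom_apply (Algebra.ofId F K).mapMatrix b (minpoly F x)
      exact this
    rw [h1, hb0]
    ext i j
    simp
  have hlin : Polynomial.aeval (Matrix.toLin' (b.map (algebraMap F K)))
      ((minpoly F x).map (algebraMap F K)) = 0 := by
    have := Polynomial.aeval_algHom_apply (Matrix.toLinAlgEquiv' (R := K) (n := I)).toAlgHom
      (b.map (algebraMap F K)) ((minpoly F x).map (algebraMap F K))
    rw [hbK, map_zero] at this
    exact this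
  have hss : Module.End.IsSemisimple (Matrix.toLin' (b.map (algebraMap F K))) :=
    Module.End.isSemisimple_of_squarefree_aeval_eq_zero hsq' hlin
  have htop := Module.End.iSup_maxGenEigenspace_eq_top (Matrix.toLin' (b.map (algebraMap F K)))
  rw [← htop]
  congr 1
  ext1 t
  exact (hss.isFinitelySemisimple.maxGenEigenspace_eq_eigenspace t).symm

end Pool.Agent.Lib.MP_640417_ag.Glob
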