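import Pool.Agent.Lib.MP_640417_ag.Glob.Joint
import Pool.Agent.Lib.MP_640417_ag.Glob.Five
import Pool.Agent.Lib.MP_640417_ag.Glob.GenD
import Pool.Agent.Lib.MP_640417_ag.Glob.Diag
import Pool.Agent.Lib.MP_640417_ag.Glob.SSred

/-!
# MP_640417_ag, Glob, module GenK (130 lines): a generic element of the centralizer

* `gen_K`: let `σ`, `P` be as in `exists_basis`, `z i = zz (σ i)`, `X0 = P (diagonal z) P⁻¹`. `X0 P = P (diagonal z)`.
  `X0` commutes with `b ∈ S` (both are diagonal in the basis `P`). `Pᵀ (X0ᵀ J + J X0) P = (diagonal z) Ω + Ω (diagonal z)`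
  with `Ω i j = om (σ i) (σ j)`, zero because `Ω i j ≠ 0` only for `σ j = (σ i).swap`, `z j = - z i` (`zz_swap`).
  `f1 X0 ≠ 0`: `f1_diag`, `zz_inj`. `f2 X0 ≠ 0`: `f2_diag`, `coeff_zero_ne`, `card_zz`.
* `exists_gen`: `K = AlgebraicClosure F`, `S` = the image of `C`; `ss_of_red`, `gen_K` and `gen_F`.
-/

set_option autoImplicit false

namespace Pool.Agent.Lib.MP_640417_ag.Glob

open Matrix Module

variable {I : Type} [Fintype I] [DecidableEq I]

theorem gen_K (hD : Pool.Agent.Lib.MP_640417_ag.Four.SDarboux) {K : Type} [Field K]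
    [IsAlgClosed K] [CharZero K] (J : Matrix I I K) (hJ : ∀ v : I → K, v ⬝ᵥ (J *ᵥ v) = 0)
    (hdet : J.det ≠ 0) (S : Set (Matrix I I K)) (hc : ∀ a ∈ S, ∀ b ∈ S, a * b = b * a)
    (hs : ∀ b ∈ S, bᵀ * J = J * b)
    (hd : ∀ b ∈ S, ⨆ t : K, Module.End.eigenspace (Matrix.toLin' b) t = ⊤) :
    ∃ X0 : Matrix I I K, X0ᵀ * J + J * X0 = 0 ∧ (∀ b ∈ S, X0 * b = b * X0) ∧ f1 X0 ≠ 0 ∧
      f2 X0 ≠ 0 := by
  classical
  obtain ⟨m, σ, P, hP, hG, hS⟩ := exists_basis hD J hJ hdet S hc hs hd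
  have hu : IsUnit P.det := isUnit_iff_ne_zero.mpr hP
  have hPi : P⁻¹ * P = 1 := Matrix.nonsing_inv_mul P hu
  have hPi' : P * P⁻¹ = 1 := Matrix.mul_nonsing_inv P hu
  have hcan : ∀ A B : Matrix I I K, A * P = B * P → A = B := by
    intro A B h
    have h1 : A * P * P⁻¹ = B * P * P⁻¹ := by rw [h]
    rwa [Matrix.mul_assoc, Matrix.mul_assoc, hPi', Matrix.mul_one, Matrix.mul_one] at h1
  obtain ⟨X0, hX⟩ : ∃ X0 : Matrix I I K, X0 * P = P * Matrix.diagonal fun i => zz K (σ i) :=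
    ⟨P * (Matrix.diagonal fun i => zz K (σ i)) * P⁻¹, by
      rw [Matrix.mul_assoc, hPi, Matrix.mul_one]⟩
  refine ⟨X0, ?_, ?_, ?_, ?_⟩
  · have h1 : Pᵀ * (X0ᵀ * J + J * X0) * P = 0 := by
      have h2 : Pᵀ * (X0ᵀ * J + J * X0) * P = (X0 * P)ᵀ * J * P + Pᵀ * J * (X0 * P) := by
        rw [Matrix.transpose_mul, Matrix.mul_add, Matrix.add_mul]
        simp only [Matrix.mul_assoc]
      have h3 : (X0 * P)ᵀ * J * P + Pᵀ * J * (X0 * P) =
          (Matrix.diagonal fun i => zz K (σ i)) * (Pᵀ * J * P) +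
            (Pᵀ * J * P) * Matrix.diagonal fun i => zz K (σ i) := by
        rw [hX, Matrix.transpose_mul, Matrix.diagonal_transpose]
        simp only [Matrix.mul_assoc]
      rw [h2, h3]
      ext i j
      rw [Matrix.add_apply, Matrix.diagonal_mul, Matrix.mul_diagonal, hG, Matrix.zero_apply]
      by_cases h : σ j = (σ i).swap
      · rw [h, zz_swap]
        ring
      · rw [om_swap _ _ h]
        ring
    have h4 : (P⁻¹)ᵀ * Pᵀ = 1 := by
      rw [← Matrix.transpose_mul, hPi', Matrix.transpose_one]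
    refine hcan _ _ ?_
    have h5 : (P⁻¹)ᵀ * (Pᵀ * (X0ᵀ * J + J * X0) * P) = (X0ᵀ * J + J * X0) * P := by
      rw [Matrix.mul_assoc Pᵀ, ← Matrix.mul_assoc, h4, Matrix.one_mul]
    rw [← h5, h1, Matrix.mul_zero, Matrix.zero_mul]
  · intro b hb
    obtain ⟨w, hw⟩ := hS b hb
    refine hcan _ _ ?_
    rw [Matrix.mul_assoc, Matrix.mul_assoc, hw, hX, ← Matrix.mul_assoc, ← Matrix.mul_assoc, hX, hw,
      Matrix.mul_assoc, Matrix.mul_assoc, Matrix.diagonal_mul_diagonal,
      Matrix.diagonal_mul_diagonal]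
    congr 2
    funext i
    exact mul_comm _ _
  · exact (f1_diag hP hX).mpr (zz_inj.comp σ.injective)
  · show (d4 X0).charpoly.coeff (nt I) ≠ 0
    rw [f2_diag hP hX]
    exact coeff_zero_ne _ _ (card_zz σ)

variable {F : Type} [Field F] [CharZero F]

theorem exists_gen (hD : Pool.Agent.Lib.MP_640417_ag.Four.SDarboux) (J : Matrix I I F)
    (hJ : ∀ v : I → F, v ⬝ᵥ (J *ᵥ v) = 0) (hdet : J.det ≠ 0) (C : Subalgebra F (Matrix I I F))
    (hc : ∀ a ∈ C, ∀ b ∈ C, a * b = b * a) (hs : ∀ b ∈ C, bᵀ * J = J * b)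
    (hred : ∀ b ∈ C, IsNilpotent b → b = 0) :
    ∃ X : Matrix I I F, Xᵀ * J + J * X = 0 ∧ (∀ b ∈ C, X * b = b * X) ∧ f1 X ≠ 0 ∧ f2 X ≠ 0 := by
  classical
  have hdiag : ∀ i, J i i = 0 := by
    intro i
    have h := hJ (Pi.single i 1)
    rwa [Matrix.mulVec_single_one, single_one_dotProduct, Matrix.col_apply] at h
  have hskew : ∀ i j, J j i = -J i j := by
    intro i j
    have h := hJ (Pi.single i 1 + Pi.single j 1)
    rw [Matrix.mulVec_add, add_dotProduct, dotProduct_add, dotProduct_add,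
      Matrix.mulVec_single_one, Matrix.mulVec_single_one, single_one_dotProduct,
      single_one_dotProduct, single_one_dotProduct, single_one_dotProduct, Matrix.col_apply,
      Matrix.col_apply, Matrix.col_apply, Matrix.col_apply, hdiag i, hdiag j] at h
    linear_combination h
  have hJ' : ∀ v : I → AlgebraicClosure F,
      v ⬝ᵥ (J.map (algebraMap F (AlgebraicClosure F)) *ᵥ v) = 0 := by
    intro v
    have h1 : v ⬝ᵥ (J.map (algebraMap F (AlgebraicClosure F)) *ᵥ v) =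
        ∑ i, ∑ j, v i * (algebraMap F (AlgebraicClosure F) (J i j) * v j) := by
      simp only [dotProduct, Matrix.mulVec, Finset.mul_sum, Matrix.map_apply]
    have h2 : ∑ i, ∑ j, v i * (algebraMap F (AlgebraicClosure F) (J i j) * v j) =
        -∑ i, ∑ j, v i * (algebraMap F (AlgebraicClosure F) (J i j) * v j) := by
      conv_lhs => rw [Finset.sum_comm]
      rw [← Finset.sum_neg_distrib]
      refine Finset.sum_congr rfl fun i _ => ?_
      rw [← Finset.sum_neg_distrib]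
      refine Finset.sum_congr rfl fun j _ => ?_
      rw [hskew i j, map_neg]
      ring
    rw [h1]
    exact self_eq_neg.mp h2
  have hdet' : (J.map (algebraMap F (AlgebraicClosure F))).det ≠ 0 := by
    have h1 := (algebraMap F (AlgebraicClosure F)).map_det J
    rw [RingHom.mapMatrix_apply] at h1
    rw [← h1]
    exact (map_ne_zero _).mpr hdet
  obtain ⟨X0, h1, h2, h3, h4⟩ := gen_K hD (J.map (algebraMap F (AlgebraicClosure F))) hJ' hdet'
    {b' | ∃ b ∈ C, b' = b.map (algebraMap F (AlgebraicClosure F))} (by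
      rintro _ ⟨a, ha, rfl⟩ _ ⟨b, hb, rfl⟩
      rw [← Matrix.map_mul, ← Matrix.map_mul, hc a ha b hb]) (by
      rintro _ ⟨b, hb, rfl⟩
      rw [← Matrix.transpose_map, ← Matrix.map_mul, ← Matrix.map_mul, hs b hb]) (by
      rintro _ ⟨b, hb, rfl⟩
      exact ss_of_red C hred (AlgebraicClosure F) b hb)
  exact gen_F (K := AlgebraicClosure F) J C X0 h1 (fun b hb => h2 _ ⟨b, hb, rfl⟩) h3 h4

end Pool.Agent.Lib.MP_640417_ag.Glob
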