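import Pool.Agent.Lib.MP_640417_ag.Glob.Rad
import Pool.Agent.Lib.MP_640417_ag.Glob.Proj
import Pool.Agent.Lib.MP_640417_ag.Glob.Class
import Pool.Agent.Lib.MP_640417_ag.Glob.Div

/-!
# MP_640417_ag, Glob, module Lfa (120 lines): the Tate class of the projection

Let `p` be the projection onto `Hh` of `exists_proj` (`Hh_nondeg`), `tQ J p` its tensor, `x = emb (tQ J p)`.
* `x` is a Tate class of codimension 2 on `V^4`: `emb_mem`, and for all `γ`: `p` commutes with the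
  conjugation by `M γ` (`Hh_ad` for `γ` and `γ⁻¹`), so by `act4_tQ` (`S = M γ`, `S' = M γ⁻¹`) and `emb_map`, `emb_smul`
  `map (M γ) x = (μ γ)^2 • x`; the open subgroup is the whole group.
* By hypothesis `x` is in the divisor algebra. Let `S ∈ SpJ` commute with `C`. By `div_inv`, `emb_map` and
  `emb_inj` `act4 S (tQ J p) = tQ J p`, so by `comm_of_act4` `p (S' Y S) = S' (p Y) S`, `S' = S⁻¹`; hence `S' Y S ∈ Hh` for
  `Y ∈ Hh`.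
-/

set_option autoImplicit false

namespace Pool.Agent.Lib.MP_640417_ag.Glob

open Filter Topology Matrix Pool.Agent.Lib.MP_640417_ag

variable {F : Type} [NontriviallyNormedField F] [IsUltrametricDist F] [CompleteSpace F] [CharZero F]
  {I : Type} [Fintype I] [DecidableEq I] {Γ : Type} [Group Γ] [TopologicalSpace Γ]
  [IsTopologicalGroup Γ] [CompactSpace Γ]
  (ρ : MRep Γ F I) (l : ℕ) (hl : ‖(l : F)‖ < 1) (hl0 : (l : F) ≠ 0)

include hl hl0 in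
theorem exists_p (hsemi : ρ.Semi) (hs : ρ.ZSymm)
    (hex : ∀ x : ExteriorAlgebra F (Fin 4 → I → F), TateClass (ρ.act 4) ρ.μ⁻¹ 2 x →
      x ∈ divisorAlg (ρ.act 4) ρ.μ⁻¹) :
    ∃ p : Matrix I I F →ₗ[F] Matrix I I F, (∀ Y, p Y ∈ ρ.Hh l) ∧ (∀ X ∈ ρ.Hh l, p X = X) ∧
      (∀ Y, ∀ X ∈ ρ.Hh l, (p Y * X).trace = (Y * X).trace) ∧
      ∀ S S' : Matrix I I F, S * S' = 1 → S' * S = 1 → SpJ ρ.J S →
        (∀ c, ρ.InC c → S * c = c * S) → ∀ Y ∈ ρ.Hh l, S' * Y * S ∈ ρ.Hh l := by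
  obtain ⟨p, h1, h2, h3, h4⟩ := exists_proj (ρ.Hh l) (fun X hX h0 =>
    Hh_nondeg ρ l hl hl0 hsemi hs X hX h0)
  refine ⟨p, h1, h2, h3, ?_⟩
  have hconj : ∀ γ : Γ, ∀ Y, p (ρ.M γ⁻¹ * Y * ρ.M γ) = ρ.M γ⁻¹ * p Y * ρ.M γ := by
    intro γ Y
    refine h4 (ρ.M γ⁻¹) (ρ.M γ) (M_inv_mul ρ γ) (M_mul_inv ρ γ) ?_ ?_ Y
    · intro X hX
      have h := Hh_ad ρ l γ⁻¹ hX
      rwa [inv_inv] at h
    · intro X hX
      exact Hh_ad ρ l γ hX
  have htate : TateClass (ρ.act 4) ρ.μ⁻¹ 2 (emb (tQ ρ.J p)) := by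
    refine ⟨emb_mem _, ⊤, fun γ _ => ?_⟩
    have e1 : ExteriorAlgebra.map (ρ.act 4 γ) (emb (tQ ρ.J p)) =
        emb (act4 (ρ.M γ) (tQ ρ.J p)) := emb_map _ _
    have e2 : ((ρ.μ⁻¹ γ : Fˣ) : F) * (ρ.μ γ : F) = 1 := by
      rw [MonoidHom.inv_apply, Units.inv_mul]
    rw [e1, act4_tQ ρ.J ρ.det p (ρ.M γ) (ρ.M γ⁻¹) (ρ.μ γ : F) (M_mul_inv ρ γ) (M_inv_mul ρ γ)
      (ρ.eq γ) (hconj γ), emb_smul, smul_smul, ← mul_pow, e2, one_pow, one_smul]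
  have hdiv := hex _ htate
  intro S S' hSS hSS' hS hC Y hY
  have e2 := div_inv ρ 4 S hS hC _ hdiv
  rw [emb_map] at e2
  have e4 := comm_of_act4 ρ.J ρ.det p S S' hSS hSS' hS (emb_inj e2) Y
  rw [h2 Y hY] at e4
  rw [← e4]
  exact h1 _

end Pool.Agent.Lib.MP_640417_ag.Glob
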