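import Pool.Agent.Lib.MP_640417_ag.Glob.Lfa

/-!
# MP_640417_ag, Glob, module Lfull (150 lines): the Lie algebra is the centralizer of the commutant

`p` from `exists_p`.
* `lie_mem`: `X ∈ spJ` commutes with `C`, `Y ∈ Hh`. For `r = l^k`, `k` large, `det (1 ± r X) ≠ 0` (continuity), and
  `S = (1 - r X) (1 + r X)⁻¹` is in `SpJ` (`(1 + r X)ᵀ J = J (1 - r X)`) and commutes with `C`; its inverse is
  `S' = (1 + r X) (1 - r X)⁻¹`, `S' Y S ∈ Hh`. `S' - 1 = 2 r X (1 - r X)⁻¹`,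
  `S' Y S - Y = ((S' - 1) Y - Y (S' - 1)) S`, and divided by `r` this is in `Hh` and tends to `2 (X Y - Y X)`
  (`(1 ± r X)⁻¹ → 1`); `Hh` is closed (`Submodule.closed_of_finiteDimensional`).
* `Hh_full`: `X1 = X - p X` commutes with `C` (`Hh_comm_C` for `p X ∈ Hh`) and is in `spJ`. For `Y, Z ∈ Hh`:
  `[X1, Y] ∈ Hh` (`lie_mem`) and `tr ([X1,Y] Z) = tr (X1 [Y,Z]) = 0` (`[Y,Z] ∈ Hh`, property of `p`). So `[X1, Y] = 0`
  (`Hh_nondeg`), so `X1 ∈ C` (`comm_open`), so `X1` is symmetric and skew: `symm_skew`, `X = p X ∈ Hh`.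
-/

set_option autoImplicit false

namespace Pool.Agent.Lib.MP_640417_ag.Glob

open Filter Topology Matrix Pool.Agent.Lib.MP_640417_ag

variable {F : Type} [NontriviallyNormedField F] [IsUltrametricDist F] [CompleteSpace F] [CharZero F]
  {I : Type} [Fintype I] [DecidableEq I] {Γ : Type} [Group Γ] [TopologicalSpace Γ]
  [IsTopologicalGroup Γ] [CompactSpace Γ]
  (ρ : MRep Γ F I) (l : ℕ) (hl : ‖(l : F)‖ < 1) (hl0 : (l : F) ≠ 0)

omit [IsUltrametricDist F] [CompleteSpace F] [CharZero F] in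
include hl in
private theorem tend_inv (X : Matrix I I F) :
    Tendsto (fun k : ℕ => ((1 : Matrix I I F) + ((l : F) ^ k) • X)) atTop (𝓝 1) ∧
      (∀ᶠ k : ℕ in atTop, IsUnit ((1 : Matrix I I F) + ((l : F) ^ k) • X).det) ∧
      Tendsto (fun k : ℕ => ((1 : Matrix I I F) + ((l : F) ^ k) • X)⁻¹) atTop (𝓝 1) := by
  have h0 : Tendsto (fun k : ℕ => (l : F) ^ k) atTop (𝓝 0) :=
    tendsto_pow_atTop_nhds_zero_of_norm_lt_one hl
  have h1 : Tendsto (fun k : ℕ => ((1 : Matrix I I F) + ((l : F) ^ k) • X)) atTop (𝓝 1) := by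
    have h := (tendsto_const_nhds (x := (1 : Matrix I I F))).add (h0.smul_const X)
    rwa [zero_smul, add_zero] at h
  have hdet : Tendsto (fun k : ℕ => ((1 : Matrix I I F) + ((l : F) ^ k) • X).det) atTop
      (𝓝 1) := by
    have h := ((continuous_id.matrix_det).tendsto (1 : Matrix I I F)).comp h1
    rwa [id, Matrix.det_one] at h
  have hunit : ∀ᶠ k : ℕ in atTop, ((1 : Matrix I I F) + ((l : F) ^ k) • X).det ≠ 0 :=
    hdet.eventually_ne one_ne_zero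
  refine ⟨h1, hunit.mono fun k hk => isUnit_iff_ne_zero.2 hk, ?_⟩
  have hadj : Tendsto (fun k : ℕ => ((1 : Matrix I I F) + ((l : F) ^ k) • X).adjugate) atTop
      (𝓝 1) := by
    have h := ((continuous_id.matrix_adjugate).tendsto (1 : Matrix I I F)).comp h1
    rwa [id, Matrix.adjugate_one] at h
  have hinv := hdet.inv₀ one_ne_zero
  have h := hinv.smul hadj
  rw [inv_one, one_smul] at h
  refine h.congr fun k => ?_
  rw [Matrix.inv_def, Ring.inverse_eq_inv']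

omit [IsUltrametricDist F] [CompleteSpace F] [CharZero F] [IsTopologicalGroup Γ] [CompactSpace Γ] in
/-- the Cayley transform -/
private theorem cayley {X D E : Matrix I I F} (hX : X ∈ spJ ρ.J) (r : F)
    (hD : D = 1 + r • X) (hE : E = 1 - r • X) (hDu : IsUnit D.det) :
    SpJ ρ.J (E * D⁻¹) := by
  have hX' : Xᵀ * ρ.J = -(ρ.J * X) := eq_neg_of_add_eq_zero_left hX
  have e1 : Eᵀ * ρ.J = ρ.J * D := by
    rw [hE, hD, Matrix.transpose_sub, Matrix.transpose_one, Matrix.transpose_smul, Matrix.sub_mul,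
      Matrix.one_mul, Matrix.smul_mul, hX', Matrix.mul_add, Matrix.mul_one, Matrix.mul_smul,
      smul_neg, sub_neg_eq_add]
  have e2 : Dᵀ * ρ.J = ρ.J * E := by
    rw [hE, hD, Matrix.transpose_add, Matrix.transpose_one, Matrix.transpose_smul, Matrix.add_mul,
      Matrix.one_mul, Matrix.smul_mul, hX', Matrix.mul_sub, Matrix.mul_one, Matrix.mul_smul,
      smul_neg, sub_eq_add_neg]
  have e3 : D * E = E * D := by
    rw [hD, hE]
    simp only [Matrix.add_mul, Matrix.sub_mul, Matrix.mul_add, Matrix.mul_sub, Matrix.one_mul,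
      Matrix.mul_one]
    abel
  have e4 : Eᵀ * ρ.J * E = Dᵀ * ρ.J * D := by
    rw [e1, e2, Matrix.mul_assoc, Matrix.mul_assoc, e3]
  show (E * D⁻¹)ᵀ * ρ.J * (E * D⁻¹) = ρ.J
  have hDi : D * D⁻¹ = 1 := Matrix.mul_nonsing_inv D hDu
  have hDt : (D⁻¹)ᵀ * Dᵀ = 1 := by rw [← Matrix.transpose_mul, hDi, Matrix.transpose_one]
  rw [Matrix.transpose_mul]
  calc (D⁻¹)ᵀ * Eᵀ * ρ.J * (E * D⁻¹) = (D⁻¹)ᵀ * (Eᵀ * ρ.J * E) * D⁻¹ := by
        simp only [Matrix.mul_assoc]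
    _ = (D⁻¹)ᵀ * (Dᵀ * ρ.J * D) * D⁻¹ := by rw [e4]
    _ = ((D⁻¹)ᵀ * Dᵀ) * ρ.J * (D * D⁻¹) := by simp only [Matrix.mul_assoc]
    _ = ρ.J := by rw [hDi, hDt, Matrix.one_mul, Matrix.mul_one]

omit [IsUltrametricDist F] [IsTopologicalGroup Γ] [CompactSpace Γ] in
include hl hl0 in
private theorem lie_mem
    (hp : ∀ S S' : Matrix I I F, S * S' = 1 → S' * S = 1 → SpJ ρ.J S →
        (∀ c, ρ.InC c → S * c = c * S) → ∀ Y ∈ ρ.Hh l, S' * Y * S ∈ ρ.Hh l)
    {X Y : Matrix I I F} (hX : X ∈ spJ ρ.J) (hC : ∀ b, ρ.InC b → X * b = b * X)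
    (hY : Y ∈ ρ.Hh l) : X * Y - Y * X ∈ ρ.Hh l := by
  obtain ⟨-, hu1, ht1⟩ := tend_inv l hl X
  obtain ⟨-, hu2, ht2⟩ := tend_inv l hl (-X)
  have h0 : Tendsto (fun k : ℕ => (l : F) ^ k) atTop (𝓝 0) :=
    tendsto_pow_atTop_nhds_zero_of_norm_lt_one hl
  have hG : Tendsto (fun k : ℕ => (2 : F) • (X * (1 + ((l : F) ^ k) • -X)⁻¹ * Y) -
      (2 : F) • (Y * X * (1 + ((l : F) ^ k) • X)⁻¹) -
      (4 * (l : F) ^ k) • (X * (1 + ((l : F) ^ k) • -X)⁻¹ * Y * X * (1 + ((l : F) ^ k) • X)⁻¹))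
      atTop (𝓝 ((2 : F) • (X * 1 * Y) - (2 : F) • (Y * X * 1) -
        (4 * (0 : F)) • (X * 1 * Y * X * 1))) := by
    refine Tendsto.sub (Tendsto.sub ?_ ?_) ?_
    · exact ((tendsto_const_nhds.mul ht2).mul tendsto_const_nhds).const_smul _
    · exact (tendsto_const_nhds.mul ht1).const_smul _
    · exact (tendsto_const_nhds.mul h0).smul
        (((((tendsto_const_nhds.mul ht2).mul tendsto_const_nhds).mul tendsto_const_nhds)).mul ht1)
  have hmem : ∀ᶠ k : ℕ in atTop, (2 : F) • (X * (1 + ((l : F) ^ k) • -X)⁻¹ * Y) -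
      (2 : F) • (Y * X * (1 + ((l : F) ^ k) • X)⁻¹) -
      (4 * (l : F) ^ k) • (X * (1 + ((l : F) ^ k) • -X)⁻¹ * Y * X * (1 + ((l : F) ^ k) • X)⁻¹) ∈
      (ρ.Hh l : Set (Matrix I I F)) := by
    filter_upwards [hu1, hu2] with k hk1 hk2
    obtain ⟨r, hr⟩ : ∃ r, r = (l : F) ^ k := ⟨_, rfl⟩
    have hr0 : r ≠ 0 := by
      rw [hr]
      exact pow_ne_zero _ hl0
    rw [← hr] at hk1 hk2 ⊢
    obtain ⟨D, hD⟩ : ∃ D : Matrix I I F, D = 1 + r • X := ⟨_, rfl⟩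
    obtain ⟨E, hE⟩ : ∃ E : Matrix I I F, E = 1 + r • -X := ⟨_, rfl⟩
    rw [← hD] at hk1 ⊢
    rw [← hE] at hk2 ⊢
    have hE' : E = 1 - r • X := by rw [hE, smul_neg, sub_eq_add_neg]
    have a1 : D * D⁻¹ = 1 := Matrix.mul_nonsing_inv D hk1
    have a2 : D⁻¹ * D = 1 := Matrix.nonsing_inv_mul D hk1
    have a3 : E * E⁻¹ = 1 := Matrix.mul_nonsing_inv E hk2
    have a4 : E⁻¹ * E = 1 := Matrix.nonsing_inv_mul E hk2
    have s1 : (E * D⁻¹) * (D * E⁻¹) = 1 := by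
      rw [Matrix.mul_assoc, ← Matrix.mul_assoc D⁻¹, a2, Matrix.one_mul, a3]
    have s2 : (D * E⁻¹) * (E * D⁻¹) = 1 := by
      rw [Matrix.mul_assoc, ← Matrix.mul_assoc E⁻¹, a4, Matrix.one_mul, a1]
    have s3 : SpJ ρ.J (E * D⁻¹) := cayley ρ hX r hD hE' hk1
    have s4 : ∀ c, ρ.InC c → (E * D⁻¹) * c = c * (E * D⁻¹) := by
      intro c hc
      have b1 := hC c hc
      have b2 : D * c = c * D := by
        rw [hD, Matrix.add_mul, Matrix.mul_add, Matrix.one_mul, Matrix.mul_one, Matrix.smul_mul,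
          Matrix.mul_smul, b1]
      have b3 : E * c = c * E := by
        rw [hE', Matrix.sub_mul, Matrix.mul_sub, Matrix.one_mul, Matrix.mul_one, Matrix.smul_mul,
          Matrix.mul_smul, b1]
      have b4 : D⁻¹ * c = c * D⁻¹ := by
        calc D⁻¹ * c = D⁻¹ * c * (D * D⁻¹) := by rw [a1, Matrix.mul_one]
          _ = D⁻¹ * (c * D) * D⁻¹ := by simp only [Matrix.mul_assoc]
          _ = (D⁻¹ * D) * c * D⁻¹ := by rw [← b2]; simp only [Matrix.mul_assoc]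
          _ = c * D⁻¹ := by rw [a2, Matrix.one_mul]
      rw [Matrix.mul_assoc, b4, ← Matrix.mul_assoc, b3, Matrix.mul_assoc]
    have key := hp (E * D⁻¹) (D * E⁻¹) s1 s2 s3 s4 Y hY
    have c1 : D * E⁻¹ = 1 + (2 * r) • (X * E⁻¹) := by
      have d1 : D = E + (2 * r) • X := by
        rw [hD, hE', two_mul, add_smul]
        abel
      calc D * E⁻¹ = (E + (2 * r) • X) * E⁻¹ := by rw [← d1]
        _ = 1 + (2 * r) • (X * E⁻¹) := by rw [Matrix.add_mul, a3, Matrix.smul_mul]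
    have c2 : E * D⁻¹ = 1 - (2 * r) • (X * D⁻¹) := by
      have d1 : E = D - (2 * r) • X := by
        rw [hD, hE', two_mul, add_smul]
        abel
      calc E * D⁻¹ = (D - (2 * r) • X) * D⁻¹ := by rw [← d1]
        _ = 1 - (2 * r) • (X * D⁻¹) := by rw [Matrix.sub_mul, a1, Matrix.smul_mul]
    have key2 := Submodule.smul_mem (ρ.Hh l) r⁻¹ (Submodule.sub_mem _ key hY)
    have e : r⁻¹ • (D * E⁻¹ * Y * (E * D⁻¹) - Y) =
        (2 : F) • (X * E⁻¹ * Y) - (2 : F) • (Y * X * D⁻¹) -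
          (4 * r) • (X * E⁻¹ * Y * X * D⁻¹) := by
      rw [c1, c2]
      have e5 : (1 + (2 * r) • (X * E⁻¹)) * Y * (1 - (2 * r) • (X * D⁻¹)) - Y =
          (2 * r) • (X * E⁻¹ * Y) - (2 * r) • (Y * X * D⁻¹) -
            (2 * r * (2 * r)) • (X * E⁻¹ * Y * X * D⁻¹) := by
        simp only [Matrix.add_mul, Matrix.mul_sub, Matrix.one_mul, Matrix.mul_one,
          Matrix.smul_mul, Matrix.mul_smul, smul_smul, Matrix.mul_assoc, smul_add]
        abel
      rw [e5, smul_sub, smul_sub, smul_smul, smul_smul, smul_smul]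
      congr 1
      · congr 2
        · field_simp
        · field_simp
      · congr 1
        field_simp
        ring
    rw [e] at key2
    exact key2
  have hclosed : IsClosed (ρ.Hh l : Set (Matrix I I F)) := Submodule.closed_of_finiteDimensional _
  have hlim := hclosed.mem_of_tendsto hG hmem
  have e6 : (2 : F) • (X * 1 * Y) - (2 : F) • (Y * X * 1) -
      (4 * (0 : F)) • (X * 1 * Y * X * 1) = (2 : F) • (X * Y - Y * X) := by
    rw [mul_zero, zero_smul, sub_zero, Matrix.mul_one, Matrix.mul_one, smul_sub]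
  rw [e6] at hlim
  have h2 := Submodule.smul_mem (ρ.Hh l) (2 : F)⁻¹ hlim
  rwa [smul_smul, inv_mul_cancel₀ two_ne_zero, one_smul] at h2

include hl hl0 in
theorem Hh_full (hsemi : ρ.Semi) (hs : ρ.ZSymm)
    (hex : ∀ x : ExteriorAlgebra F (Fin 4 → I → F), TateClass (ρ.act 4) ρ.μ⁻¹ 2 x →
      x ∈ divisorAlg (ρ.act 4) ρ.μ⁻¹)
    (X : Matrix I I F) (hX : X ∈ spJ ρ.J) (hC : ∀ b, ρ.InC b → X * b = b * X) :
    X ∈ ρ.Hh l := by
  obtain ⟨p, hp1, hp2, hp3, hp4⟩ := exists_p ρ l hl hl0 hsemi hs hex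
  have hX1 : X - p X ∈ spJ ρ.J := Submodule.sub_mem _ hX (hp1 X).1
  have hC1 : ∀ b, ρ.InC b → (X - p X) * b = b * (X - p X) := by
    intro b hb
    rw [Matrix.sub_mul, Matrix.mul_sub, hC b hb, Hh_comm_C ρ l hl hl0 (hp1 X) hb]
  have hcomm : ∀ Y ∈ ρ.Hh l, (X - p X) * Y - Y * (X - p X) = 0 := by
    intro Y hY
    refine Hh_nondeg ρ l hl hl0 hsemi hs _ (lie_mem ρ l hl hl0 hp4 hX1 hC1 hY) ?_
    intro Z hZ
    have h1 := hp3 X _ (Hh_lie ρ l hl hl0 hY hZ)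
    have h2 : (((X - p X) * Y - Y * (X - p X)) * Z).trace =
        ((X - p X) * (Y * Z - Z * Y)).trace := by
      rw [Matrix.sub_mul ((X - p X) * Y), Matrix.mul_sub (X - p X), Matrix.trace_sub,
        Matrix.trace_sub, Matrix.mul_assoc (X - p X) Y Z, Matrix.mul_assoc Y (X - p X) Z,
        Matrix.trace_mul_comm Y ((X - p X) * Z), Matrix.mul_assoc (X - p X) Z Y]
    rw [h2, Matrix.sub_mul, Matrix.trace_sub, h1, sub_self]
  obtain ⟨U, hU⟩ := comm_open ρ l hl hl0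
  have hInC : ρ.InC (X - p X) := by
    refine ⟨U, fun γ hγ => hU _ (fun Y hY => ?_) γ hγ⟩
    exact (sub_eq_zero.1 (hcomm Y hY)).symm
  have h0 := symm_skew ρ (hs _ hInC hC1) hX1
  rw [sub_eq_zero.1 h0]
  exact hp1 X

end Pool.Agent.Lib.MP_640417_ag.Glob
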