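import Pool.Agent.Lib.MP_640417_ag.Glob.Lim
import Pool.Agent.Lib.MP_640417_ag.Glob.FourC
import Pool.Agent.Lib.MP_640417_ag.Glob.Tan
import Pool.Agent.Lib.MP_640417_ag.Glob.Cont

/-!
# MP_640417_ag, Glob, module Near (200 lines): good elements near a good tangent vector

Let `X = A - (t/2)`, `Aᵀ J + J A = t J`, `f1 X ≠ 0`, `f2 X ≠ 0`.
* `near_good`: if `I` is empty everything is trivial. Suppose that it is false; take a subsequence
  (`Filter.extraction_of_frequently_atTop`) on which it always fails. For large `j`: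
  `X_j = l^(-k) (M γ_j - 1) - t/2 → X` has `f1 X_j ≠ 0` (`f1_cont`) and `M γ_j = l^k X_j + (1 + l^k t/2)` has a separable
  characteristic polynomial (`sep_affine`). So by `four_of_coeff` there is `N j > 0` such that the coefficient `nt I` of
  the characteristic polynomial of `(μ^(2 N))⁻¹ k4 (M^N) - 1` is zero. This matrix is `c E` with `c = N l^k`, and
  `E → d4 X` by `lim_pow`, `lim_E` (`m = μ^N`, `b = M^N`; `c → 0` as `‖N‖ ≤ 1`); by `coeff_smul_zero` the coefficient is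
  zero for `E`; by `coeff_cont` in the limit `f2 X = 0`, a contradiction.
* `near_open`: by contradiction there are `ε > 0` and `k0` such that all `γ` with
  `‖(l^(-k) (M γ - 1) - A) i j‖ < ε` for all `i`, `j` and some `k ≥ k0` are good: otherwise choose `k j ≥ j` and bad `γ j`
  for `ε = 1/(j+1)` and apply `near_good`. For fixed `k` this set is open (`ρ.cont`), and it is not empty for large `k` as
  `A ∈ Zt`.
-/

set_option autoImplicit false

namespace Pool.Agent.Lib.MP_640417_ag.Glob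

open Filter Topology Matrix

variable {F : Type} [NontriviallyNormedField F] [IsUltrametricDist F] [CompleteSpace F] [CharZero F]
  {I : Type} [Fintype I] [DecidableEq I] {Γ : Type} [Group Γ] [TopologicalSpace Γ]
  (ρ : MRep Γ F I)

private theorem four_of_empty [IsEmpty I] (g : Matrix I I F) (μ : F) : FourM g μ := by
  have h : g.charpoly = 1 := by
    unfold Matrix.charpoly
    exact Matrix.det_isEmpty
  refine ⟨?_, ?_⟩
  · rw [h]
    exact Polynomial.separable_one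
  · intro a b u v ha
    rw [h, map_one] at ha
    exact absurd ha one_ne_zero

theorem near_good (l : ℕ) [Fact l.Prime] (hl : ‖(l : F)‖ < 1) (A : Matrix I I F) (t : F)
    (hA : Aᵀ * ρ.J + ρ.J * A = t • ρ.J) (h1 : f1 (A - (t / 2) • (1 : Matrix I I F)) ≠ 0)
    (h2 : f2 (A - (t / 2) • (1 : Matrix I I F)) ≠ 0) (γ : ℕ → Γ) (k : ℕ → ℕ)
    (hk : Tendsto k atTop atTop)
    (h : Tendsto (fun j => ((l : F) ^ k j)⁻¹ • (ρ.M (γ j) - 1)) atTop (𝓝 A)) :
    ∀ᶠ j in atTop, FourM (ρ.M (γ j)) (ρ.μ (γ j) : F) := by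
  by_contra hno
  rw [not_eventually] at hno
  obtain ⟨φ, hφ, hbad⟩ := extraction_of_frequently_atTop hno
  have hk' : Tendsto (fun j => k (φ j)) atTop atTop := hk.comp hφ.tendsto_atTop
  have h' : Tendsto (fun j => ((l : F) ^ k (φ j))⁻¹ • (ρ.M (γ (φ j)) - 1)) atTop (𝓝 A) :=
    h.comp hφ.tendsto_atTop
  rcases isEmpty_or_nonempty I with hI | hI
  · exact hbad 0 (four_of_empty _ _)
  have hl0 : (l : F) ≠ 0 := Nat.cast_ne_zero.mpr (Fact.out (p := l.Prime)).ne_zero
  have hX : Tendsto (fun j => ((l : F) ^ k (φ j))⁻¹ • (ρ.M (γ (φ j)) - 1) -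
      (t / 2) • (1 : Matrix I I F)) atTop (𝓝 (A - (t / 2) • (1 : Matrix I I F))) :=
    h'.sub_const _
  have hf1 := ((f1_cont (F := F) (I := I)).tendsto _).comp hX
  have hev := hf1.eventually_ne h1
  obtain ⟨j0, hj0⟩ := eventually_atTop.mp hev
  have hexN : ∀ j, ∃ N : ℕ, 0 < N ∧ (j0 ≤ j → (((ρ.μ (γ (φ j)) : F) ^ (2 * N))⁻¹ •
      k4 (ρ.M (γ (φ j)) ^ N) - 1).charpoly.coeff (nt I) = 0) := by
    intro j
    by_cases hj : j0 ≤ j
    · have hne := hj0 j hj
      have hlk : (l : F) ^ k (φ j) ≠ 0 := pow_ne_zero _ hl0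
      have hsep := sep_affine (((l : F) ^ k (φ j))⁻¹ • (ρ.M (γ (φ j)) - 1) -
        (t / 2) • (1 : Matrix I I F)) hne ((l : F) ^ k (φ j)) (1 + (l : F) ^ k (φ j) * (t / 2)) hlk
      have heq : (l : F) ^ k (φ j) • (((l : F) ^ k (φ j))⁻¹ • (ρ.M (γ (φ j)) - 1) -
          (t / 2) • (1 : Matrix I I F)) + (1 + (l : F) ^ k (φ j) * (t / 2)) • (1 : Matrix I I F) =
          ρ.M (γ (φ j)) := by
        ext x y
        simp only [Matrix.smul_apply, Matrix.sub_apply, Matrix.add_apply, smul_eq_mul]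
        field_simp
        ring
      rw [heq] at hsep
      by_contra hN
      push Not at hN
      apply hbad j
      exact four_of_coeff ρ.J ρ.alt ρ.det (ρ.M (γ (φ j))) (ρ.μ (γ (φ j)) : F)
        (Units.ne_zero _) (ρ.eq _) hsep fun N hN0 => (hN N hN0).2
    · exact ⟨1, one_pos, fun h3 => absurd h3 hj⟩
  choose N hN0 hNc using hexN
  have hlim := lim_pow l hl (fun j => ρ.M (γ (φ j))) (fun j => k (φ j)) N hk' hN0 A h'
  have hc0 : ∀ j, (N j : F) * (l : F) ^ k (φ j) ≠ 0 := fun j =>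
    mul_ne_zero (Nat.cast_ne_zero.mpr (hN0 j).ne') (pow_ne_zero _ hl0)
  have hc : Tendsto (fun j => (N j : F) * (l : F) ^ k (φ j)) atTop (𝓝 0) := by
    have hpow : Tendsto (fun j => ‖(l : F)‖ ^ k (φ j)) atTop (𝓝 0) :=
      (tendsto_pow_atTop_nhds_zero_of_lt_one (norm_nonneg _) hl).comp hk'
    refine squeeze_zero_norm (fun j => ?_) hpow
    rw [norm_mul, norm_pow]
    have h3 := norm_nat_le (F := F) (N j)
    have h4 : 0 ≤ ‖(l : F)‖ ^ k (φ j) := by positivity
    nlinarith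
  have hE := lim_E ρ.J ρ.det (fun j => ρ.M (γ (φ j)) ^ N j)
    (fun j => (N j : F) * (l : F) ^ k (φ j)) (fun j => (ρ.μ (γ (φ j)) : F) ^ N j) hc hc0
    (fun j => pow_ne_zero _ (Units.ne_zero _))
    (fun j => by
      have h3 := ρ.eq (γ (φ j) ^ N j)
      rw [map_pow, map_pow] at h3
      rw [h3, Units.val_pow_eq_pow_val])
    A t hA hlim
  have hcoef := ((coeff_cont (F := F) (κ := I × I × I × I) (nt I)).tendsto _).comp hE
  have hzero : ∀ j, j0 ≤ j → (((N j : F) * (l : F) ^ k (φ j))⁻¹ •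
      ((((ρ.μ (γ (φ j)) : F) ^ N j) ^ 2)⁻¹ • k4 (ρ.M (γ (φ j)) ^ N j) - 1)).charpoly.coeff
        (nt I) = 0 := by
    intro j hj
    apply coeff_smul_zero (nt I) ((N j : F) * (l : F) ^ k (φ j)) (hc0 j)
    rw [smul_smul, mul_inv_cancel₀ (hc0 j), one_smul]
    have h3 := hNc j hj
    rw [mul_comm 2 (N j), pow_mul] at h3
    exact h3
  apply h2
  have h3 : Tendsto (fun _ : ℕ => (0 : F)) atTop
      (𝓝 (f2 (A - (t / 2) • (1 : Matrix I I F)))) := by
    refine hcoef.congr' ?_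
    filter_upwards [eventually_ge_atTop j0] with j hj
    exact hzero j hj
  exact (tendsto_nhds_unique h3 tendsto_const_nhds)

/-- the matrices near `A` at the scale `k` -/
private def nearSet (l : ℕ) (A : Matrix I I F) (ε : ℝ) (k : ℕ) : Set Γ :=
  {γ | ∀ i j, ‖(((l : F) ^ k)⁻¹ • (ρ.M γ - 1) - A) i j‖ < ε}

private theorem isOpen_nearSet (l : ℕ) (A : Matrix I I F) (ε : ℝ) (k : ℕ) :
    IsOpen (nearSet ρ l A ε k) := by
  have h : nearSet ρ l A ε k =
      ⋂ i, ⋂ j, {γ | ‖(((l : F) ^ k)⁻¹ • (ρ.M γ - 1) - A) i j‖ < ε} := by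
    ext γ
    simp [nearSet]
  rw [h]
  refine isOpen_iInter_of_finite fun i => isOpen_iInter_of_finite fun j => ?_
  refine isOpen_lt ?_ continuous_const
  have e1 : Continuous fun γ : Γ => ρ.M γ := ρ.cont
  have e2 : Continuous fun γ : Γ => ρ.M γ - 1 := e1.sub continuous_const
  have e3 : Continuous fun γ : Γ => ((l : F) ^ k)⁻¹ • (ρ.M γ - 1) :=
    (continuous_const_smul (((l : F) ^ k)⁻¹)).comp e2
  have h1 : Continuous fun γ : Γ => ((l : F) ^ k)⁻¹ • (ρ.M γ - 1) - A := e3.sub continuous_const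
  exact ((continuous_apply j).comp ((continuous_apply i).comp h1)).norm

theorem near_open (l : ℕ) [Fact l.Prime] (hl : ‖(l : F)‖ < 1) (A : Matrix I I F)
    (hZ : A ∈ ρ.Zt l) (t : F) (hA : Aᵀ * ρ.J + ρ.J * A = t • ρ.J)
    (h1 : f1 (A - (t / 2) • (1 : Matrix I I F)) ≠ 0)
    (h2 : f2 (A - (t / 2) • (1 : Matrix I I F)) ≠ 0) :
    ∃ O : Set Γ, IsOpen O ∧ O.Nonempty ∧ ∀ γ ∈ O, FourM (ρ.M γ) (ρ.μ γ : F) := by
  have hex : ∃ n : ℕ, ∀ k, n ≤ k → ∀ γ ∈ nearSet ρ l A (1 / ((n : ℝ) + 1)) k,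
      FourM (ρ.M γ) (ρ.μ γ : F) := by
    by_contra hno
    push Not at hno
    choose k hk γ hγ hbad using hno
    have hkt : Tendsto k atTop atTop := tendsto_atTop_mono hk tendsto_id
    have hlim : Tendsto (fun j => ((l : F) ^ k j)⁻¹ • (ρ.M (γ j) - 1)) atTop (𝓝 A) := by
      refine tendsto_pi_nhds.mpr fun x => tendsto_pi_nhds.mpr fun y => ?_
      rw [tendsto_iff_norm_sub_tendsto_zero]
      refine squeeze_zero (fun j => norm_nonneg _) (fun j => ?_)
        (tendsto_one_div_add_atTop_nhds_zero_nat (𝕜 := ℝ))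
      exact (hγ j x y).le
    obtain ⟨j, hj⟩ := (near_good ρ l hl A t hA h1 h2 γ k hkt hlim).exists
    exact hbad j hj
  obtain ⟨n, hn⟩ := hex
  obtain ⟨γ, hγ⟩ := hZ
  have hev : ∀ᶠ k in atTop, γ k ∈ nearSet ρ l A (1 / ((n : ℝ) + 1)) k := by
    unfold nearSet
    simp only [Set.mem_ofPred_eq]
    rw [eventually_all]
    intro x
    rw [eventually_all]
    intro y
    have h3 := (tendsto_pi_nhds.mp ((tendsto_pi_nhds.mp hγ) x)) y
    rw [tendsto_iff_norm_sub_tendsto_zero] at h3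
    exact h3.eventually_lt_const (by positivity)
  obtain ⟨k, hk1, hk2⟩ := (hev.and (eventually_ge_atTop n)).exists
  exact ⟨nearSet ρ l A (1 / ((n : ℝ) + 1)) k, isOpen_nearSet ρ l A _ k, ⟨γ k, hk1⟩, hn k hk2⟩

end Pool.Agent.Lib.MP_640417_ag.Glob
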