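import Pool.Agent.Lib.MP_640417_ag.Glob.Lfull
import Pool.Agent.Lib.MP_640417_ag.Glob.Near
import Pool.Agent.Lib.MP_640417_ag.Glob.GenK
import Pool.Agent.Lib.MP_640417_ag.Glob.Coord
import Pool.Agent.Lib.MP_640417_ag.Glob.CoordX
import Pool.Agent.Lib.MP_640417_ag.Four.Darboux

/-!
# MP_640417_ag, Glob, module Main: good elements are dense if the fourth power has no exotic classes
-/

set_option autoImplicit false

namespace Pool.Agent.Lib.MP_640417_ag.Glob

open Filter Topology Matrix Module Pool.Agent.Lib.MP_640417_ag Pool.Agent.Lib.MP_640417_ag.Frob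
  Pool.Agent.Lib.MP_640417_ag.Four

section

variable {F : Type} [NontriviallyNormedField F] [IsUltrametricDist F] [CompleteSpace F] [CharZero F]
  {I : Type} [Fintype I] [DecidableEq I] {Γ : Type} [Group Γ] [TopologicalSpace Γ]

/-- the commutant as a subalgebra -/
def cAlg (ρ : MRep Γ F I) : Subalgebra F (Matrix I I F) where
  carrier := {b | ρ.InC b}
  mul_mem' := fun {a b} ha hb => inC_mul ρ ha hb
  add_mem' := fun {a b} ha hb => inC_add ρ ha hb
  algebraMap_mem' := by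
    intro c
    have h := inC_smul ρ c (inC_one ρ)
    rw [Algebra.algebraMap_eq_smul_one]
    exact h

omit [IsUltrametricDist F] [CompleteSpace F] [CharZero F] in
theorem trace_of_mult (J : Matrix I I F) (hJ : J.det ≠ 0) (A : Matrix I I F) (c : F)
    (hA : Aᵀ * J + J * A = c • J) : 2 * A.trace = c * (Fintype.card I : F) := by
  have hu : IsUnit J.det := isUnit_iff_ne_zero.mpr hJ
  have h1 : Aᵀ + J * A * J⁻¹ = c • (1 : Matrix I I F) := by
    have h2 := congrArg (fun B => B * J⁻¹) hA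
    simp only [Matrix.add_mul, Matrix.smul_mul, Matrix.mul_nonsing_inv J hu] at h2
    rw [Matrix.mul_assoc, Matrix.mul_nonsing_inv J hu, Matrix.mul_one] at h2
    exact h2
  have h3 := congrArg Matrix.trace h1
  rw [Matrix.trace_add, Matrix.trace_transpose, Matrix.trace_mul_comm, ← Matrix.mul_assoc,
    Matrix.nonsing_inv_mul J hu, Matrix.one_mul, Matrix.trace_smul, Matrix.trace_one] at h3
  rw [two_mul, h3, smul_eq_mul]

variable [IsTopologicalGroup Γ] [CompactSpace Γ]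

/-- if the Lie algebra is the centralizer of the commutant there are many good elements -/
theorem good_open_of_full (ρ : MRep Γ F I) (l : ℕ) [Fact l.Prime]
    (hl : ‖(l : F)‖ < 1) (hsemi : ρ.Semi) (hs : ρ.Symm)
    (hfull : ∀ X : Matrix I I F, X ∈ spJ ρ.J → (∀ b, ρ.InC b → X * b = b * X) → X ∈ ρ.Hh l) :
    ∃ O : Set Γ, IsOpen O ∧ O.Nonempty ∧ ∀ γ ∈ O, FourM (ρ.M γ) (ρ.μ γ : F) := by
  have hl0 : (l : F) ≠ 0 := Nat.cast_ne_zero.mpr (Fact.out : l.Prime).ne_zero
  rcases isEmpty_or_nonempty I with hI | hI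
  · refine ⟨Set.univ, isOpen_univ, ⟨1, trivial⟩, fun γ _ => ?_⟩
    have h1 : (ρ.M γ).charpoly = 1 := by
      unfold Matrix.charpoly
      exact Matrix.det_isEmpty
    refine ⟨?_, ?_⟩
    · rw [h1]
      exact Polynomial.separable_one
    · intro a b u v ha
      rw [h1, map_one] at ha
      exact absurd ha one_ne_zero
  · obtain ⟨X, hX, hXC, h1, h2⟩ := exists_gen pDarboux ρ.J ρ.alt ρ.det (cAlg ρ)
      (fun a ha b hb => inC_comm ρ hs ha hb) (fun b hb => hs b hb)
      (fun b hb hn => inC_red ρ hsemi hs hb hn)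
    have hXH : X ∈ ρ.Hh l := hfull X hX hXC
    obtain ⟨hXs, s, hXspan⟩ := hXH
    have hcard : (Fintype.card I : F) ≠ 0 := Nat.cast_ne_zero.mpr Fintype.card_ne_zero
    have htr : X.trace = 0 := by
      have h3 := trace_of_mult ρ.J ρ.det X 0 (by rw [zero_smul]; exact hX)
      rw [zero_mul] at h3
      exact (mul_eq_zero.mp h3).resolve_left two_ne_zero
    have h0 : (0 : Matrix I I F) ∈ ρ.Zt l := by
      refine ⟨fun _ => 1, ?_⟩
      have h3 : (fun k : ℕ => ((l : F) ^ k)⁻¹ • (ρ.M 1 - 1)) = fun _ => 0 := by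
        funext k
        rw [map_one, sub_self, smul_zero]
      rw [h3]
      exact tendsto_const_nhds
    obtain ⟨A, hAZ, hA1, hA2⟩ := gen_span (ρ.Zt l) h0
      (fun A hA B hB => Zt_add ρ l hl hl0 hA hB) X s hXspan htr h1 h2
    obtain ⟨t, ht⟩ := Zt_mult ρ l hl hl0 hAZ
    have h4 : A.trace / (Fintype.card I : F) = t / 2 := by
      have h5 := trace_of_mult ρ.J ρ.det A t ht
      rw [div_eq_div_iff hcard two_ne_zero, mul_comm, h5]
    rw [h4] at hA1 hA2
    exact near_open ρ l hl A hAZ t ht hA1 hA2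

theorem good_open (ρ : MRep Γ F I) (l : ℕ) [Fact l.Prime] (hl : ‖(l : F)‖ < 1)
    (hsemi : ρ.Semi) (hs : ρ.Symm)
    (hex : ∀ x : ExteriorAlgebra F (Fin 4 → I → F), TateClass (ρ.act 4) ρ.μ⁻¹ 2 x →
      x ∈ divisorAlg (ρ.act 4) ρ.μ⁻¹) :
    ∃ O : Set Γ, IsOpen O ∧ O.Nonempty ∧ ∀ γ ∈ O, FourM (ρ.M γ) (ρ.μ γ : F) :=
  good_open_of_full ρ l hl hsemi hs fun X hX hXC =>
    Hh_full ρ l hl (Nat.cast_ne_zero.mpr (Fact.out : l.Prime).ne_zero) hsemi
      (fun b hb _ => hs b hb) hex X hX hXC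

end

theorem good_dense (l : ℕ) [Fact l.Prime] {Γ : Type} [Group Γ]
    [TopologicalSpace Γ] [IsTopologicalGroup Γ] [CompactSpace Γ] {V : Type} [AddCommGroup V]
    [Module ℚ_[l] V] [FiniteDimensional ℚ_[l] V] (ρ : H1Rep Γ ℚ_[l] V) (hsemi : Semisimple ρ)
    (hs : SymmetricCommutant ρ) (hex : NoExoticFour ρ) (D : Set Γ) (hD' : Dense D) :
    ∃ γ ∈ D, GoodElt ρ γ := by
  obtain ⟨R, h1, h2, h3⟩ := exists_coord ρ (Module.finBasis ℚ_[l] V)
  obtain ⟨O, hO, hOn, hOg⟩ := good_open R l (by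
    rw [Padic.norm_p]
    exact inv_lt_one_of_one_lt₀ (by exact_mod_cast (Fact.out : l.Prime).one_lt))
    (coord_semi ρ _ R h1 hsemi) (coord_symm ρ _ R h1 h3 hs) (coord_ex ρ _ R h1 h2 hex)
  obtain ⟨γ, hγ⟩ := hD'.inter_open_nonempty O hO hOn
  exact ⟨γ, hγ.2, coord_good ρ _ R h1 h2 γ (hOg γ hγ.1)⟩

end Pool.Agent.Lib.MP_640417_ag.Glob
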