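import Pool.Agent.Lib.MP_640417_ag.Glob.Defs

/-!
# MP_640417_ag, Glob, module Nil (120 lines): commuting nilpotent matrices, derivations

* `exists_common`: `N` has a finite basis; by induction over it: if the nonzero subspace `W'` of `W` is stable under `N`
  then so is `W' ∩ ker X` (everything commutes), and it is not zero because `X` is nilpotent.
* `deriv_zero`: `δ b = D b - b D` is a derivation of `B`. `b ∈ B` has a squarefree minimal polynomial `q`
  (the radical of `q` evaluated at `b` is nilpotent), so `q` is separable, `u q + w q' = 1`, and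
  `0 = δ (q(b)) = q'(b) δ b` (as `B` is commutative), so `δ b = w(b) q'(b) δ b = 0`.
-/

set_option autoImplicit false

namespace Pool.Agent.Lib.MP_640417_ag.Glob

open Matrix

variable {F : Type} [Field F] [CharZero F] {I : Type} [Fintype I] [DecidableEq I]

omit [CharZero F] in
private theorem exists_common_aux (N : Submodule F (Matrix I I F))
    (hN : ∀ X ∈ N, ∀ Y ∈ N, X * Y = Y * X) (h0 : ∀ X ∈ N, IsNilpotent X)
    (S : Finset (Matrix I I F)) (hS : ∀ X ∈ S, X ∈ N) :
    ∀ W : Submodule F (I → F), W ≠ ⊥ → (∀ X ∈ N, ∀ y ∈ W, X *ᵥ y ∈ W) →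
      ∃ v ∈ W, v ≠ 0 ∧ ∀ X ∈ S, X *ᵥ v = 0 := by
  classical
  induction S using Finset.induction_on with
  | empty =>
    intro W hW _
    obtain ⟨v, hv, hv0⟩ := W.ne_bot_iff.1 hW
    exact ⟨v, hv, hv0, fun X hX => absurd hX (Finset.notMem_empty X)⟩
  | insert X S _ ih =>
    intro W hW hWN
    have hXN : X ∈ N := hS X (Finset.mem_insert_self X S)
    have hW' : W ⊓ LinearMap.ker (Matrix.mulVecLin X) ≠ ⊥ := by
      obtain ⟨w, hw, hw0⟩ := W.ne_bot_iff.1 hW
      obtain ⟨n, hn⟩ := h0 X hXN
      have hex : ∃ k, (X ^ k) *ᵥ w = 0 := ⟨n, by rw [hn, Matrix.zero_mulVec]⟩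
      have hmem : ∀ k, (X ^ k) *ᵥ w ∈ W := by
        intro k
        induction k with
        | zero => rwa [pow_zero, Matrix.one_mulVec]
        | succ k ihk =>
          rw [pow_succ', ← Matrix.mulVec_mulVec]
          exact hWN X hXN _ ihk
      have hk := Nat.find_spec hex
      have hk0 : Nat.find hex ≠ 0 := by
        intro h
        rw [h, pow_zero, Matrix.one_mulVec] at hk
        exact hw0 hk
      obtain ⟨m, hm⟩ := Nat.exists_eq_succ_of_ne_zero hk0
      have hmin : (X ^ m) *ᵥ w ≠ 0 := Nat.find_min hex (by omega)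
      rw [Submodule.ne_bot_iff]
      refine ⟨(X ^ m) *ᵥ w, ⟨hmem m, ?_⟩, hmin⟩
      rw [SetLike.mem_coe, LinearMap.mem_ker, Matrix.mulVecLin_apply, Matrix.mulVec_mulVec,
        ← pow_succ', ← Nat.succ_eq_add_one, ← hm]
      exact hk
    obtain ⟨v, hv, hv0, hvS⟩ := ih (fun Y hY => hS Y (Finset.mem_insert_of_mem hY)) _ hW' (by
      intro Y hY y hy
      refine ⟨hWN Y hY y hy.1, ?_⟩
      have h1 : X *ᵥ y = 0 := hy.2
      rw [SetLike.mem_coe, LinearMap.mem_ker, Matrix.mulVecLin_apply, Matrix.mulVec_mulVec,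
        hN X hXN Y hY, ← Matrix.mulVec_mulVec, h1, Matrix.mulVec_zero])
    refine ⟨v, hv.1, hv0, fun Y hY => ?_⟩
    rcases Finset.mem_insert.1 hY with rfl | hY
    · exact hv.2
    · exact hvS Y hY

/-- common kernel of commuting nilpotent matrices -/
theorem exists_common (N : Submodule F (Matrix I I F)) (hN : ∀ X ∈ N, ∀ Y ∈ N, X * Y = Y * X)
    (h0 : ∀ X ∈ N, IsNilpotent X) (W : Submodule F (I → F)) (hW : W ≠ ⊥)
    (hWN : ∀ X ∈ N, ∀ y ∈ W, X *ᵥ y ∈ W) :
    ∃ v ∈ W, v ≠ 0 ∧ ∀ X ∈ N, X *ᵥ v = 0 := by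
  obtain ⟨S, hS⟩ := (IsNoetherian.noetherian N : N.FG)
  obtain ⟨v, hv, hv0, hvS⟩ := exists_common_aux N hN h0 S
    (fun X hX => hS ▸ Submodule.subset_span hX) W hW hWN
  refine ⟨v, hv, hv0, fun X hX => ?_⟩
  rw [← hS] at hX
  induction hX using Submodule.span_induction with
  | mem X hX => exact hvS X hX
  | zero => exact Matrix.zero_mulVec v
  | add X Y _ _ h1 h2 => rw [Matrix.add_mulVec, h1, h2, add_zero]
  | smul c X _ h1 => rw [Matrix.smul_mulVec, h1, smul_zero]

/-- derivations of a reduced commutative algebra are zero -/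
theorem deriv_zero (B : Subalgebra F (Matrix I I F)) (hB : ∀ X ∈ B, ∀ Y ∈ B, X * Y = Y * X)
    (hred : ∀ X ∈ B, IsNilpotent X → X = 0) (D : Matrix I I F)
    (hD : ∀ b ∈ B, D * b - b * D ∈ B) : ∀ b ∈ B, D * b = b * D := by
  intro b hb
  have hmem : ∀ p : Polynomial F, Polynomial.aeval b p ∈ B := fun p =>
    Algebra.adjoin_le (Set.singleton_subset_iff.2 hb) (Polynomial.aeval_mem_adjoin_singleton F b)
  have hder : ∀ p : Polynomial F, D * Polynomial.aeval b p - Polynomial.aeval b p * D =
      Polynomial.aeval b (Polynomial.derivative p) * (D * b - b * D) := by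
    intro p
    induction p using Polynomial.induction_on with
    | C a =>
      rw [Polynomial.aeval_C, Polynomial.derivative_C, map_zero, zero_mul,
        ← Algebra.commutes, sub_self]
    | add p q hp hq =>
      rw [map_add, map_add, map_add, add_mul (Polynomial.aeval b (Polynomial.derivative p)), ← hp,
        ← hq, mul_add, add_mul]
      abel
    | monomial n a ih =>
      have h1 : Polynomial.C a * Polynomial.X ^ (n + 1) =
          (Polynomial.C a * Polynomial.X ^ n) * Polynomial.X := by ring
      rw [h1]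
      generalize Polynomial.C a * Polynomial.X ^ n = r at ih ⊢
      rw [Polynomial.derivative_mul, Polynomial.derivative_X, mul_one, map_add, map_mul,
        map_mul, Polynomial.aeval_X]
      set P := Polynomial.aeval b r with hP
      set P' := Polynomial.aeval b (Polynomial.derivative r) with hP'
      have h2 : b * (D * b - b * D) = (D * b - b * D) * b := hB _ hb _ (hD b hb)
      calc D * (P * b) - P * b * D = (D * P - P * D) * b + P * (D * b - b * D) := by
            noncomm_ring
        _ = P' * ((D * b - b * D) * b) + P * (D * b - b * D) := by rw [ih, mul_assoc]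
        _ = (P' * b + P) * (D * b - b * D) := by rw [← h2, add_mul, mul_assoc]
  have hint : IsIntegral F b := Algebra.IsIntegral.isIntegral b
  have hq0 : minpoly F b ≠ 0 := minpoly.ne_zero hint
  have hsq : Squarefree (minpoly F b) := by
    rintro x ⟨y, hy⟩
    have h1 : Polynomial.aeval b (x * y) = 0 := by
      refine hred _ (hmem _) ⟨2, ?_⟩
      have h2 : (x * y) ^ 2 = minpoly F b * y := by rw [hy]; ring
      rw [← map_pow, h2, map_mul, minpoly.aeval, zero_mul]
    have h3 : x * x * y ∣ x * y := by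
      rw [← hy]; exact minpoly.dvd F b h1
    have hxy : x * y ≠ 0 := by
      intro h
      apply hq0
      rw [hy, mul_assoc, h, mul_zero]
    obtain ⟨z, hz⟩ := h3
    have h4 : x * y * (x * z) = x * y * 1 := by
      rw [mul_one]; nth_rewrite 2 [hz]; ring
    exact IsUnit.of_mul_eq_one z (mul_left_cancel₀ hxy h4)
  have hsep : (minpoly F b).Separable := PerfectField.separable_iff_squarefree.2 hsq
  obtain ⟨u, w, huw⟩ := hsep
  have h1 := hder (minpoly F b)
  rw [minpoly.aeval, mul_zero, zero_mul, sub_self] at h1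
  have h2 := congrArg (Polynomial.aeval b) huw
  rw [map_add, map_mul, map_mul, minpoly.aeval, mul_zero, zero_add, map_one] at h2
  have h3 : D * b - b * D = 0 := by
    calc D * b - b * D = 1 * (D * b - b * D) := (one_mul _).symm
      _ = Polynomial.aeval b w * (Polynomial.aeval b (Polynomial.derivative (minpoly F b)) *
          (D * b - b * D)) := by rw [← h2, mul_assoc]
      _ = 0 := by rw [← h1, mul_zero]
  exact sub_eq_zero.1 h3

end Pool.Agent.Lib.MP_640417_ag.Glob
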