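import Pool.Agent.Lib.MP_640417_ag.Glob.Comm
import Pool.Agent.Lib.MP_640417_ag.Glob.Nil

/-!
# MP_640417_ag, Glob, module RadA (130 lines): the commutant has no nilpotent elements

* `semi_all`: let `K = {v | X v = 0 for all X ∈ P}` where `P` is stable under conjugation with all `M γ`. `K` is a subspace
  stable under all `M γ`: `X (M γ) v = M γ (M γ⁻¹ X M γ) v = 0`. Let `K'` be a stable complement (`Semi`). If `K' ≠ 0` it
  contains a nonzero vector of `K`, a contradiction; so `K` is everything.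
* `inC_red`: `N` = the set of nilpotent elements of `C = {b | InC b}`; by `inC_comm` it is a subspace of commuting
  nilpotent matrices, stable under conjugation (`inC_conj`). `K = {v | X v = 0 for all X ∈ N}` is stable under `Γ`; let
  `K'` be a stable complement and `e` the projection to `K'` along `K` (as a matrix). `e` commutes with all `M γ`, so `e ∈ C`,
  so it commutes with `N`, and `K'` is stable under `N`. If `K' ≠ 0`, `exists_common` gives a nonzero vector in
  `K' ∩ K`, a contradiction. So `K` is everything and `N = 0`.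
-/

set_option autoImplicit false

namespace Pool.Agent.Lib.MP_640417_ag.Glob

open Filter Topology Matrix

variable {F : Type} [NontriviallyNormedField F] [IsUltrametricDist F] [CompleteSpace F] [CharZero F]
  {I : Type} [Fintype I] [DecidableEq I] {Γ : Type} [Group Γ] [TopologicalSpace Γ]
  (ρ : MRep Γ F I)

theorem semi_all (hsemi : ρ.Semi) (P : Set (Matrix I I F))
    (hP : ∀ γ, ∀ X ∈ P, ρ.M γ * X * ρ.M γ⁻¹ ∈ P)
    (h : ∀ W : Submodule F (I → F), W ≠ ⊥ → (∀ γ, ∀ y ∈ W, ρ.M γ *ᵥ y ∈ W) →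
      ∃ v ∈ W, v ≠ 0 ∧ ∀ X ∈ P, X *ᵥ v = 0) : ∀ X ∈ P, X = 0 := by
  let K : Submodule F (I → F) :=
    { carrier := {v | ∀ X ∈ P, X *ᵥ v = 0}
      zero_mem' := fun X _ => Matrix.mulVec_zero X
      add_mem' := fun {v w} hv hw X hX => by rw [Matrix.mulVec_add, hv X hX, hw X hX, add_zero]
      smul_mem' := fun c v hv X hX => by rw [Matrix.mulVec_smul, hv X hX, smul_zero] }
  have hK : ∀ γ, ∀ y ∈ K, ρ.M γ *ᵥ y ∈ K := by
    intro γ y hy X hX
    have h1 := hP γ⁻¹ X hX
    rw [inv_inv] at h1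
    have h2 : X * ρ.M γ = ρ.M γ * (ρ.M γ⁻¹ * X * ρ.M γ) := by
      rw [← Matrix.mul_assoc, ← Matrix.mul_assoc, M_mul_inv, Matrix.one_mul]
    rw [Matrix.mulVec_mulVec, h2, ← Matrix.mulVec_mulVec, hy _ h1, Matrix.mulVec_zero]
  obtain ⟨K', hK', hc⟩ := hsemi K hK
  have hbot : K' = ⊥ := by
    by_contra hne
    obtain ⟨v, hv, hv0, hvP⟩ := h K' hne hK'
    exact hv0 ((Submodule.disjoint_def.1 hc.disjoint) v hvP hv)
  have htop : K = ⊤ := by
    have h1 := hc.sup_eq_top
    rwa [hbot, sup_bot_eq] at h1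
  intro X hX
  refine (Matrix.toLin' : Matrix I I F ≃ₗ[F] _).injective (LinearMap.ext fun v => ?_)
  have hv : v ∈ K := by
    rw [htop]
    trivial
  rw [Matrix.toLin'_apply, map_zero, LinearMap.zero_apply]
  exact hv X hX

theorem inC_red [IsTopologicalGroup Γ] (hsemi : ρ.Semi) (hs : ρ.Symm) {b : Matrix I I F}
    (hb : ρ.InC b) (hn : IsNilpotent b) : b = 0 := by
  let N : Submodule F (Matrix I I F) :=
    { carrier := {X | ρ.InC X ∧ IsNilpotent X}
      zero_mem' := ⟨by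
        have h1 := inC_smul ρ 0 (inC_one ρ)
        rwa [zero_smul] at h1, IsNilpotent.zero⟩
      add_mem' := fun {X Y} hX hY => ⟨inC_add ρ hX.1 hY.1,
        Commute.isNilpotent_add (inC_comm ρ hs hX.1 hY.1) hX.2 hY.2⟩
      smul_mem' := fun c X hX => ⟨inC_smul ρ c hX.1, hX.2.smul c⟩ }
  have hNc : ∀ X ∈ N, ∀ Y ∈ N, X * Y = Y * X := fun X hX Y hY => inC_comm ρ hs hX.1 hY.1
  let K : Submodule F (I → F) :=
    { carrier := {v | ∀ X ∈ N, X *ᵥ v = 0}
      zero_mem' := fun X _ => Matrix.mulVec_zero X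
      add_mem' := fun {v w} hv hw X hX => by rw [Matrix.mulVec_add, hv X hX, hw X hX, add_zero]
      smul_mem' := fun c v hv X hX => by rw [Matrix.mulVec_smul, hv X hX, smul_zero] }
  have hK : ∀ γ, ∀ y ∈ K, ρ.M γ *ᵥ y ∈ K := by
    intro γ y hy X hX
    have h1 : ρ.M γ⁻¹ * X * ρ.M γ ∈ N := by
      have h2 := inC_conj ρ hX.1 γ⁻¹
      rw [inv_inv] at h2
      refine ⟨h2, ?_⟩
      obtain ⟨m, hm⟩ := hX.2
      refine ⟨m, ?_⟩
      have h3 : ∀ m : ℕ, (ρ.M γ⁻¹ * X * ρ.M γ) ^ m = ρ.M γ⁻¹ * X ^ m * ρ.M γ := by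
        intro m
        induction m with
        | zero => rw [pow_zero, pow_zero, Matrix.mul_one, M_inv_mul]
        | succ m ih =>
          rw [pow_succ, ih, pow_succ]
          calc ρ.M γ⁻¹ * X ^ m * ρ.M γ * (ρ.M γ⁻¹ * X * ρ.M γ) =
              ρ.M γ⁻¹ * X ^ m * (ρ.M γ * ρ.M γ⁻¹) * X * ρ.M γ := by
                simp only [Matrix.mul_assoc]
            _ = ρ.M γ⁻¹ * (X ^ m * X) * ρ.M γ := by
                rw [M_mul_inv, Matrix.mul_one]
                simp only [Matrix.mul_assoc]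
      rw [h3, hm, Matrix.mul_zero, Matrix.zero_mul]
    have h2 : X * ρ.M γ = ρ.M γ * (ρ.M γ⁻¹ * X * ρ.M γ) := by
      rw [← Matrix.mul_assoc, ← Matrix.mul_assoc, M_mul_inv, Matrix.one_mul]
    rw [Matrix.mulVec_mulVec, h2, ← Matrix.mulVec_mulVec, hy _ h1, Matrix.mulVec_zero]
  obtain ⟨K', hK', hc⟩ := hsemi K hK
  have hc' : IsCompl K' K := hc.symm
  -- the projection
  let f : (I → F) →ₗ[F] (I → F) := Submodule.projection K' K hc'
  have hf1 : ∀ y ∈ K', f y = y := fun y hy => Submodule.projection_apply_left hc' ⟨y, hy⟩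
  have hf2 : ∀ y ∈ K, f y = 0 := fun y hy => Submodule.projection_apply_right hc' ⟨y, hy⟩
  have hf3 : ∀ y, f y ∈ K' := fun y => Submodule.projection_apply_mem hc' y
  let e : Matrix I I F := LinearMap.toMatrix' f
  have he : ∀ y, e *ᵥ y = f y := fun y => LinearMap.toMatrix'_mulVec f y
  have hsplit : ∀ y : I → F, ∃ a ∈ K', ∃ k ∈ K, y = a + k := by
    intro y
    have h1 : y ∈ K' ⊔ K := by
      rw [hc'.sup_eq_top]
      trivial
    obtain ⟨a, ha, k, hk, h⟩ := Submodule.mem_sup.1 h1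
    exact ⟨a, ha, k, hk, h.symm⟩
  have heC : ρ.InC e := by
    refine ⟨⊤, fun γ _ => ?_⟩
    refine (Matrix.toLin' : Matrix I I F ≃ₗ[F] _).injective (LinearMap.ext fun v => ?_)
    rw [Matrix.toLin'_apply, Matrix.toLin'_apply, ← Matrix.mulVec_mulVec, ← Matrix.mulVec_mulVec,
      he, he]
    obtain ⟨a, ha, k, hk, rfl⟩ := hsplit v
    rw [map_add, hf1 a ha, hf2 k hk, add_zero, Matrix.mulVec_add, map_add, hf1 _ (hK' γ a ha),
      hf2 _ (hK γ k hk), add_zero]
  have hbot : K' = ⊥ := by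
    by_contra hne
    obtain ⟨v, hv, hv0, hvN⟩ := exists_common N hNc (fun X hX => hX.2) K' hne (by
      intro X hX y hy
      have h1 := inC_comm ρ hs hX.1 heC
      have h2 : X *ᵥ y = e *ᵥ (X *ᵥ y) := by
        rw [Matrix.mulVec_mulVec, ← h1, ← Matrix.mulVec_mulVec, he, hf1 y hy]
      rw [h2, he]
      exact hf3 _)
    exact hv0 ((Submodule.disjoint_def.1 hc.disjoint) v hvN hv)
  have htop : K = ⊤ := by
    have h1 := hc.sup_eq_top
    rwa [hbot, sup_bot_eq] at h1
  refine (Matrix.toLin' : Matrix I I F ≃ₗ[F] _).injective (LinearMap.ext fun v => ?_)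
  have hv : v ∈ K := by
    rw [htop]
    trivial
  rw [Matrix.toLin'_apply, map_zero, LinearMap.zero_apply]
  exact hv b ⟨hb, hn⟩

end Pool.Agent.Lib.MP_640417_ag.Glob
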